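import Mathlib
import Pool.Agent.Helper831.SemiRiem

/-!
# Two-forms, almost symplectic and symplectic structures on a manifold
-/

open scoped Manifold ContDiff Topology
open Set
open Pool.Agent.Helper831 (coordVec)

namespace Pool.Agent.Y519.AS

/-- A 2-form on a manifold `M` modelled on the real normed space `E`: a field of alternating
bilinear forms on the tangent spaces (no regularity is required here). -/
structure TwoForm (E : Type*) [NormedAddCommGroup E] [NormedSpace ℝ E]
    (M : Type*) [TopologicalSpace M] [ChartedSpace E M] where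
  /-- the bilinear form on each tangent space -/
  form : ∀ x : M, TangentSpace 𝓘(ℝ, E) x →ₗ[ℝ] TangentSpace 𝓘(ℝ, E) x →ₗ[ℝ] ℝ
  alt : ∀ (x : M) (v : TangentSpace 𝓘(ℝ, E) x), form x v v = 0

namespace TwoForm

variable {E : Type*} [NormedAddCommGroup E] [NormedSpace ℝ E]
  {M : Type*} [TopologicalSpace M] [ChartedSpace E M]

/-- The component `τ (∂_u, ∂_w)` of the 2-form `τ` in the chart `e`, at the point with
coordinates `y`; here `∂_u = coordVec e y u = d(e⁻¹)_y (u)`. -/
noncomputable def coeff (τ : TwoForm E M) (e : OpenPartialHomeomorph M E) (y u w : E) : ℝ :=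
  τ.form (e.symm y) (coordVec e y u) (coordVec e y w)

/-- The 2-form is smooth: its components in every chart of the atlas are smooth. -/
def IsSmooth (τ : TwoForm E M) : Prop :=
  ∀ e ∈ atlas E M, ∀ u w : E, ContDiffOn ℝ ∞ (fun y => τ.coeff e y u w) e.target

/-- The 2-form is closed: in every chart of the atlas,
`∂_a τ (∂_b, ∂_c) + ∂_b τ (∂_c, ∂_a) + ∂_c τ (∂_a, ∂_b) = 0` for all constant vectors. -/
def IsClosedForm (τ : TwoForm E M) : Prop :=
  ∀ e ∈ atlas E M, ∀ y ∈ e.target, ∀ a b c : E,
    fderiv ℝ (fun y => τ.coeff e y b c) y a + fderiv ℝ (fun y => τ.coeff e y c a) y b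
      + fderiv ℝ (fun y => τ.coeff e y a b) y c = 0

/-- The 2-form is nondegenerate at every point. -/
def IsNondegenerate (τ : TwoForm E M) : Prop :=
  ∀ (x : M) (v : TangentSpace 𝓘(ℝ, E) x), (∀ w, τ.form x v w = 0) → v = 0

/-- An almost symplectic structure: a smooth nondegenerate 2-form. -/
def IsAlmostSymplectic (τ : TwoForm E M) : Prop := τ.IsSmooth ∧ τ.IsNondegenerate

/-- A symplectic form: a smooth closed nondegenerate 2-form. -/
def IsSymplectic (τ : TwoForm E M) : Prop :=
  τ.IsSmooth ∧ τ.IsClosedForm ∧ τ.IsNondegenerate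

/-- `τ₀` and `τ₁` are homotopic through nondegenerate 2-forms: they are joined by a path `τ_t`,
`0 ≤ t ≤ 1`, of nondegenerate 2-forms whose components in every chart of the atlas are jointly
continuous in `t` and the point. -/
def Homotopic (τ₀ τ₁ : TwoForm E M) : Prop :=
  ∃ τ : ℝ → TwoForm E M, τ 0 = τ₀ ∧ τ 1 = τ₁ ∧ (∀ t ∈ Icc (0 : ℝ) 1, (τ t).IsNondegenerate) ∧
    ∀ e ∈ atlas E M, ∀ u w : E,
      ContinuousOn (fun q : ℝ × E => (τ q.1).coeff e q.2 u w) (Icc (0 : ℝ) 1 ×ˢ e.target)

end TwoForm

end Pool.Agent.Y519.AS
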