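import Mathlib
import Pool.Agent.Y519.AS.Pf

/-!
# The Pfaffian of a nondegenerate form does not vanish
-/

open Equiv Finset Module

namespace Pool.Agent.Y519.AS

/-- the standard symplectic matrix -/
def Jst {k : ℕ} (x y : Fin k × Fin 2) : ℝ :=
  if x.1 = y.1 then (if x.2 = 0 ∧ y.2 = 1 then 1 else if x.2 = 1 ∧ y.2 = 0 then -1 else 0) else 0

theorem anti {V : Type*} [AddCommGroup V] [Module ℝ V]
    {ω : V →ₗ[ℝ] V →ₗ[ℝ] ℝ} (halt : ∀ v, ω v v = 0) (u v : V) : ω u v = -ω v u := by
  have h1 := halt (u + v)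
  simp only [map_add, LinearMap.add_apply, halt, zero_add, add_zero] at h1
  linarith

theorem exists_sympl (k : ℕ) : ∀ (V : Type) [AddCommGroup V] [Module ℝ V]
    [FiniteDimensional ℝ V] (ω : V →ₗ[ℝ] V →ₗ[ℝ] ℝ) (_ : ∀ v, ω v v = 0)
    (_ : ∀ u, (∀ v, ω u v = 0) → u = 0) (_ : finrank ℝ V = 2 * k),
    ∃ c : Fin k × Fin 2 → V, ∀ x y, ω (c x) (c y) = Jst x y := by
  induction k with
  | zero =>
    intro V _ _ _ ω _ _ _
    exact ⟨fun x => x.1.elim0, fun x => x.1.elim0⟩
  | succ k ih =>
    intro V _ _ _ ω halt hnd hdim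
    have hanti := anti halt
    have hpos : 0 < finrank ℝ V := by omega
    obtain ⟨a, ha⟩ : ∃ a : V, a ≠ 0 := by
      have : Nontrivial V := Module.finrank_pos_iff.1 hpos
      exact exists_ne 0
    obtain ⟨b', hb'⟩ : ∃ v, ω a v ≠ 0 := by
      by_contra hcon
      push Not at hcon
      exact ha (hnd a hcon)
    obtain ⟨b, hab⟩ : ∃ b, ω a b = 1 := by
      refine ⟨(ω a b')⁻¹ • b', ?_⟩
      rw [map_smul, smul_eq_mul]
      exact inv_mul_cancel₀ hb'
    have hba : ω b a = -1 := by rw [hanti, hab]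
    let F : V →ₗ[ℝ] ℝ × ℝ := (ω a).prod (ω b)
    have hF : ∀ v, F v = (ω a v, ω b v) := fun v => rfl
    have hsurj : Function.Surjective F := by
      rintro ⟨s, t⟩
      refine ⟨s • b - t • a, ?_⟩
      rw [hF]
      simp [hab, hba, halt]
    let W : Submodule ℝ V := LinearMap.ker F
    have hW : ∀ v : V, v ∈ W ↔ ω a v = 0 ∧ ω b v = 0 := by
      intro v
      rw [LinearMap.mem_ker, hF]
      exact Prod.mk_eq_zero
    have hdimW : finrank ℝ W = 2 * k := by
      have h1 := LinearMap.finrank_range_add_finrank_ker F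
      rw [LinearMap.range_eq_top.2 hsurj, finrank_top, Module.finrank_prod, finrank_self] at h1
      change 1 + 1 + finrank ℝ W = _ at h1
      omega
    let ω' : W →ₗ[ℝ] W →ₗ[ℝ] ℝ := ω.domRestrict₁₂ W W
    have hω' : ∀ u v : W, ω' u v = ω u v := fun u v => rfl
    obtain ⟨c, hc⟩ := ih W ω' (fun w => halt w) (by
      intro u hu
      apply Subtype.ext
      apply hnd
      intro v
      obtain ⟨hu1, hu2⟩ := (hW u).1 u.2
      have hv : v - (ω a v) • b + (ω b v) • a ∈ W := by
        rw [hW]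
        constructor
        · simp [hab, halt]
        · simp [hba, halt]
      have h2 := hu ⟨_, hv⟩
      rw [hω'] at h2
      simp only [map_sub, map_add, map_smul, smul_eq_mul] at h2
      rw [hanti u b, hanti u a, hu1, hu2] at h2
      linarith) hdimW
    refine ⟨fun x => Fin.cases (motive := fun _ => V) (if x.2 = 0 then a else b)
      (fun m => (c (m, x.2) : V)) x.1, ?_⟩
    have hca : ∀ z, ω a (c z : V) = 0 := fun z => ((hW _).1 (c z).2).1
    have hcb : ∀ z, ω b (c z : V) = 0 := fun z => ((hW _).1 (c z).2).2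
    have hca' : ∀ z, ω (c z : V) a = 0 := fun z => by rw [hanti, hca, neg_zero]
    have hcb' : ∀ z, ω (c z : V) b = 0 := fun z => by rw [hanti, hcb, neg_zero]
    rintro ⟨x, i⟩ ⟨y, j⟩
    refine Fin.cases ?_ (fun x => ?_) x
    · refine Fin.cases ?_ (fun y => ?_) y
      · fin_cases i <;> fin_cases j <;> simp [Jst, halt, hab, hba]
      · fin_cases i <;> simp [Jst, hca, hcb, (Fin.succ_ne_zero y).symm]
    · refine Fin.cases ?_ (fun y => ?_) y
      · fin_cases j <;> simp [Jst, hca', hcb', Fin.succ_ne_zero x]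
      · have h3 := hc (x, i) (y, j)
        rw [hω'] at h3
        simp only [Fin.cases_succ]
        rw [h3]
        simp [Jst]

variable {k : ℕ} {V : Type} [AddCommGroup V] [Module ℝ V] [FiniteDimensional ℝ V]

/-- a symplectic basis -/
theorem exists_basis (ω : V →ₗ[ℝ] V →ₗ[ℝ] ℝ) (halt : ∀ v, ω v v = 0)
    (hnd : ∀ u, (∀ v, ω u v = 0) → u = 0) (hdim : finrank ℝ V = 2 * k) :
    ∃ b : Basis (Fin k × Fin 2) ℝ V, ∀ x y, ω (b x) (b y) = Jst x y := by
  obtain ⟨c, hc⟩ := exists_sympl k V ω halt hnd hdim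
  have hli : LinearIndependent ℝ c := by
    rw [Fintype.linearIndependent_iff]
    intro g hg x
    obtain ⟨m, i⟩ := x
    have key : ∀ y, ∑ x, g x * Jst x y = 0 := by
      intro y
      have h1 := congrArg (fun v => ω v (c y)) hg
      simp only [map_sum, map_smul, LinearMap.sum_apply, LinearMap.smul_apply, smul_eq_mul,
        hc, map_zero, LinearMap.zero_apply] at h1
      exact h1
    have h0 := key (m, if i = 0 then 1 else 0)
    rw [Finset.sum_eq_single (m, i)] at h0
    · fin_cases i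
      · simpa [Jst] using h0
      · simpa [Jst] using h0
    · rintro ⟨m', i'⟩ _ hne
      by_cases hm : m' = m
      · subst hm
        have hi : i' ≠ i := fun h => hne (by rw [h])
        have haux : ∀ i i' : Fin 2, i' ≠ i →
            ¬ (i' = 0 ∧ (if i = 0 then (1 : Fin 2) else 0) = 1) ∧
            ¬ (i' = 1 ∧ (if i = 0 then (1 : Fin 2) else 0) = 0) := by decide
        obtain ⟨h3, h4⟩ := haux i i' hi
        unfold Jst
        rw [if_pos rfl, if_neg h3, if_neg h4, mul_zero]
      · simp [Jst, hm]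
    · intro h
      exact absurd (Finset.mem_univ _) h
  have hcard : Fintype.card (Fin k × Fin 2) = finrank ℝ V := by
    rw [hdim, Fintype.card_prod, Fintype.card_fin, Fintype.card_fin, mul_comm]
  rcases Nat.eq_zero_or_pos k with rfl | hk
  · have hsub : Subsingleton V := finrank_zero_iff.1 (by omega)
    have hemp : IsEmpty (Fin 0 × Fin 2) := inferInstance
    exact ⟨Basis.empty V, fun x => hemp.elim x⟩
  · have hne : Nonempty (Fin k × Fin 2) := ⟨(⟨0, hk⟩, 0)⟩
    refine ⟨basisOfLinearIndependentOfCardEqFinrank hli hcard, fun x y => ?_⟩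
    simp only [coe_basisOfLinearIndependentOfCardEqFinrank]
    exact hc x y

end Pool.Agent.Y519.AS
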