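import Mathlib
import Pool.Agent.Y519.AS.Nonv

/-!
# Closed left invariant two-forms on the complex free two-step nilpotent group on three generators
-/

open Module Function

set_option linter.unusedSectionVars false

namespace Pool.Agent.Y519.AS

/-- `ℂ³` -/
abbrev C3 : Type := Fin 3 → ℂ

/-- the cocycle -/
noncomputable def bet (x y : C3) : C3 := ![x 1 * y 2, x 2 * y 0, x 0 * y 1]

/-- the commutator -/
noncomputable def cr (x y : C3) : C3 := bet x y - bet y x

theorem cr_eq (x y : C3) : cr x y = ![x 1 * y 2 - y 1 * x 2, x 2 * y 0 - y 2 * x 0,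
    x 0 * y 1 - y 0 * x 1] := by
  unfold cr bet
  ext i
  fin_cases i <;> simp

theorem cr_smul_left (c : ℂ) (x y : C3) : cr (c • x) y = c • cr x y := by
  rw [cr_eq, cr_eq]
  ext i
  fin_cases i <;> simp <;> ring

theorem cr_smul_right (c : ℂ) (x y : C3) : cr x (c • y) = c • cr x y := by
  rw [cr_eq, cr_eq]
  ext i
  fin_cases i <;> simp <;> ring

theorem cr_anti (x y : C3) : cr y x = - cr x y := by
  unfold cr
  abel

/-- coordinate vectors -/
noncomputable def Ev (i : Fin 3) (s : ℂ) : C3 := Pi.single i s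

theorem sum_Ev (z : C3) : z = Ev 0 (z 0) + Ev 1 (z 1) + Ev 2 (z 2) := by
  unfold Ev
  ext i
  fin_cases i <;> simp

theorem Ev_smul (c : ℂ) (i : Fin 3) (s : ℂ) : c • Ev i s = Ev i (c * s) := by
  unfold Ev
  rw [← Pi.single_smul, smul_eq_mul]

theorem Ev_zero (i : Fin 3) : Ev i 0 = 0 := by
  unfold Ev
  rw [Pi.single_zero]

section
variable (A : C3 →ₗ[ℝ] C3 →ₗ[ℝ] ℝ)

/-- the defect of complex bilinearity -/
noncomputable def del (z x : C3) : ℝ := A (Complex.I • z) x - A z (Complex.I • x)

theorem del_add_left (z z' x : C3) : del A (z + z') x = del A z x + del A z' x := by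
  simp only [del, smul_add, map_add, LinearMap.add_apply]
  ring

theorem del_add_right (z x x' : C3) : del A z (x + x') = del A z x + del A z x' := by
  simp only [del, smul_add, map_add]
  ring

theorem del_neg_left (z x : C3) : del A (-z) x = - del A z x := by
  simp only [del, smul_neg, map_neg, LinearMap.neg_apply]
  ring

theorem del_I (z x : C3) : del A z (Complex.I • x) = - del A (Complex.I • z) x := by
  simp only [del, smul_smul, Complex.I_mul_I, neg_smul, one_smul, map_neg, LinearMap.neg_apply]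
  ring

variable {A} (hT : ∀ a b c : C3, A (cr a b) c + A (cr b c) a + A (cr c a) b = 0)

include hT

theorem del_cyc (a b c : C3) : del A (cr a b) c = del A (cr b c) a := by
  have h1 := hT (Complex.I • a) b c
  have h2 := hT a b (Complex.I • c)
  rw [cr_smul_left, cr_smul_right] at h1
  rw [cr_smul_right, cr_smul_left] at h2
  unfold del
  linarith

theorem del_self (a b : C3) : del A (cr a b) a = 0 := by
  have h1 := del_cyc hT a b a
  rw [cr_anti a b, del_neg_left] at h1
  linarith

theorem del_off (i j k : Fin 3) (hj : ∀ s t : ℂ, cr (Ev j s) (Ev k t) = Ev i (s * t) ∨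
    cr (Ev j s) (Ev k t) = Ev i (-(s * t))) (s t : ℂ) : del A (Ev i s) (Ev j t) = 0 := by
  by_cases ht : t = 0
  · subst ht
    rw [Ev_zero]
    simp [del]
  · rcases hj t (s / t) with h | h
    · have h1 := del_self hT (Ev j t) (Ev k (s / t))
      rw [h] at h1
      have h2 : t * (s / t) = s := by field_simp
      rwa [h2] at h1
    · have h1 := del_self hT (Ev j t) (Ev k (s / t))
      rw [h] at h1
      have h2 : -(t * (s / t)) = -s := by field_simp
      rw [h2] at h1
      have h3 : Ev i (-s) = -Ev i s := by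
        unfold Ev
        rw [Pi.single_neg]
      rw [h3, del_neg_left] at h1
      linarith

theorem del01 (s t : ℂ) : del A (Ev 0 s) (Ev 1 t) = 0 :=
  del_off hT 0 1 2 (fun s t => Or.inl (by
    rw [cr_eq]; unfold Ev; ext i; fin_cases i <;> simp)) s t

theorem del02 (s t : ℂ) : del A (Ev 0 s) (Ev 2 t) = 0 :=
  del_off hT 0 2 1 (fun s t => Or.inr (by
    rw [cr_eq]; unfold Ev; ext i; fin_cases i <;> simp [mul_comm])) s t

theorem del10 (s t : ℂ) : del A (Ev 1 s) (Ev 0 t) = 0 :=
  del_off hT 1 0 2 (fun s t => Or.inr (by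
    rw [cr_eq]; unfold Ev; ext i; fin_cases i <;> simp [mul_comm])) s t

theorem del12 (s t : ℂ) : del A (Ev 1 s) (Ev 2 t) = 0 :=
  del_off hT 1 2 0 (fun s t => Or.inl (by
    rw [cr_eq]; unfold Ev; ext i; fin_cases i <;> simp)) s t

theorem del20 (s t : ℂ) : del A (Ev 2 s) (Ev 0 t) = 0 :=
  del_off hT 2 0 1 (fun s t => Or.inl (by
    rw [cr_eq]; unfold Ev; ext i; fin_cases i <;> simp)) s t

theorem del21 (s t : ℂ) : del A (Ev 2 s) (Ev 1 t) = 0 :=
  del_off hT 2 1 0 (fun s t => Or.inr (by
    rw [cr_eq]; unfold Ev; ext i; fin_cases i <;> simp [mul_comm])) s t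

theorem del0011 (p q r : ℂ) : del A (Ev 0 (q * r)) (Ev 0 p) = del A (Ev 1 (p * r)) (Ev 1 q) := by
  have h1 := del_self hT (Ev 0 p + Ev 1 q) (Ev 2 r)
  have h2 : cr (Ev 0 p + Ev 1 q) (Ev 2 r) = Ev 0 (q * r) + -Ev 1 (p * r) := by
    rw [cr_eq]; unfold Ev; ext i; fin_cases i <;> simp [mul_comm]
  rw [h2, del_add_left, del_neg_left, del_add_right, del_add_right, del01 hT, del10 hT] at h1
  linarith

theorem del1122 (p q r : ℂ) : del A (Ev 1 (q * r)) (Ev 1 p) = del A (Ev 2 (p * r)) (Ev 2 q) := by
  have h1 := del_self hT (Ev 1 p + Ev 2 q) (Ev 0 r)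
  have h2 : cr (Ev 1 p + Ev 2 q) (Ev 0 r) = Ev 1 (q * r) + -Ev 2 (p * r) := by
    rw [cr_eq]; unfold Ev; ext i; fin_cases i <;> simp [mul_comm]
  rw [h2, del_add_left, del_neg_left, del_add_right, del_add_right, del12 hT, del21 hT] at h1
  linarith

theorem del00 (a b : ℂ) : del A (Ev 0 a) (Ev 0 b) = 0 := by
  have key : ∀ a b : ℂ, del A (Ev 0 (a * Complex.I)) (Ev 0 b) = 0 := by
    intro a b
    have h1 := del0011 hT b a Complex.I
    have h2 := del0011 hT (b * Complex.I) a 1
    rw [mul_one, mul_one] at h2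
    have h3 := del_I A (Ev 0 a) (Ev 0 b)
    rw [Ev_smul, Ev_smul, mul_comm Complex.I b, mul_comm Complex.I a] at h3
    linarith
  have h4 := key (-(a * Complex.I)) b
  have h5 : -(a * Complex.I) * Complex.I = a := by
    rw [neg_mul, mul_assoc, Complex.I_mul_I]
    ring
  rwa [h5] at h4

theorem del11 (a b : ℂ) : del A (Ev 1 a) (Ev 1 b) = 0 := by
  have h1 := del0011 hT 1 b a
  rw [del00 hT, one_mul] at h1
  exact h1.symm

theorem del22 (a b : ℂ) : del A (Ev 2 a) (Ev 2 b) = 0 := by
  have h1 := del1122 hT 1 b a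
  rw [del11 hT, one_mul] at h1
  exact h1.symm

theorem del_zero (z x : C3) : del A z x = 0 := by
  rw [sum_Ev z, sum_Ev x]
  simp only [del_add_left, del_add_right, del00 hT, del01 hT, del02 hT, del10 hT, del11 hT,
    del12 hT, del20 hT, del21 hT, del22 hT, add_zero]

theorem A_I (z x : C3) : A z (Complex.I • x) = A (Complex.I • z) x := by
  have h := del_zero hT z x
  unfold del at h
  linarith

end

/-- the real part of the complex scalar product -/
noncomputable def dot : C3 →ₗ[ℝ] C3 →ₗ[ℝ] ℝ :=
  LinearMap.mk₂ ℝ (fun z x => (z 0 * x 0 + z 1 * x 1 + z 2 * x 2).re)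
    (by intro z z' x; simp only [Pi.add_apply, Complex.add_re, add_mul]; ring)
    (by
      intro c z x
      simp only [Pi.smul_apply, Complex.real_smul, Complex.add_re, Complex.mul_re,
        Complex.ofReal_re, Complex.ofReal_im, Complex.mul_im, smul_eq_mul]
      ring)
    (by intro z x x'; simp only [Pi.add_apply, Complex.add_re, mul_add]; ring)
    (by
      intro c z x
      simp only [Pi.smul_apply, Complex.real_smul, Complex.add_re, Complex.mul_re,
        Complex.ofReal_re, Complex.ofReal_im, Complex.mul_im, smul_eq_mul]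
      ring)

theorem dot_apply (z x : C3) : dot z x = (z 0 * x 0 + z 1 * x 1 + z 2 * x 2).re := rfl

theorem exists_complex {A : C3 →ₗ[ℝ] C3 →ₗ[ℝ] ℝ}
    (hT : ∀ a b c : C3, A (cr a b) c + A (cr b c) a + A (cr c a) b = 0) :
    ∃ h : C3 →ₗ[ℂ] C3, ∀ z x, A z x = dot z (h x) := by
  have hI := A_I hT
  let g : C3 → C3 := fun x i => (A (Ev i 1) x : ℂ) - Complex.I * (A (Ev i Complex.I) x : ℂ)
  have hadd : ∀ x y, g (x + y) = g x + g y := by
    intro x y
    ext i
    simp only [g, map_add, Pi.add_apply, Complex.ofReal_add]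
    ring
  have hreal : ∀ (c : ℝ) x, g (c • x) = (c : ℂ) • g x := by
    intro c x
    ext i
    simp only [g, map_smul, Pi.smul_apply, smul_eq_mul, Complex.ofReal_mul]
    ring
  have hgI : ∀ x, g (Complex.I • x) = Complex.I • g x := by
    intro x
    ext i
    simp only [g, Pi.smul_apply, smul_eq_mul]
    have h1 : A (Ev i 1) (Complex.I • x) = A (Ev i Complex.I) x := by
      rw [hI, Ev_smul, mul_one]
    have h2 : A (Ev i Complex.I) (Complex.I • x) = - A (Ev i 1) x := by
      rw [hI, Ev_smul, Complex.I_mul_I]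
      have : Ev i (-1) = - Ev i 1 := by
        unfold Ev
        rw [Pi.single_neg]
      rw [this, map_neg]
      rfl
    rw [h1, h2]
    push_cast
    have h3 := Complex.I_mul_I
    linear_combination (A (Ev i Complex.I) x : ℂ) * h3
  refine ⟨{ toFun := g, map_add' := hadd, map_smul' := ?_ }, ?_⟩
  · intro c x
    have h1 : c • x = c.re • x + c.im • (Complex.I • x) := by
      ext i
      simp only [Pi.smul_apply, Pi.add_apply, smul_eq_mul, Complex.real_smul]
      have h2 := Complex.re_add_im c
      linear_combination (-(x i)) * h2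
    rw [h1, hadd, hreal, hreal, hgI]
    ext i
    simp only [Pi.smul_apply, Pi.add_apply, smul_eq_mul, RingHom.id_apply]
    have h2 := Complex.re_add_im c
    linear_combination (g x i) * h2
  · intro z x
    show A z x = dot z (g x)
    have h1 : ∀ i (s : ℂ), A (Ev i s) x = (s * g x i).re := by
      intro i s
      have h2 : Ev i s = s.re • Ev i 1 + s.im • Ev i Complex.I := by
        unfold Ev
        rw [← Pi.single_smul, ← Pi.single_smul, ← Pi.single_add]
        congr 1
        simp only [Complex.real_smul, mul_one]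
        exact (Complex.re_add_im s).symm
      rw [h2, map_add, map_smul, map_smul]
      simp only [LinearMap.add_apply, LinearMap.smul_apply, smul_eq_mul, g, Complex.mul_re,
        Complex.sub_re, Complex.sub_im, Complex.ofReal_re, Complex.ofReal_im, Complex.I_re,
        Complex.I_im, Complex.mul_im]
      ring
    rw [dot_apply, sum_Ev z]
    simp only [map_add, LinearMap.add_apply, h1]
    simp only [Complex.add_re]
    unfold Ev
    simp

end Pool.Agent.Y519.AS
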