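import Mathlib
import Pool.Agent.Helper831.Quot
import Pool.Agent.Y519.AS.CLin

/-!
# The nilmanifold of the complex free two-step nilpotent group on three generators
-/

set_option maxSynthPendingDepth 3

open scoped Manifold ContDiff Topology
open Set Filter
open Pool.Agent.Helper831

namespace Pool.Agent.Y519.AS

/-- The lattice: pairs of vectors of Gaussian integers, with the multiplication
`(a, b) (a', b') = (a + a', b + b' + (a₂ a'₃, a₃ a'₁, a₁ a'₂))`. -/
@[ext] structure Gam where
  a : Fin 3 → GaussianInt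
  b : Fin 3 → GaussianInt

namespace Gam

/-- the cocycle on the lattice -/
def bz (x y : Fin 3 → GaussianInt) : Fin 3 → GaussianInt := ![x 1 * y 2, x 2 * y 0, x 0 * y 1]

instance : Mul Gam := ⟨fun g h => ⟨g.a + h.a, g.b + h.b + bz g.a h.a⟩⟩
instance : One Gam := ⟨⟨0, 0⟩⟩
instance : Inv Gam := ⟨fun g => ⟨-g.a, -g.b + bz g.a g.a⟩⟩

@[simp] theorem mul_a (g h : Gam) : (g * h).a = g.a + h.a := rfl
@[simp] theorem mul_b (g h : Gam) : (g * h).b = g.b + h.b + bz g.a h.a := rfl
@[simp] theorem one_a : (1 : Gam).a = 0 := rfl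
@[simp] theorem one_b : (1 : Gam).b = 0 := rfl
@[simp] theorem inv_a (g : Gam) : (g⁻¹).a = -g.a := rfl
@[simp] theorem inv_b (g : Gam) : (g⁻¹).b = -g.b + bz g.a g.a := rfl

instance : Group Gam :=
  Group.ofLeftAxioms
    (by
      intro g h k
      refine Gam.ext ?_ ?_
      · simp only [mul_a, add_assoc]
      · simp only [mul_b, mul_a]
        funext i
        fin_cases i <;> simp [bz] <;> ring)
    (by
      intro g
      refine Gam.ext ?_ ?_
      · simp
      · simp only [mul_b, one_b, one_a]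
        funext i
        fin_cases i <;> simp [bz])
    (by
      intro g
      refine Gam.ext ?_ ?_
      · simp
      · simp only [mul_b, inv_b, inv_a, one_b]
        funext i
        fin_cases i <;> simp [bz])

/-- Gaussian integer vectors as complex vectors -/
noncomputable def toC (x : Fin 3 → GaussianInt) : C3 := fun i => GaussianInt.toComplex (x i)

theorem toC_add (x y : Fin 3 → GaussianInt) : toC (x + y) = toC x + toC y := by
  funext i
  simp [toC]

theorem toC_bz (x y : Fin 3 → GaussianInt) : toC (bz x y) = bet (toC x) (toC y) := by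
  funext i
  fin_cases i <;> simp [toC, bz, bet]

theorem toC_zero : toC 0 = 0 := by
  funext i
  simp [toC]

theorem toC_injective : Function.Injective toC := by
  intro x y h
  funext i
  have h1 := congrFun h i
  exact GaussianInt.toComplex_inj.1 h1

theorem bet_add_left (x x' y : C3) : bet (x + x') y = bet x y + bet x' y := by
  funext i
  fin_cases i <;> simp [bet] <;> ring

theorem bet_add_right (x y y' : C3) : bet x (y + y') = bet x y + bet x y' := by
  funext i
  fin_cases i <;> simp [bet] <;> ring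

theorem bet_zero_left (y : C3) : bet 0 y = 0 := by
  funext i
  fin_cases i <;> simp [bet]

/-- The lattice acts on `ℂ³ × ℂ³` by left translations. -/
noncomputable instance : MulAction Gam (C3 × C3) where
  smul g p := (p.1 + toC g.a, p.2 + toC g.b + bet (toC g.a) p.1)
  one_smul p := by
    show ((p.1 + toC (1 : Gam).a, p.2 + toC (1 : Gam).b + bet (toC (1 : Gam).a) p.1) : C3 × C3) = p
    simp [toC_zero, bet_zero_left]
  mul_smul g h p := by
    refine Prod.ext ?_ ?_
    · show p.1 + toC (g * h).a = (p.1 + toC h.a) + toC g.a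
      rw [mul_a, toC_add]
      abel
    · show p.2 + toC (g * h).b + bet (toC (g * h).a) p.1
        = (p.2 + toC h.b + bet (toC h.a) p.1) + toC g.b + bet (toC g.a) (p.1 + toC h.a)
      rw [mul_a, mul_b, toC_add, toC_add, toC_add, toC_bz, bet_add_left, bet_add_right]
      abel

theorem smul_def (g : Gam) (p : C3 × C3) :
    g • p = (p.1 + toC g.a, p.2 + toC g.b + bet (toC g.a) p.1) := rfl

theorem contDiff_bet (x : C3) : ContDiff ℝ ∞ (fun p : C3 × C3 => bet x p.1) := by
  rw [contDiff_pi]
  intro i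
  have h : ∀ j : Fin 3, ContDiff ℝ ∞ (fun p : C3 × C3 => p.1 j) := by
    intro j
    fun_prop
  fin_cases i
  · exact contDiff_const.mul (h 2)
  · exact contDiff_const.mul (h 0)
  · exact contDiff_const.mul (h 1)

instance : SmoothConst Gam (C3 × C3) where
  smooth g := by
    simp only [smul_def]
    exact (contDiff_fst.add contDiff_const).prodMk
      ((contDiff_snd.add contDiff_const).add (contDiff_bet _))

instance : ContinuousConstSMul Gam (C3 × C3) where
  continuous_const_smul g := (SmoothConst.smooth (E := C3 × C3) g).continuous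

instance : IsCancelSMul Gam (C3 × C3) where
  right_cancel' g h p hp := by
    rw [smul_def, smul_def, Prod.mk.injEq] at hp
    obtain ⟨h1, h2⟩ := hp
    have ha : g.a = h.a := toC_injective (add_left_cancel h1)
    rw [ha] at h2
    have hb : g.b = h.b := toC_injective (add_left_cancel (add_right_cancel h2))
    exact Gam.ext ha hb

theorem finite_box (R : ℝ) : {x : GaussianInt | ‖(GaussianInt.toComplex x : ℂ)‖ ≤ R}.Finite := by
  have h : ((Set.Icc (-⌈R⌉) ⌈R⌉ ×ˢ Set.Icc (-⌈R⌉) ⌈R⌉) : Set (ℤ × ℤ)).Finite :=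
    (Set.finite_Icc _ _).prod (Set.finite_Icc _ _)
  refine (h.image (fun q => (⟨q.1, q.2⟩ : GaussianInt))).subset ?_
  intro x hx
  have hx' : ‖(GaussianInt.toComplex x : ℂ)‖ ≤ R := hx
  have h1 : |(x.re : ℝ)| ≤ R := by
    have := Complex.abs_re_le_norm (GaussianInt.toComplex x)
    rw [← GaussianInt.intCast_re] at this
    exact this.trans hx'
  have h2 : |(x.im : ℝ)| ≤ R := by
    have := Complex.abs_im_le_norm (GaussianInt.toComplex x)
    rw [← GaussianInt.intCast_im] at this
    exact this.trans hx'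
  have hR := Int.le_ceil R
  refine ⟨(x.re, x.im), ⟨abs_le.1 ?_, abs_le.1 ?_⟩, rfl⟩
  · have : ((|x.re| : ℤ) : ℝ) ≤ ⌈R⌉ := by rw [Int.cast_abs]; exact h1.trans hR
    exact_mod_cast this
  · have : ((|x.im| : ℤ) : ℝ) ≤ ⌈R⌉ := by rw [Int.cast_abs]; exact h2.trans hR
    exact_mod_cast this

theorem finite_box3 (R : ℝ) : {x : Fin 3 → GaussianInt | ‖toC x‖ ≤ R}.Finite := by
  have h : (Set.pi Set.univ fun _ : Fin 3 => {x : GaussianInt | ‖(GaussianInt.toComplex x : ℂ)‖ ≤ R}).Finite :=
    Set.Finite.pi fun _ => finite_box R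
  refine h.subset ?_
  intro x hx i _
  have hx' : ‖toC x‖ ≤ R := hx
  exact (norm_le_pi_norm (toC x) i).trans hx'

theorem norm_bet_le (x y : C3) : ‖bet x y‖ ≤ ‖x‖ * ‖y‖ := by
  rw [pi_norm_le_iff_of_nonneg (by positivity)]
  intro i
  have hx := fun j => norm_le_pi_norm x j
  have hy := fun j => norm_le_pi_norm y j
  fin_cases i <;>
    · simp only [bet]
      simp
      exact mul_le_mul (hx _) (hy _) (norm_nonneg _) (norm_nonneg _)

instance : ProperlyDiscontinuousSMul Gam (C3 × C3) where
  finite_disjoint_inter_image := by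
    intro K L hK hL
    obtain ⟨R, hR⟩ := hK.isBounded.exists_norm_le
    obtain ⟨S, hS⟩ := hL.isBounded.exists_norm_le
    have hfin : {g : Gam | ‖toC g.a‖ ≤ S + R ∧ ‖toC g.b‖ ≤ S + R + (S + R) * R}.Finite := by
      have h := (finite_box3 (S + R)).prod (finite_box3 (S + R + (S + R) * R))
      refine (h.image (fun q => (⟨q.1, q.2⟩ : Gam))).subset ?_
      rintro g ⟨h1, h2⟩
      exact ⟨(g.a, g.b), ⟨h1, h2⟩, rfl⟩
    refine hfin.subset ?_
    rintro g ⟨q, ⟨p, hp, rfl⟩, hq⟩
    have h1 := hR p hp
    have h2 := hS _ hq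
    simp only [smul_def] at h2
    have h11 : ‖p.1‖ ≤ R := (norm_fst_le p).trans h1
    have h12 : ‖p.2‖ ≤ R := (norm_snd_le p).trans h1
    have h21 : ‖p.1 + toC g.a‖ ≤ S := (norm_fst_le _).trans h2
    have h22 : ‖p.2 + toC g.b + bet (toC g.a) p.1‖ ≤ S := (norm_snd_le _).trans h2
    have ha : ‖toC g.a‖ ≤ S + R := by
      have h3 : toC g.a = (p.1 + toC g.a) - p.1 := by abel
      rw [h3]
      exact (norm_sub_le _ _).trans (add_le_add h21 h11)
    have hR0 : 0 ≤ R := (norm_nonneg _).trans h11
    refine ⟨ha, ?_⟩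
    have h4 : toC g.b = (p.2 + toC g.b + bet (toC g.a) p.1) - p.2 - bet (toC g.a) p.1 := by abel
    rw [h4]
    have h5 : ‖bet (toC g.a) p.1‖ ≤ (S + R) * R :=
      (norm_bet_le _ _).trans (mul_le_mul ha h11 (norm_nonneg _) ((norm_nonneg _).trans ha))
    refine (norm_sub_le _ _).trans (add_le_add ((norm_sub_le _ _).trans (add_le_add h22 h12)) h5)

/-- every complex number differs from a number of norm at most `2` by a Gaussian integer -/
theorem exists_floor (z : ℂ) : ∃ n : GaussianInt, ‖z + GaussianInt.toComplex n‖ ≤ 2 := by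
  refine ⟨⟨-⌊z.re⌋, -⌊z.im⌋⟩, ?_⟩
  refine (Complex.norm_le_abs_re_add_abs_im _).trans ?_
  rw [Complex.add_re, Complex.add_im, GaussianInt.re_toComplex, GaussianInt.im_toComplex]
  push_cast
  have h1 := Int.floor_le z.re
  have h2 := Int.lt_floor_add_one z.re
  have h3 := Int.floor_le z.im
  have h4 := Int.lt_floor_add_one z.im
  have h5 : |z.re + -(⌊z.re⌋ : ℝ)| ≤ 1 := by
    rw [abs_le]; constructor <;> linarith
  have h6 : |z.im + -(⌊z.im⌋ : ℝ)| ≤ 1 := by
    rw [abs_le]; constructor <;> linarith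
  linarith

theorem exists_floor3 (z : C3) : ∃ n : Fin 3 → GaussianInt, ‖z + toC n‖ ≤ 2 := by
  choose n hn using fun i => exists_floor (z i)
  refine ⟨n, ?_⟩
  rw [pi_norm_le_iff_of_nonneg (by norm_num)]
  intro i
  exact hn i

theorem exists_ball (p : C3 × C3) : ∃ g : Gam, g • p ∈ Metric.closedBall (0 : C3 × C3) 2 := by
  obtain ⟨n, hn⟩ := exists_floor3 p.1
  obtain ⟨m, hm⟩ := exists_floor3 (p.2 + bet (toC n) p.1)
  refine ⟨⟨n, m⟩, ?_⟩
  rw [mem_closedBall_zero_iff, smul_def, Prod.norm_def]
  refine max_le hn ?_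
  have h : p.2 + toC m + bet (toC n) p.1 = p.2 + bet (toC n) p.1 + toC m := by abel
  show ‖p.2 + toC m + bet (toC n) p.1‖ ≤ 2
  rw [h]
  exact hm

end Gam

/-- The nilmanifold. -/
abbrev Nil12 : Type := MulAction.orbitRel.Quotient Gam (C3 × C3)

theorem continuous_projG : Continuous (proj Gam : C3 × C3 → Nil12) := continuous_quot_mk

instance : CompactSpace Nil12 := by
  have hK : IsCompact (Metric.closedBall (0 : C3 × C3) 2) := isCompact_closedBall _ _
  have h := hK.image continuous_projG
  have h2 : (proj Gam : C3 × C3 → Nil12) '' Metric.closedBall (0 : C3 × C3) 2 = univ := by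
    rw [eq_univ_iff_forall]
    intro x
    obtain ⟨p, rfl⟩ := proj_surjective x
    obtain ⟨g, hg⟩ := Gam.exists_ball p
    exact ⟨g • p, hg, proj_smul g p⟩
  rw [h2] at h
  exact isCompact_univ_iff.1 h

instance : ConnectedSpace Nil12 := by
  have h : Function.Surjective (proj Gam : C3 × C3 → Nil12) := proj_surjective
  exact h.connectedSpace continuous_projG

example : T2Space Nil12 := inferInstance

example : IsManifold 𝓘(ℝ, C3 × C3) ∞ Nil12 := inferInstance

end Pool.Agent.Y519.AS
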