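import Mathlib

/-!
# Averages of periodic functions
-/

open MeasureTheory Set Module Function
open scoped Pointwise

set_option linter.unusedSectionVars false

namespace Pool.Agent.Y519.AS

section
variable {X : Type*} [NormedAddCommGroup X] [NormedSpace ℝ X] [MeasurableSpace X] [BorelSpace X]
  [FiniteDimensional ℝ X] {κ : Type*} [Fintype κ] (b : Basis κ ℝ X)

/-- the average over the unit parallelepiped of a basis -/
noncomputable def avg (f : X → ℝ) : ℝ := ∫ x in parallelepiped b, f x ∂ b.addHaar

/-- periodic functions -/
def Per (f : X → ℝ) : Prop := ∀ j x, f (x + b j) = f x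

theorem isCompact_pp : IsCompact (parallelepiped b) := by
  exact (b.parallelepiped).isCompact

theorem measure_pp : b.addHaar (parallelepiped b) = 1 := b.addHaar_self

theorem avg_const (c : ℝ) : avg b (fun _ => c) = c := by
  unfold avg
  rw [setIntegral_const, measureReal_def, measure_pp]
  simp

theorem integrableOn_pp {f : X → ℝ} (hf : Continuous f) :
    IntegrableOn f (parallelepiped b) b.addHaar :=
  hf.continuousOn.integrableOn_compact (isCompact_pp b)

theorem avg_add {f g : X → ℝ} (hf : Continuous f) (hg : Continuous g) :
    avg b (fun x => f x + g x) = avg b f + avg b g :=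
  integral_add (integrableOn_pp b hf) (integrableOn_pp b hg)

theorem avg_sub {f g : X → ℝ} (hf : Continuous f) (hg : Continuous g) :
    avg b (fun x => f x - g x) = avg b f - avg b g :=
  integral_sub (integrableOn_pp b hf) (integrableOn_pp b hg)

theorem avg_mul (c : ℝ) (f : X → ℝ) : avg b (fun x => c * f x) = c * avg b f :=
  integral_const_mul c f

theorem avg_sum {ι : Type*} (s : Finset ι) {f : ι → X → ℝ} (hf : ∀ i ∈ s, Continuous (f i)) :
    avg b (fun x => ∑ i ∈ s, f i x) = ∑ i ∈ s, avg b (f i) :=
  integral_finsetSum s fun i hi => integrableOn_pp b (hf i hi)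

theorem avg_pos {f : X → ℝ} (hf : Continuous f) (hpos : ∀ x, 0 < f x) : 0 < avg b f := by
  unfold avg
  rw [setIntegral_pos_iff_support_of_nonneg_ae]
  · have h1 : support f = univ := by
      ext x
      simp [(hpos x).ne']
    rw [h1, univ_inter, measure_pp]
    exact zero_lt_one
  · exact Filter.Eventually.of_forall fun x => (hpos x).le
  · exact integrableOn_pp b hf

theorem avg_translate {f : X → ℝ} (hf : Per b f) (c : X) :
    avg b (fun x => f (x + c)) = avg b f := by
  have hD : (ZSpan.fundamentalDomain b : Set X) =ᵐ[b.addHaar] parallelepiped b :=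
    ZSpan.fundamentalDomain_ae_parallelepiped b b.addHaar
  have hfd := ZSpan.isAddFundamentalDomain' b b.addHaar
  have hinv : ∀ (g : (Submodule.span ℤ (range b)).toAddSubgroup) (x : X), f (g +ᵥ x) = f x := by
    rintro ⟨g, hg⟩ x
    have h1 : ∀ g ∈ Submodule.span ℤ (range b), ∀ x, f (x + g) = f x := by
      intro g hg
      induction hg using Submodule.span_induction with
      | mem g hg =>
        obtain ⟨j, rfl⟩ := hg
        exact hf j
      | zero => intro x; simp
      | add g h _ _ ih1 ih2 => intro x; rw [← add_assoc, ih2, ih1]
      | smul n g _ ih =>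
        induction n using Int.induction_on with
        | zero => intro x; simp
        | succ n ihn => intro x; rw [add_smul, one_smul, ← add_assoc, ih, ihn]
        | pred n ihn =>
          intro x
          rw [sub_smul, one_smul, ← ih (x + (-(n : ℤ) • g - g))]
          rw [show x + (-(n : ℤ) • g - g) + g = x + -(n : ℤ) • g by abel]
          exact ihn x
    have h2 := h1 g hg x
    rw [add_comm] at h2
    exact h2
  have hcount : Countable (Submodule.span ℤ (range b)).toAddSubgroup := by
    have h : Countable (Submodule.span ℤ (range b)) := inferInstance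
    exact h
  have hfd2 := hfd.vadd_of_comm c
  have h3 := hfd.setIntegral_eq hfd2 (f := f) hinv
  unfold avg
  rw [← setIntegral_congr_set hD, ← setIntegral_congr_set hD, h3]
  have h4 : (c +ᵥ (ZSpan.fundamentalDomain b : Set X))
      = (fun x => x + c) '' (ZSpan.fundamentalDomain b) := by
    ext x
    rw [mem_vadd_set]
    simp only [vadd_eq_add, mem_image, add_comm c]
  rw [h4]
  exact ((measurePreserving_add_right b.addHaar c).setIntegral_image_emb
    (MeasurableEquiv.addRight c).measurableEmbedding f _).symm

theorem continuous_avg {Y : Type*} [TopologicalSpace Y] [FirstCountableTopology Y]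
    [LocallyCompactSpace Y] {f : Y → X → ℝ} (hf : Continuous f.uncurry) :
    Continuous (fun y => avg b (f y)) :=
  continuous_parametric_integral_of_continuous hf (isCompact_pp b)

theorem avg_intervalIntegral {f : X → ℝ → ℝ} (hf : Continuous f.uncurry) (s t : ℝ) (hst : s ≤ t) :
    avg b (fun x => ∫ r in s..t, f x r) = ∫ r in s..t, avg b (fun x => f x r) := by
  unfold avg
  simp only [intervalIntegral.integral_of_le hst]
  refine integral_integral_swap ?_
  have h1 : IntegrableOn f.uncurry (parallelepiped b ×ˢ Icc s t) (b.addHaar.prod volume) :=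
    hf.continuousOn.integrableOn_compact ((isCompact_pp b).prod isCompact_Icc)
  have h2 : IntegrableOn f.uncurry (parallelepiped b ×ˢ Ioc s t) (b.addHaar.prod volume) :=
    h1.mono_set (prod_mono_right Ioc_subset_Icc_self)
  unfold IntegrableOn at h2
  rwa [← Measure.prod_restrict] at h2

theorem avg_comm {Y : Type*} [NormedAddCommGroup Y] [NormedSpace ℝ Y] [MeasurableSpace Y]
    [BorelSpace Y] [FiniteDimensional ℝ Y] {l : Type*} [Fintype l] (c : Basis l ℝ Y)
    {f : X → Y → ℝ} (hf : Continuous f.uncurry) :
    avg b (fun x => avg c (f x)) = avg c (fun y => avg b (fun x => f x y)) := by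
  unfold avg
  refine integral_integral_swap ?_
  have h1 : IntegrableOn f.uncurry (parallelepiped b ×ˢ parallelepiped c)
      (b.addHaar.prod c.addHaar) :=
    hf.continuousOn.integrableOn_compact ((isCompact_pp b).prod (isCompact_pp c))
  unfold IntegrableOn at h1
  rwa [← Measure.prod_restrict] at h1

/-- the average of a derivative of a periodic function vanishes -/
theorem avg_deriv' {f f' : X → ℝ} (v : X) (hf' : Continuous f') (hper : Per b f)
    (hper' : Per b f') (hcont : Continuous f)
    (h1 : ∀ x, f (x + v) - f x = ∫ s in (0 : ℝ)..1, f' (x + s • v)) :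
    avg b f' = 0 := by
  have h2 : avg b (fun x => ∫ s in (0 : ℝ)..1, f' (x + s • v)) = 0 := by
    simp only [← h1]
    have h3 : Continuous (fun x => f (x + v)) := hcont.comp (by fun_prop)
    rw [avg_sub b h3 hcont, avg_translate b hper, sub_self]
  have h4 : Continuous (uncurry fun (x : X) (s : ℝ) => f' (x + s • v)) := by
    have : Continuous (fun p : X × ℝ => f' (p.1 + p.2 • v)) := hf'.comp (by fun_prop)
    exact this
  rw [avg_intervalIntegral b h4 0 1 zero_le_one] at h2
  simp only [avg_translate b hper'] at h2
  simpa using h2

end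

/-- the fundamental theorem of calculus along a segment -/
theorem ftc_segment {E : Type*} [NormedAddCommGroup E] [NormedSpace ℝ E] {f : E → ℝ}
    (hf : ContDiff ℝ 1 f) (p v : E) :
    f (p + v) - f p = ∫ s in (0 : ℝ)..1, fderiv ℝ f (p + s • v) v := by
  have hd : ∀ s : ℝ, HasDerivAt (fun r : ℝ => f (p + r • v)) (fderiv ℝ f (p + s • v) v) s := by
    intro s
    have h1 : HasFDerivAt f (fderiv ℝ f (p + s • v)) (p + s • v) :=
      (hf.differentiable (by simp)).differentiableAt.hasFDerivAt
    have h2 : HasDerivAt (fun r : ℝ => p + r • v) v s := by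
      have := ((hasDerivAt_id s).smul_const v).const_add p
      simpa using this
    exact h1.comp_hasDerivAt s h2
  have hc : Continuous (fun s : ℝ => fderiv ℝ f (p + s • v) v) := by
    have h3 : Continuous (fderiv ℝ f) := hf.continuous_fderiv (by simp)
    exact (h3.comp (by fun_prop)).clm_apply continuous_const
  rw [intervalIntegral.integral_eq_sub_of_hasDerivAt (f := fun r : ℝ => f (p + r • v))
    (fun s _ => hd s) (hc.intervalIntegrable _ _)]
  simp

end Pool.Agent.Y519.AS
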