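import Mathlib
import Pool.Agent.Y519.AS.Avg

/-!
# The mean of an invariant function on a two-step nilpotent group
-/

open MeasureTheory Set Module Function

set_option linter.unusedSectionVars false

namespace Pool.Agent.Y519.AS

section
variable {X Z : Type*} [NormedAddCommGroup X] [NormedSpace ℝ X] [MeasurableSpace X] [BorelSpace X]
  [FiniteDimensional ℝ X] [NormedAddCommGroup Z] [NormedSpace ℝ Z] [MeasurableSpace Z]
  [BorelSpace Z] [FiniteDimensional ℝ Z]
  {κ l : Type*} [Fintype κ] [Fintype l] (bX : Basis κ ℝ X) (bZ : Basis l ℝ Z)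
  (β : X →L[ℝ] X →L[ℝ] Z)

/-- the mean -/
noncomputable def mean (f : X × Z → ℝ) : ℝ := avg bX (fun x => avg bZ (fun z => f (x, z)))

/-- invariant functions -/
structure InvF (f : X × Z → ℝ) : Prop where
  perz : ∀ j p, f (p.1, p.2 + bZ j) = f p
  perx : ∀ j p, f (p.1 + bX j, p.2 + β (bX j) p.1) = f p

variable {bX bZ β}

theorem cont_inner {f : X × Z → ℝ} (hf : Continuous f) :
    Continuous (fun x => avg bZ (fun z => f (x, z))) :=
  continuous_avg bZ (f := fun x z => f (x, z)) hf

theorem cont_slice {f : X × Z → ℝ} (hf : Continuous f) (x : X) :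
    Continuous (fun z => f (x, z)) := hf.comp (by fun_prop)

theorem mean_const (c : ℝ) : mean bX bZ (fun _ => c) = c := by
  unfold mean
  simp only [avg_const]

theorem mean_add {f g : X × Z → ℝ} (hf : Continuous f) (hg : Continuous g) :
    mean bX bZ (fun p => f p + g p) = mean bX bZ f + mean bX bZ g := by
  unfold mean
  rw [← avg_add bX (cont_inner hf) (cont_inner hg)]
  congr 1
  funext x
  exact avg_add bZ (cont_slice hf x) (cont_slice hg x)

theorem mean_sub {f g : X × Z → ℝ} (hf : Continuous f) (hg : Continuous g) :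
    mean bX bZ (fun p => f p - g p) = mean bX bZ f - mean bX bZ g := by
  unfold mean
  rw [← avg_sub bX (cont_inner hf) (cont_inner hg)]
  congr 1
  funext x
  exact avg_sub bZ (cont_slice hf x) (cont_slice hg x)

theorem mean_mul (c : ℝ) (f : X × Z → ℝ) :
    mean bX bZ (fun p => c * f p) = c * mean bX bZ f := by
  unfold mean
  simp only [avg_mul]

theorem mean_sum {ι : Type*} (s : Finset ι) {f : ι → X × Z → ℝ} (hf : ∀ i ∈ s, Continuous (f i)) :
    mean bX bZ (fun p => ∑ i ∈ s, f i p) = ∑ i ∈ s, mean bX bZ (f i) := by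
  unfold mean
  rw [← avg_sum bX s fun i hi => cont_inner (hf i hi)]
  congr 1
  funext x
  exact avg_sum bZ s fun i hi => cont_slice (hf i hi) x

theorem mean_pos {f : X × Z → ℝ} (hf : Continuous f) (hpos : ∀ p, 0 < f p) :
    0 < mean bX bZ f :=
  avg_pos bX (cont_inner hf) fun x => avg_pos bZ (cont_slice hf x) fun z => hpos _

theorem mean_interval {f : X × Z → ℝ → ℝ} (hf : Continuous f.uncurry) (s t : ℝ) (hst : s ≤ t) :
    mean bX bZ (fun p => ∫ r in s..t, f p r) = ∫ r in s..t, mean bX bZ (fun p => f p r) := by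
  unfold mean
  have h1 : ∀ x, avg bZ (fun z => ∫ r in s..t, f (x, z) r)
      = ∫ r in s..t, avg bZ (fun z => f (x, z) r) := by
    intro x
    have h2 : Continuous (uncurry fun (z : Z) (r : ℝ) => f (x, z) r) := by
      have : Continuous (fun q : Z × ℝ => f.uncurry ((x, q.1), q.2)) := hf.comp (by fun_prop)
      exact this
    exact avg_intervalIntegral bZ h2 s t hst
  simp only [h1]
  have h3 : Continuous (uncurry fun (x : X) (r : ℝ) => avg bZ (fun z => f (x, z) r)) := by
    have h4 : Continuous (uncurry fun (q : X × ℝ) (z : Z) => f (q.1, z) q.2) := by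
      have : Continuous (fun q : (X × ℝ) × Z => f.uncurry ((q.1.1, q.2), q.1.2)) :=
        hf.comp (by fun_prop)
      exact this
    exact continuous_avg bZ h4
  exact avg_intervalIntegral bX h3 s t hst

theorem mean_avg {Y : Type*} [NormedAddCommGroup Y] [NormedSpace ℝ Y] [MeasurableSpace Y]
    [BorelSpace Y] [FiniteDimensional ℝ Y] {m : Type*} [Fintype m] (c : Basis m ℝ Y)
    {f : X × Z → Y → ℝ} (hf : Continuous f.uncurry) :
    mean bX bZ (fun p => avg c (f p)) = avg c (fun y => mean bX bZ (fun p => f p y)) := by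
  unfold mean
  have h1 : ∀ x, avg bZ (fun z => avg c (f (x, z))) = avg c (fun y => avg bZ (fun z => f (x, z) y))
      := by
    intro x
    have h2 : Continuous (uncurry fun (z : Z) (y : Y) => f (x, z) y) := by
      have : Continuous (fun q : Z × Y => f.uncurry ((x, q.1), q.2)) := hf.comp (by fun_prop)
      exact this
    exact avg_comm bZ c h2
  simp only [h1]
  have h3 : Continuous (uncurry fun (x : X) (y : Y) => avg bZ (fun z => f (x, z) y)) := by
    have h4 : Continuous (uncurry fun (q : X × Y) (z : Z) => f (q.1, z) q.2) := by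
      have : Continuous (fun q : (X × Y) × Z => f.uncurry ((q.1.1, q.2), q.1.2)) :=
        hf.comp (by fun_prop)
      exact this
    exact continuous_avg bZ h4
  exact avg_comm bX c h3

theorem InvF.perZ {f : X × Z → ℝ} (hf : InvF bX bZ β f) (x : X) :
    Per bZ (fun z => f (x, z)) := fun j z => hf.perz j (x, z)

theorem InvF.inner_per {f : X × Z → ℝ} (hf : InvF bX bZ β f) :
    Per bX (fun x => avg bZ (fun z => f (x, z))) := by
  intro j x
  have h1 : ∀ z, f (x + bX j, z + β (bX j) x) = f (x, z) := fun z => hf.perx j (x, z)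
  simp only [← h1]
  exact (avg_translate bZ (hf.perZ (x + bX j)) (β (bX j) x)).symm

/-- the mean is invariant under right translations -/
theorem mean_translate {f : X × Z → ℝ} (hf : InvF bX bZ β f) (y : X) (w : X → Z) :
    mean bX bZ (fun p => f (p.1 + y, p.2 + w p.1)) = mean bX bZ f := by
  unfold mean
  have h1 : ∀ x, avg bZ (fun z => f (x + y, z + w x)) = avg bZ (fun z => f (x + y, z)) :=
    fun x => avg_translate bZ (hf.perZ (x + y)) (w x)
  simp only [h1]
  exact avg_translate bX hf.inner_per y

theorem fderiv_perz {f : X × Z → ℝ} (hz : ∀ j p, f (p.1, p.2 + bZ j) = f p) (j : l) (p : X × Z) :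
    fderiv ℝ f (p.1, p.2 + bZ j) = fderiv ℝ f p := by
  have h1 : (fun q : X × Z => f (q + (0, bZ j))) = f := by
    funext q
    rw [← hz j q]
    congr 1
    refine Prod.ext ?_ ?_
    · simp
    · simp
  have h2 : fderiv ℝ (fun q : X × Z => f (q + (0, bZ j))) p = fderiv ℝ f (p + (0, bZ j)) :=
    fderiv_comp_add_right (0, bZ j)
  rw [h1] at h2
  rw [h2]
  congr 1
  refine Prod.ext ?_ ?_
  · simp
  · simp

theorem avg_dz {f : X × Z → ℝ} (hf : ContDiff ℝ 1 f)
    (hz : ∀ j p, f (p.1, p.2 + bZ j) = f p) (x : X) (w : Z) :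
    avg bZ (fun z => fderiv ℝ f (x, z) (0, w)) = 0 := by
  have hc : Continuous (fderiv ℝ f) := hf.continuous_fderiv (by simp)
  refine avg_deriv' bZ (f := fun z => f (x, z)) w ?_ (fun j z => hz j (x, z)) ?_
    (cont_slice hf.continuous x) ?_
  · exact (hc.comp (by fun_prop)).clm_apply continuous_const
  · intro j z
    show fderiv ℝ f (x, z + bZ j) (0, w) = fderiv ℝ f (x, z) (0, w)
    rw [fderiv_perz hz j (x, z)]
  · intro z
    have h1 := ftc_segment hf (x, z) (0, w)
    have h2 : ((x, z) : X × Z) + (0, w) = (x, z + w) := by simp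
    rw [h2] at h1
    rw [h1]
    congr 1
    funext s
    have h3 : ((x, z) : X × Z) + s • ((0 : X), w) = (x, z + s • w) := by simp
    rw [h3]

theorem mean_dz {f : X × Z → ℝ} (hf : ContDiff ℝ 1 f)
    (hz : ∀ j p, f (p.1, p.2 + bZ j) = f p) (w : X → Z) :
    mean bX bZ (fun p => fderiv ℝ f p (0, w p.1)) = 0 := by
  unfold mean
  simp only [avg_dz hf hz]
  exact avg_const bX 0

theorem mean_dx {f : X × Z → ℝ} (hf : ContDiff ℝ 1 f) (hi : InvF bX bZ β f) (y : X) :
    mean bX bZ (fun p => fderiv ℝ f p (y, 0)) = 0 := by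
  unfold mean
  have hc : Continuous (fderiv ℝ f) := hf.continuous_fderiv (by simp)
  have hc2 : Continuous (fun p : X × Z => fderiv ℝ f p (y, 0)) := hc.clm_apply continuous_const
  refine avg_deriv' bX (f := fun x => avg bZ (fun z => f (x, z))) y (cont_inner hc2)
    hi.inner_per ?_ (cont_inner hf.continuous) ?_
  · intro j x
    -- the derivative of the invariance relation
    have h1 : ∀ p : X × Z, fderiv ℝ f (p.1 + bX j, p.2 + β (bX j) p.1) (y, β (bX j) y)
        = fderiv ℝ f p (y, 0) := by
      intro p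
      have h2 : (fun q : X × Z => f (q.1 + bX j, q.2 + β (bX j) q.1)) = f := by
        funext q
        exact hi.perx j q
      have h3 : HasFDerivAt (fun q : X × Z => (q.1 + bX j, q.2 + β (bX j) q.1))
          ((ContinuousLinearMap.fst ℝ X Z).prod
            (ContinuousLinearMap.snd ℝ X Z + (β (bX j)).comp (ContinuousLinearMap.fst ℝ X Z))) p := by
        refine HasFDerivAt.prodMk ?_ ?_
        · exact (ContinuousLinearMap.fst ℝ X Z).hasFDerivAt.add_const _
        · exact (ContinuousLinearMap.snd ℝ X Z).hasFDerivAt.add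
            (((β (bX j)).comp (ContinuousLinearMap.fst ℝ X Z)).hasFDerivAt)
      have h4 : HasFDerivAt f (fderiv ℝ f (p.1 + bX j, p.2 + β (bX j) p.1))
          (p.1 + bX j, p.2 + β (bX j) p.1) :=
        (hf.differentiable (by simp)).differentiableAt.hasFDerivAt
      have h5 := (HasFDerivAt.comp (f := fun q : X × Z => (q.1 + bX j, q.2 + β (bX j) q.1))
        (g := f) p h4 h3).fderiv
      have h6 : (f ∘ fun q : X × Z => (q.1 + bX j, q.2 + β (bX j) q.1)) = f := h2
      rw [h6] at h5
      rw [h5]
      simp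
    have h7 : ∀ z, fderiv ℝ f (x + bX j, z + β (bX j) x) (y, 0)
        = fderiv ℝ f (x, z) (y, 0) - fderiv ℝ f (x + bX j, z + β (bX j) x) (0, β (bX j) y) := by
      intro z
      rw [← h1 (x, z)]
      simp only
      rw [← map_sub]
      congr 1
      simp
    have hper : Per bZ (fun z => fderiv ℝ f (x + bX j, z) (y, 0)) := by
      intro i z
      show fderiv ℝ f (x + bX j, z + bZ i) (y, 0) = _
      rw [fderiv_perz hi.perz i (x + bX j, z)]
    have hper2 : Per bZ (fun z => fderiv ℝ f (x + bX j, z) (0, β (bX j) y)) := by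
      intro i z
      show fderiv ℝ f (x + bX j, z + bZ i) (0, β (bX j) y) = _
      rw [fderiv_perz hi.perz i (x + bX j, z)]
    show avg bZ (fun z => fderiv ℝ f (x + bX j, z) (y, 0)) = avg bZ (fun z => fderiv ℝ f (x, z) (y, 0))
    rw [← avg_translate bZ hper (β (bX j) x)]
    simp only [h7]
    rw [avg_sub bZ]
    · rw [avg_translate bZ hper2 (β (bX j) x), avg_dz hf hi.perz, sub_zero]
    · exact (hc.comp (by fun_prop)).clm_apply continuous_const
    · exact (hc.comp (by fun_prop)).clm_apply continuous_const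
  · intro x
    have h1 : ∀ z, f (x + y, z) - f (x, z) = ∫ s in (0 : ℝ)..1, fderiv ℝ f (x + s • y, z) (y, 0) := by
      intro z
      have h1 := ftc_segment hf (x, z) (y, 0)
      have h2 : ((x, z) : X × Z) + (y, 0) = (x + y, z) := by simp
      rw [h2] at h1
      rw [h1]
      congr 1
      funext s
      have h3 : ((x, z) : X × Z) + s • (y, (0 : Z)) = (x + s • y, z) := by simp
      rw [h3]
    show avg bZ (fun z => f (x + y, z)) - avg bZ (fun z => f (x, z)) = _
    rw [← avg_sub bZ (cont_slice hf.continuous _) (cont_slice hf.continuous _)]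
    simp only [h1]
    have h5 : Continuous (uncurry fun (z : Z) (s : ℝ) => fderiv ℝ f (x + s • y, z) (y, 0)) := by
      have : Continuous (fun q : Z × ℝ => fderiv ℝ f (x + q.2 • y, q.1) (y, 0)) :=
        (hc.comp (by fun_prop)).clm_apply continuous_const
      exact this
    exact avg_intervalIntegral bZ h5 0 1 zero_le_one

end

end Pool.Agent.Y519.AS
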