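import Mathlib
import Pool.Agent.Y519.AS.Mean
import Pool.Agent.Y519.AS.Nonv

/-!
# Stokes' theorem for products of invariant closed two-forms
-/

open MeasureTheory Set Module Function Equiv Finset

set_option linter.unusedSectionVars false

namespace Pool.Agent.Y519.AS

section algebra
variable {ι : Type*} [Fintype ι] [DecidableEq ι] {V : Type*} [AddCommGroup V] [Module ℝ V]

theorem prod_update_erase (e : ι × Fin 2 → V) (B : ι → V →ₗ[ℝ] V →ₗ[ℝ] ℝ) (m₀ : ι)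
    (C : V →ₗ[ℝ] V →ₗ[ℝ] ℝ) (σ : Perm (ι × Fin 2)) :
    ∏ m, (update B m₀ C) m (e (σ (m, 0))) (e (σ (m, 1)))
      = C (e (σ (m₀, 0))) (e (σ (m₀, 1))) *
        ∏ m ∈ univ.erase m₀, B m (e (σ (m, 0))) (e (σ (m, 1))) := by
  rw [← Finset.mul_prod_erase _ _ (Finset.mem_univ m₀), update_self]
  congr 1
  refine Finset.prod_congr rfl fun m hm => ?_
  rw [update_of_ne (Finset.ne_of_mem_erase hm)]

theorem pf_update (e : ι × Fin 2 → V) (B : ι → V →ₗ[ℝ] V →ₗ[ℝ] ℝ) (m₀ : ι)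
    (C : V →ₗ[ℝ] V →ₗ[ℝ] ℝ) :
    pf e (update B m₀ C) = ∑ σ : Perm (ι × Fin 2), ((Perm.sign σ : ℤ) : ℝ) *
      (C (e (σ (m₀, 0))) (e (σ (m₀, 1))) *
        ∏ m ∈ univ.erase m₀, B m (e (σ (m, 0))) (e (σ (m, 1)))) := by
  unfold pf
  refine Finset.sum_congr rfl fun σ _ => ?_
  rw [prod_update_erase]

theorem sum_cycle_zero {P : Type*} [Fintype P] [Group P] (g : P → ℝ) (c : P)
    (h : ∀ σ, g σ + g (σ * c) + g (σ * c * c) = 0) : ∑ σ, g σ = 0 := by
  have h1 : ∑ σ, g (σ * c) = ∑ σ, g σ := Equiv.sum_comp (Equiv.mulRight c) g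
  have h2 : ∑ σ, g (σ * c * c) = ∑ σ, g σ := by
    have h3 := Equiv.sum_comp (Equiv.mulRight c) (fun σ => g (σ * c))
    simp only [Equiv.coe_mulRight] at h3
    rw [h3, h1]
  have h4 : ∑ σ, (g σ + g (σ * c) + g (σ * c * c)) = 0 := by
    simp [h]
  rw [Finset.sum_add_distrib, Finset.sum_add_distrib, h1, h2] at h4
  linarith

/-- the closedness cancellation -/
theorem closed_cancel (e : ι × Fin 2 → V) (B : ι → V →ₗ[ℝ] V →ₗ[ℝ] ℝ) (m₀ m : ι) (hm : m ≠ m₀)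
    (h : V →ₗ[ℝ] ℝ) (D : V → V → V → ℝ) (hD : ∀ a b c, D a b c + D b c a + D c a b = 0) :
    ∑ σ : Perm (ι × Fin 2), ((Perm.sign σ : ℤ) : ℝ) * (h (e (σ (m₀, 1))) *
      (D (e (σ (m₀, 0))) (e (σ (m, 0))) (e (σ (m, 1))) *
        ∏ l ∈ (univ.erase m₀).erase m, B l (e (σ (l, 0))) (e (σ (l, 1))))) = 0 := by
  set c : Perm (ι × Fin 2) := swap (m₀, 0) (m, 0) * swap (m, 0) (m, 1) with hc
  have e1 : ((m₀, (0 : Fin 2)) : ι × Fin 2) ≠ (m, 0) := fun h => hm (congrArg Prod.fst h).symm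
  have e2 : ((m₀, (0 : Fin 2)) : ι × Fin 2) ≠ (m, 1) := fun h => hm (congrArg Prod.fst h).symm
  have e3 : ((m, (0 : Fin 2)) : ι × Fin 2) ≠ (m, 1) := by
    intro h
    have h' : (0 : Fin 2) = 1 := congrArg Prod.snd h
    exact absurd h' (by decide)
  have e4 : ((m₀, (1 : Fin 2)) : ι × Fin 2) ≠ (m₀, 0) := by
    intro h
    have h' : (1 : Fin 2) = 0 := congrArg Prod.snd h
    exact absurd h' (by decide)
  have e5 : ((m₀, (1 : Fin 2)) : ι × Fin 2) ≠ (m, 0) := fun h => hm (congrArg Prod.fst h).symm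
  have e6 : ((m₀, (1 : Fin 2)) : ι × Fin 2) ≠ (m, 1) := fun h => hm (congrArg Prod.fst h).symm
  have c1 : c (m₀, 0) = (m, 0) := by
    rw [hc, Perm.mul_apply, swap_apply_of_ne_of_ne e1 e2, swap_apply_left]
  have c2 : c (m, 0) = (m, 1) := by
    rw [hc, Perm.mul_apply, swap_apply_left, swap_apply_of_ne_of_ne e2.symm e3.symm]
  have c3 : c (m, 1) = (m₀, 0) := by
    rw [hc, Perm.mul_apply, swap_apply_right, swap_apply_right]
  have c4 : c (m₀, 1) = (m₀, 1) := by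
    rw [hc, Perm.mul_apply, swap_apply_of_ne_of_ne e5 e6, swap_apply_of_ne_of_ne e4 e5]
  have c5 : ∀ l ∈ (univ.erase m₀).erase m, ∀ t : Fin 2, c (l, t) = (l, t) := by
    intro l hl t
    have hl1 : l ≠ m := Finset.ne_of_mem_erase hl
    have hl2 : l ≠ m₀ := Finset.ne_of_mem_erase (Finset.mem_of_mem_erase hl)
    have f1 : ∀ s : Fin 2, ((l, t) : ι × Fin 2) ≠ (m, s) := fun s h => hl1 (congrArg Prod.fst h)
    have f2 : ∀ s : Fin 2, ((l, t) : ι × Fin 2) ≠ (m₀, s) := fun s h => hl2 (congrArg Prod.fst h)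
    rw [hc, Perm.mul_apply, swap_apply_of_ne_of_ne (f1 0) (f1 1),
      swap_apply_of_ne_of_ne (f2 0) (f1 0)]
  have csign : Perm.sign c = 1 := by
    rw [hc, Perm.sign_mul, Perm.sign_swap e1, Perm.sign_swap e3]
    rfl
  clear_value c
  refine sum_cycle_zero _ c fun σ => ?_
  have hK : ∀ τ : Perm (ι × Fin 2), ∏ l ∈ (univ.erase m₀).erase m,
      B l (e ((τ * c) (l, 0))) (e ((τ * c) (l, 1)))
      = ∏ l ∈ (univ.erase m₀).erase m, B l (e (τ (l, 0))) (e (τ (l, 1))) := by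
    intro τ
    refine Finset.prod_congr rfl fun l hl => ?_
    rw [Perm.mul_apply, Perm.mul_apply, c5 l hl, c5 l hl]
  rw [hK, hK, hK]
  simp only [Perm.mul_apply, c1, c2, c3, c4, Perm.sign_mul, csign, mul_one]
  have := hD (e (σ (m₀, 0))) (e (σ (m, 0))) (e (σ (m, 1)))
  linear_combination ((Perm.sign σ : ℤ) : ℝ) * h (e (σ (m₀, 1))) *
    (∏ l ∈ (univ.erase m₀).erase m, B l (e (σ (l, 0))) (e (σ (l, 1)))) * this

end algebra

section analysis

variable {ι : Type*} [Fintype ι] [DecidableEq ι] {E : Type*} [NormedAddCommGroup E]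
  [NormedSpace ℝ E]

/-- the underlying bilinear map -/
noncomputable def toB (A : E →L[ℝ] E →L[ℝ] ℝ) : E →ₗ[ℝ] E →ₗ[ℝ] ℝ := A.toLinearMap₁₂

@[simp] theorem toB_apply (A : E →L[ℝ] E →L[ℝ] ℝ) (u w : E) : toB A u w = A u w := rfl

/-- a closed two-form on a vector space -/
def IsCl (α : E → E →L[ℝ] E →L[ℝ] ℝ) : Prop :=
  ∀ p a b c, fderiv ℝ α p a b c + fderiv ℝ α p b c a + fderiv ℝ α p c a b = 0

/-- the derivative of a one-form, as a bilinear map -/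
noncomputable def dG (η : E → E →L[ℝ] ℝ) (p : E) : E →ₗ[ℝ] E →ₗ[ℝ] ℝ := toB (fderiv ℝ η p)

/-- the exterior derivative of a one-form -/
noncomputable def dEta (η : E → E →L[ℝ] ℝ) (p : E) : E →ₗ[ℝ] E →ₗ[ℝ] ℝ := dG η p - (dG η p).flip

theorem dEta_apply (η : E → E →L[ℝ] ℝ) (p u w : E) :
    dEta η p u w = fderiv ℝ η p u w - fderiv ℝ η p w u := rfl

/-- the components of the primitive -/
noncomputable def Xi (e : Basis (ι × Fin 2) ℝ E) (α : ι → E → E →L[ℝ] E →L[ℝ] ℝ) (m₀ : ι)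
    (η : E → E →L[ℝ] ℝ) (i : ι × Fin 2) (q : E) : ℝ :=
  pf e (update (fun m => toB (α m q)) m₀ (tens (e.coord i) (η q)))

theorem Xi_eq (e : Basis (ι × Fin 2) ℝ E) (α : ι → E → E →L[ℝ] E →L[ℝ] ℝ) (m₀ : ι)
    (η : E → E →L[ℝ] ℝ) (i : ι × Fin 2) (q : E) :
    Xi e α m₀ η i q = ∑ σ : Perm (ι × Fin 2), ((Perm.sign σ : ℤ) : ℝ) *
      ((e.coord i (e (σ (m₀, 0))) * η q (e (σ (m₀, 1)))) *
        ∏ m ∈ univ.erase m₀, α m q (e (σ (m, 0))) (e (σ (m, 1)))) := by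
  unfold Xi
  rw [pf_update]
  rfl

theorem contDiff_apply2 {A : E → E →L[ℝ] E →L[ℝ] ℝ} (hA : ContDiff ℝ 1 A) (u w : E) :
    ContDiff ℝ 1 (fun q => A q u w) :=
  (hA.clm_apply contDiff_const).clm_apply contDiff_const

theorem contDiff_Xi (e : Basis (ι × Fin 2) ℝ E) (α : ι → E → E →L[ℝ] E →L[ℝ] ℝ) (m₀ : ι)
    (η : E → E →L[ℝ] ℝ) (i : ι × Fin 2) (hα : ∀ m, m ≠ m₀ → ContDiff ℝ 1 (α m))
    (hη : ContDiff ℝ 1 η) : ContDiff ℝ 1 (Xi e α m₀ η i) := by
  have h1 : Xi e α m₀ η i = fun q => ∑ σ : Perm (ι × Fin 2), ((Perm.sign σ : ℤ) : ℝ) *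
      ((e.coord i (e (σ (m₀, 0))) * η q (e (σ (m₀, 1)))) *
        ∏ m ∈ univ.erase m₀, α m q (e (σ (m, 0))) (e (σ (m, 1)))) := by
    funext q
    exact Xi_eq e α m₀ η i q
  rw [h1]
  refine ContDiff.sum fun σ _ => contDiff_const.mul ((contDiff_const.mul ?_).mul ?_)
  · exact hη.clm_apply contDiff_const
  · refine contDiff_prod fun m hm => ?_
    exact contDiff_apply2 (hα m (Finset.ne_of_mem_erase hm)) _ _

theorem hasFDerivAt_apply2 {A : E → E →L[ℝ] E →L[ℝ] ℝ} {q : E} (hA : DifferentiableAt ℝ A q)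
    (u w : E) : ∃ L : E →L[ℝ] ℝ, HasFDerivAt (fun q => A q u w) L q ∧
      ∀ v, L v = fderiv ℝ A q v u w := by
  have h1 := (hA.hasFDerivAt.clm_apply (hasFDerivAt_const u q)).clm_apply (hasFDerivAt_const w q)
  exact ⟨_, h1, fun v => by simp⟩

/-- the pointwise identity behind Stokes' theorem -/
theorem divergence_identity (e : Basis (ι × Fin 2) ℝ E) (α : ι → E → E →L[ℝ] E →L[ℝ] ℝ) (m₀ : ι)
    (η : E → E →L[ℝ] ℝ) (hα : ∀ m, m ≠ m₀ → ContDiff ℝ 1 (α m))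
    (hcl : ∀ m, m ≠ m₀ → IsCl (α m)) (hη : ContDiff ℝ 1 η) (p : E) :
    pf e (update (fun m => toB (α m p)) m₀ (dEta η p))
      = 2 * ∑ i, fderiv ℝ (Xi e α m₀ η i) p (e i) := by
  have hA : pf e (update (fun m => toB (α m p)) m₀ (dEta η p))
      = 2 * pf e (update (fun m => toB (α m p)) m₀ (dG η p)) := by
    unfold dEta
    rw [pf_update_sub, pf_update_flip]
    ring
  rw [hA]
  congr 1
  -- derivative of each component
  choose! L hL1 hL2 using fun (m : ι) (hm : m ≠ m₀) (u w : E) =>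
    hasFDerivAt_apply2 ((hα m hm).differentiable (by simp) p) u w
  have hη1 : HasFDerivAt η (fderiv ℝ η p) p := (hη.differentiable (by simp) p).hasFDerivAt
  have hη2 : ∀ w : E, HasFDerivAt (fun q => η q w) ((fderiv ℝ η p).flip w) p := by
    intro w
    have := hη1.clm_apply (hasFDerivAt_const w p)
    simpa using this
  set A : ι → E → E → ℝ := fun m u w => α m p u w with hAdef
  have key : ∀ i, fderiv ℝ (Xi e α m₀ η i) p (e i)
      = ∑ σ : Perm (ι × Fin 2), ((Perm.sign σ : ℤ) : ℝ) *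
        (e.coord i (e (σ (m₀, 0))) * (fderiv ℝ η p (e i) (e (σ (m₀, 1))) *
          (∏ m ∈ univ.erase m₀, α m p (e (σ (m, 0))) (e (σ (m, 1)))) +
          ∑ m ∈ univ.erase m₀, η p (e (σ (m₀, 1))) *
            (fderiv ℝ (α m) p (e i) (e (σ (m, 0))) (e (σ (m, 1))) *
              ∏ l ∈ (univ.erase m₀).erase m, α l p (e (σ (l, 0))) (e (σ (l, 1)))))) := by
    intro i
    have h1 : Xi e α m₀ η i = fun q => ∑ σ : Perm (ι × Fin 2), ((Perm.sign σ : ℤ) : ℝ) *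
        ((e.coord i (e (σ (m₀, 0))) * η q (e (σ (m₀, 1)))) *
          ∏ m ∈ univ.erase m₀, α m q (e (σ (m, 0))) (e (σ (m, 1)))) := by
      funext q
      exact Xi_eq e α m₀ η i q
    have h2 : HasFDerivAt (Xi e α m₀ η i) (∑ σ : Perm (ι × Fin 2), ((Perm.sign σ : ℤ) : ℝ) •
        ((e.coord i (e (σ (m₀, 0))) * η p (e (σ (m₀, 1)))) •
          (∑ m ∈ univ.erase m₀, (∏ l ∈ (univ.erase m₀).erase m,
            α l p (e (σ (l, 0))) (e (σ (l, 1)))) • L m (e (σ (m, 0))) (e (σ (m, 1))))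
          + (∏ m ∈ univ.erase m₀, α m p (e (σ (m, 0))) (e (σ (m, 1)))) •
            (e.coord i (e (σ (m₀, 0))) • (fderiv ℝ η p).flip (e (σ (m₀, 1)))))) p := by
      rw [h1]
      refine HasFDerivAt.fun_sum fun σ _ => HasFDerivAt.const_mul ?_ _
      refine HasFDerivAt.mul ?_ ?_
      · exact (hη2 _).const_mul _
      · refine HasFDerivAt.finsetProd fun m hm => ?_
        exact hL1 m (Finset.ne_of_mem_erase hm) _ _
    rw [h2.fderiv]
    rw [_root_.sum_apply]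
    refine Finset.sum_congr rfl fun σ _ => ?_
    simp only [_root_.smul_apply, _root_.add_apply, _root_.sum_apply, smul_eq_mul, ContinuousLinearMap.flip_apply]
    rw [Finset.mul_sum, mul_add (e.coord i _), Finset.mul_sum, add_comm]
    congr 2
    · ring
    · refine Finset.sum_congr rfl fun m hm => ?_
      rw [hL2 m (Finset.ne_of_mem_erase hm)]
      ring
  simp only [key]
  rw [Finset.sum_comm]
  have h3 : ∀ σ : Perm (ι × Fin 2), ∑ i, ((Perm.sign σ : ℤ) : ℝ) *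
        (e.coord i (e (σ (m₀, 0))) * (fderiv ℝ η p (e i) (e (σ (m₀, 1))) *
          (∏ m ∈ univ.erase m₀, α m p (e (σ (m, 0))) (e (σ (m, 1)))) +
          ∑ m ∈ univ.erase m₀, η p (e (σ (m₀, 1))) *
            (fderiv ℝ (α m) p (e i) (e (σ (m, 0))) (e (σ (m, 1))) *
              ∏ l ∈ (univ.erase m₀).erase m, α l p (e (σ (l, 0))) (e (σ (l, 1))))))
      = ((Perm.sign σ : ℤ) : ℝ) *
        (fderiv ℝ η p (e (σ (m₀, 0))) (e (σ (m₀, 1))) *
          (∏ m ∈ univ.erase m₀, α m p (e (σ (m, 0))) (e (σ (m, 1))))) +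
        ∑ m ∈ univ.erase m₀, ((Perm.sign σ : ℤ) : ℝ) * (η p (e (σ (m₀, 1))) *
            (fderiv ℝ (α m) p (e (σ (m₀, 0))) (e (σ (m, 0))) (e (σ (m, 1))) *
              ∏ l ∈ (univ.erase m₀).erase m, α l p (e (σ (l, 0))) (e (σ (l, 1))))) := by
    intro σ
    rw [Finset.sum_eq_single (σ (m₀, 0))]
    · rw [Basis.coord_apply, Basis.repr_self, Finsupp.single_eq_same, one_mul, mul_add,
        Finset.mul_sum]
    · intro i _ hi
      rw [Basis.coord_apply, Basis.repr_self, Finsupp.single_eq_of_ne hi]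
      ring
    · intro h
      exact absurd (Finset.mem_univ _) h
  simp only [h3]
  rw [Finset.sum_add_distrib]
  have h4 : ∑ σ : Perm (ι × Fin 2), ∑ m ∈ univ.erase m₀, ((Perm.sign σ : ℤ) : ℝ) *
      (η p (e (σ (m₀, 1))) *
            (fderiv ℝ (α m) p (e (σ (m₀, 0))) (e (σ (m, 0))) (e (σ (m, 1))) *
              ∏ l ∈ (univ.erase m₀).erase m, α l p (e (σ (l, 0))) (e (σ (l, 1))))) = 0 := by
    rw [Finset.sum_comm]
    refine Finset.sum_eq_zero fun m hm => ?_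
    have hm' : m ≠ m₀ := Finset.ne_of_mem_erase hm
    exact closed_cancel e (fun m => toB (α m p)) m₀ m hm' (η p)
      (fun a b c => fderiv ℝ (α m) p a b c) (hcl m hm' p)
  rw [h4, add_zero, pf_update]
  rfl

end analysis

end Pool.Agent.Y519.AS
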