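import Mathlib
import Pool.Agent.Y519.AS.Stokes

/-!
# Stokes' theorem for invariant forms: the mean of an exact top-degree form vanishes
-/

open MeasureTheory Set Module Function Equiv Finset

set_option linter.unusedSectionVars false

namespace Pool.Agent.Y519.AS

section
variable {X Z : Type*} [NormedAddCommGroup X] [NormedSpace ℝ X] [NormedAddCommGroup Z]
  [NormedSpace ℝ Z]

/-- the unipotent map `(x, z) ↦ (x, z + N x)` -/
noncomputable def Lm (N : X →L[ℝ] Z) : X × Z →L[ℝ] X × Z :=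
  (ContinuousLinearMap.fst ℝ X Z).prod
    (ContinuousLinearMap.snd ℝ X Z + N.comp (ContinuousLinearMap.fst ℝ X Z))

@[simp] theorem Lm_apply (N : X →L[ℝ] Z) (u : X × Z) : Lm N u = (u.1, u.2 + N u.1) := rfl

theorem det_Lm [FiniteDimensional ℝ X] [FiniteDimensional ℝ Z] (N : X →L[ℝ] Z) :
    LinearMap.det ((Lm N : X × Z →L[ℝ] X × Z) : X × Z →ₗ[ℝ] X × Z) = 1 := by
  have hadd : ∀ N N' : X →L[ℝ] Z, ((Lm (N + N') : X × Z →L[ℝ] X × Z) : X × Z →ₗ[ℝ] X × Z)
      = ((Lm N : X × Z →L[ℝ] X × Z) : X × Z →ₗ[ℝ] X × Z) ∘ₗ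
        ((Lm N' : X × Z →L[ℝ] X × Z) : X × Z →ₗ[ℝ] X × Z) := by
    intro N N'
    refine LinearMap.ext fun u => ?_
    simp only [ContinuousLinearMap.coe_coe, LinearMap.comp_apply, Lm_apply]
    refine Prod.ext rfl ?_
    simp only [_root_.add_apply]
    abel
  have hzero : LinearMap.det ((Lm (0 : X →L[ℝ] Z) : X × Z →L[ℝ] X × Z) : X × Z →ₗ[ℝ] X × Z) = 1 := by
    have : ((Lm (0 : X →L[ℝ] Z) : X × Z →L[ℝ] X × Z) : X × Z →ₗ[ℝ] X × Z) = LinearMap.id := by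
      refine LinearMap.ext fun u => ?_
      simp
    rw [this, LinearMap.det_id]
  have hne : LinearMap.det ((Lm N : X × Z →L[ℝ] X × Z) : X × Z →ₗ[ℝ] X × Z) ≠ 0 := by
    intro h0
    have h1 := hadd N (-N)
    rw [add_neg_cancel] at h1
    rw [h1, LinearMap.det_comp, h0, zero_mul] at hzero
    exact zero_ne_one hzero
  have htwo : LinearMap.det ((Lm (N + N) : X × Z →L[ℝ] X × Z) : X × Z →ₗ[ℝ] X × Z)
      = LinearMap.det ((Lm N : X × Z →L[ℝ] X × Z) : X × Z →ₗ[ℝ] X × Z) := by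
    let D : (X × Z) ≃ₗ[ℝ] (X × Z) :=
      LinearEquiv.prodCongr (LinearEquiv.refl ℝ X) (LinearEquiv.smulOfNeZero ℝ Z (2 : ℝ) two_ne_zero)
    have hD : ∀ u, D u = (u.1, (2 : ℝ) • u.2) := fun u => rfl
    have hDs : ∀ u, D.symm u = (u.1, (2 : ℝ)⁻¹ • u.2) := fun u => by
      rw [LinearEquiv.symm_apply_eq, hD]
      simp
    rw [← LinearMap.det_conj ((Lm N : X × Z →L[ℝ] X × Z) : X × Z →ₗ[ℝ] X × Z) D]
    congr 1
    refine LinearMap.ext fun u => ?_
    simp only [ContinuousLinearMap.coe_coe, LinearMap.comp_apply, Lm_apply,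
      LinearEquiv.coe_coe, hDs, hD]
    refine Prod.ext rfl ?_
    simp [two_smul]
  rw [hadd, LinearMap.det_comp] at htwo
  have := mul_right_cancel₀ hne (htwo.trans (one_mul _).symm)
  exact this

end

section
variable {X Z : Type*} [NormedAddCommGroup X] [NormedSpace ℝ X] [MeasurableSpace X] [BorelSpace X]
  [FiniteDimensional ℝ X] [NormedAddCommGroup Z] [NormedSpace ℝ Z] [MeasurableSpace Z]
  [BorelSpace Z] [FiniteDimensional ℝ Z]
  {κ l : Type*} [Fintype κ] [Fintype l] (bX : Basis κ ℝ X) (bZ : Basis l ℝ Z)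
  (β : X →L[ℝ] X →L[ℝ] Z)
  {ι : Type*} [Fintype ι] [DecidableEq ι]

/-- invariant two-forms -/
structure Inv2 (α : X × Z → X × Z →L[ℝ] X × Z →L[ℝ] ℝ) : Prop where
  perz : ∀ j p u w, α (p.1, p.2 + bZ j) u w = α p u w
  perx : ∀ j p u w, α (p.1 + bX j, p.2 + β (bX j) p.1) (Lm (β (bX j)) u) (Lm (β (bX j)) w)
    = α p u w

/-- invariant one-forms -/
structure Inv1 (η : X × Z → X × Z →L[ℝ] ℝ) : Prop where
  perz : ∀ j p u, η (p.1, p.2 + bZ j) u = η p u
  perx : ∀ j p u, η (p.1 + bX j, p.2 + β (bX j) p.1) (Lm (β (bX j)) u) = η p u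

variable {bX bZ β}

/-- the adapted basis -/
noncomputable def eB (bX : Basis κ ℝ X) (bZ : Basis l ℝ Z) (r : κ ⊕ l ≃ ι × Fin 2) :
    Basis (ι × Fin 2) ℝ (X × Z) := (bX.prod bZ).reindex r

theorem eB_inl (r : κ ⊕ l ≃ ι × Fin 2) (j : κ) : eB bX bZ r (r (Sum.inl j)) = (bX j, 0) := by
  unfold eB
  rw [Basis.reindex_apply, Equiv.symm_apply_apply]
  refine Prod.ext ?_ ?_
  · rw [Basis.prod_apply_inl_fst]
  · rw [Basis.prod_apply_inl_snd]

theorem eB_inr (r : κ ⊕ l ≃ ι × Fin 2) (j : l) : eB bX bZ r (r (Sum.inr j)) = (0, bZ j) := by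
  unfold eB
  rw [Basis.reindex_apply, Equiv.symm_apply_apply]
  refine Prod.ext ?_ ?_
  · rw [Basis.prod_apply_inr_fst]
  · rw [Basis.prod_apply_inr_snd]

theorem eB_coord_inl (r : κ ⊕ l ≃ ι × Fin 2) (j : κ) (u : X × Z) :
    (eB bX bZ r).coord (r (Sum.inl j)) u = bX.coord j u.1 := by
  unfold eB
  rw [Basis.coord_apply, Basis.repr_reindex_apply, Equiv.symm_apply_apply, Basis.prod_repr_inl]
  rfl

theorem pf_eB_Lm (r : κ ⊕ l ≃ ι × Fin 2) (N : X →L[ℝ] Z)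
    (B : ι → (X × Z) →ₗ[ℝ] (X × Z) →ₗ[ℝ] ℝ) :
    pf (eB bX bZ r) (fun m => (B m).compl₁₂ (Lm N : X × Z →ₗ[ℝ] X × Z) (Lm N : X × Z →ₗ[ℝ] X × Z))
      = pf (eB bX bZ r) B := by
  rw [pf_comp, det_Lm, one_mul]

/-- the mean of `dη ∧ α₂ ∧ ... ∧ α_k` vanishes -/
theorem mean_stokes (r : κ ⊕ l ≃ ι × Fin 2) (α : ι → X × Z → X × Z →L[ℝ] X × Z →L[ℝ] ℝ)
    (m₀ : ι) (η : X × Z → X × Z →L[ℝ] ℝ) (hα : ∀ m, m ≠ m₀ → ContDiff ℝ 1 (α m))
    (hcl : ∀ m, m ≠ m₀ → IsCl (α m)) (hinv : ∀ m, m ≠ m₀ → Inv2 bX bZ β (α m))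
    (hη : ContDiff ℝ 1 η) (hη' : Inv1 bX bZ β η) :
    mean bX bZ (fun p => pf (eB bX bZ r) (update (fun m => toB (α m p)) m₀ (dEta η p))) = 0 := by
  set e := eB bX bZ r with he
  simp only [divergence_identity e α m₀ η hα hcl hη]
  rw [mean_mul]
  have hC : ∀ i, ContDiff ℝ 1 (Xi e α m₀ η i) := fun i => contDiff_Xi e α m₀ η i hα hη
  have hcont : ∀ i, Continuous (fun p => fderiv ℝ (Xi e α m₀ η i) p (e i)) := fun i =>
    ((hC i).continuous_fderiv (by simp)).clm_apply continuous_const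
  rw [mean_sum _ (fun i _ => hcont i)]
  have hz : ∀ i j p, Xi e α m₀ η i (p.1, p.2 + bZ j) = Xi e α m₀ η i p := by
    intro i j p
    rw [Xi_eq, Xi_eq]
    refine Finset.sum_congr rfl fun σ _ => ?_
    rw [hη'.perz j p]
    congr 2
    refine Finset.prod_congr rfl fun m hm => ?_
    rw [(hinv m (Finset.ne_of_mem_erase hm)).perz j p]
  have hx : ∀ i : κ, InvF bX bZ β (Xi e α m₀ η (r (Sum.inl i))) := by
    intro i
    refine ⟨hz _, fun j p => ?_⟩
    unfold Xi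
    rw [← pf_eB_Lm r (β (bX j))]
    rw [← he]
    congr 1
    funext m
    refine LinearMap.ext fun u => LinearMap.ext fun w => ?_
    rw [LinearMap.compl₁₂_apply]
    by_cases hm : m = m₀
    · subst hm
      rw [update_self, update_self, tens_apply, tens_apply]
      simp only [ContinuousLinearMap.coe_coe]
      rw [hη'.perx j p w, he, eB_coord_inl, eB_coord_inl]
      rfl
    · rw [update_of_ne hm, update_of_ne hm, toB_apply, toB_apply]
      simp only [ContinuousLinearMap.coe_coe]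
      exact (hinv m hm).perx j p u w
  have hterm : ∀ i, mean bX bZ (fun p => fderiv ℝ (Xi e α m₀ η i) p (e i)) = 0 := by
    intro i
    obtain ⟨i', rfl⟩ := r.surjective i
    cases i' with
    | inl i' =>
      rw [he, eB_inl, ← he]
      exact mean_dx (hC _) (hx i') (bX i')
    | inr i' =>
      rw [he, eB_inr, ← he]
      exact mean_dz (hC _) (hz _) (fun _ => bZ i')
  rw [Finset.sum_eq_zero fun i _ => hterm i, mul_zero]

end

end Pool.Agent.Y519.AS
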