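import Mathlib
import Pool.Agent.Y519.AS.Stokes2

/-!
# Right translations do not change the mean
-/

open MeasureTheory Set Module Function Equiv Finset

set_option linter.unusedSectionVars false
set_option maxSynthPendingDepth 3

namespace Pool.Agent.Y519.AS

section general
variable {E : Type*} [NormedAddCommGroup E] [NormedSpace ℝ E]

theorem fderiv_apply2 {A : E → E →L[ℝ] E →L[ℝ] ℝ} {q : E} (hA : DifferentiableAt ℝ A q)
    (u w v : E) : fderiv ℝ (fun q => A q u w) q v = fderiv ℝ A q v u w := by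
  obtain ⟨L, h1, h2⟩ := hasFDerivAt_apply2 hA u w
  rw [h1.fderiv, h2]

theorem contDiff_form {n : WithTop ℕ∞} [FiniteDimensional ℝ E] {A : E → E →L[ℝ] E →L[ℝ] ℝ}
    (h : ∀ u w, ContDiff ℝ n (fun q => A q u w)) : ContDiff ℝ n A := by
  rw [contDiff_clm_apply_iff]
  intro u
  rw [contDiff_clm_apply_iff]
  intro w
  exact h u w

end general

section
variable {X Z : Type*} [NormedAddCommGroup X] [NormedSpace ℝ X] [MeasurableSpace X] [BorelSpace X]
  [FiniteDimensional ℝ X] [NormedAddCommGroup Z] [NormedSpace ℝ Z] [MeasurableSpace Z]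
  [BorelSpace Z] [FiniteDimensional ℝ Z]
  {κ l : Type*} [Fintype κ] [Fintype l] {bX : Basis κ ℝ X} {bZ : Basis l ℝ Z}
  {β : X →L[ℝ] X →L[ℝ] Z}
  {ι : Type*} [Fintype ι] [DecidableEq ι]

variable (β) in
/-- the vector field -/
noncomputable def Vf (y : X) (w : Z) (p : X × Z) : X × Z := (y, w + β p.1 y)

variable (β) in
/-- right translation -/
noncomputable def ph (y : X) (w : Z) (s : ℝ) (p : X × Z) : X × Z :=
  (p.1 + s • y, p.2 + s • w + s • β p.1 y)

variable (β) in
/-- the derivative of right translation -/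
noncomputable def Ls (y : X) (s : ℝ) : X × Z →L[ℝ] X × Z := Lm (s • β.flip y)

variable (β) in
/-- the nilpotent part -/
noncomputable def An (y : X) : X × Z →L[ℝ] X × Z :=
  (0 : X × Z →L[ℝ] X).prod ((β.flip y).comp (ContinuousLinearMap.fst ℝ X Z))

theorem An_apply (y : X) (u : X × Z) : An β y u = (0, β u.1 y) := rfl

theorem Ls_apply (y : X) (s : ℝ) (u : X × Z) : Ls β y s u = (u.1, u.2 + s • β u.1 y) := rfl

theorem Ls_eq (y : X) (s : ℝ) (u : X × Z) : Ls β y s u = u + s • An β y u := by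
  rw [Ls_apply, An_apply]
  refine Prod.ext ?_ ?_
  · simp
  · simp

theorem ph_eq (y : X) (w : Z) (s : ℝ) (p : X × Z) : ph β y w s p = p + s • Vf β y w p := by
  refine Prod.ext ?_ ?_
  · simp [ph, Vf]
  · simp [ph, Vf, add_assoc]

theorem hasFDerivAt_Vf (y : X) (w : Z) (p : X × Z) : HasFDerivAt (Vf β y w) (An β y) p := by
  refine HasFDerivAt.prodMk (hasFDerivAt_const y p) ?_
  exact (((β.flip y).comp (ContinuousLinearMap.fst ℝ X Z)).hasFDerivAt).const_add w

theorem hasFDerivAt_ph (y : X) (w : Z) (s : ℝ) (p : X × Z) :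
    HasFDerivAt (ph β y w s) (Ls β y s) p := by
  have h1 : ph β y w s = fun p => p + s • Vf β y w p := funext fun p => ph_eq y w s p
  rw [h1]
  have h2 := (hasFDerivAt_id p).add ((hasFDerivAt_Vf (β := β) y w p).const_smul s)
  have h3 : Ls β y s = ContinuousLinearMap.id ℝ (X × Z) + s • An β y := by
    refine ContinuousLinearMap.ext fun u => ?_
    rw [Ls_eq]
    rfl
  rw [h3]
  exact h2

theorem contDiff_Vf {n : WithTop ℕ∞} (y : X) (w : Z) : ContDiff ℝ n (Vf β y w) := by
  have h1 : ContDiff ℝ n (fun p : X × Z => β p.1 y) :=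
    (((β.flip y).comp (ContinuousLinearMap.fst ℝ X Z)).contDiff)
  exact contDiff_const.prodMk (contDiff_const.add h1)

theorem contDiff_ph {n : WithTop ℕ∞} (y : X) (w : Z) (s : ℝ) : ContDiff ℝ n (ph β y w s) := by
  have h1 : ph β y w s = fun p => p + s • Vf β y w p := funext fun p => ph_eq y w s p
  rw [h1]
  exact contDiff_id.add ((contDiff_Vf y w).const_smul s)

variable (β) in
/-- the pull back of a two-form by a right translation -/
noncomputable def pull (y : X) (w : Z) (s : ℝ) (α : X × Z → X × Z →L[ℝ] X × Z →L[ℝ] ℝ)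
    (p : X × Z) : X × Z →L[ℝ] X × Z →L[ℝ] ℝ :=
  (α (ph β y w s p)).bilinearComp (Ls β y s) (Ls β y s)

theorem pull_apply (y : X) (w : Z) (s : ℝ) (α : X × Z → X × Z →L[ℝ] X × Z →L[ℝ] ℝ)
    (p u v : X × Z) : pull β y w s α p u v = α (ph β y w s p) (Ls β y s u) (Ls β y s v) := rfl

theorem contDiff_pull {n : WithTop ℕ∞} {α : X × Z → X × Z →L[ℝ] X × Z →L[ℝ] ℝ}
    (hα : ContDiff ℝ n α) (y : X) (w : Z) (s : ℝ) : ContDiff ℝ n (pull β y w s α) := by
  refine contDiff_form fun u v => ?_
  simp only [pull_apply]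
  exact ((hα.comp (contDiff_ph y w s)).clm_apply contDiff_const).clm_apply contDiff_const

theorem fderiv_pull {α : X × Z → X × Z →L[ℝ] X × Z →L[ℝ] ℝ}
    (hα : ContDiff ℝ 1 α) (y : X) (w : Z) (s : ℝ) (p a b c : X × Z) :
    fderiv ℝ (pull β y w s α) p a b c
      = fderiv ℝ α (ph β y w s p) (Ls β y s a) (Ls β y s b) (Ls β y s c) := by
  rw [← fderiv_apply2 ((contDiff_pull hα y w s).differentiable (by simp) p)]
  simp only [pull_apply]
  have h1 := hα.differentiable (by simp) (ph β y w s p)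
  obtain ⟨L, h2, h3⟩ := hasFDerivAt_apply2 h1 (Ls β y s b) (Ls β y s c)
  have h4 := h2.comp p (hasFDerivAt_ph y w s p)
  have h5 : fderiv ℝ (fun q => α (ph β y w s q) (Ls β y s b) (Ls β y s c)) p
      = L.comp (Ls β y s) := h4.fderiv
  rw [h5, ContinuousLinearMap.comp_apply, h3]

theorem IsCl.pull {α : X × Z → X × Z →L[ℝ] X × Z →L[ℝ] ℝ} (hcl : IsCl α)
    (hα : ContDiff ℝ 1 α) (y : X) (w : Z) (s : ℝ) : IsCl (pull β y w s α) := by
  intro p a b c
  rw [fderiv_pull hα, fderiv_pull hα, fderiv_pull hα]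
  exact hcl _ _ _ _

theorem ph_gam (y : X) (w : Z) (s : ℝ) (b : X) (p : X × Z) :
    ph β y w s (p.1 + b, p.2 + β b p.1)
      = ((ph β y w s p).1 + b, (ph β y w s p).2 + β b (ph β y w s p).1) := by
  refine Prod.ext ?_ ?_
  · simp [ph]
    abel
  · simp [ph]
    abel

theorem ph_addz (y : X) (w : Z) (s : ℝ) (c : Z) (p : X × Z) :
    ph β y w s (p.1, p.2 + c) = ((ph β y w s p).1, (ph β y w s p).2 + c) := by
  refine Prod.ext rfl ?_
  simp [ph]
  abel

theorem Ls_Lm (y : X) (s : ℝ) (N : X →L[ℝ] Z) (u : X × Z) :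
    Ls β y s (Lm N u) = Lm N (Ls β y s u) := by
  refine Prod.ext rfl ?_
  simp [Ls_apply]
  abel

theorem Vf_gam (y : X) (w : Z) (b : X) (p : X × Z) :
    Vf β y w (p.1 + b, p.2 + β b p.1) = Lm (β b) (Vf β y w p) := by
  refine Prod.ext rfl ?_
  simp [Vf]
  abel

theorem Inv2.pull {α : X × Z → X × Z →L[ℝ] X × Z →L[ℝ] ℝ} (h : Inv2 bX bZ β α)
    (y : X) (w : Z) (s : ℝ) : Inv2 bX bZ β (pull β y w s α) := by
  refine ⟨fun j p u v => ?_, fun j p u v => ?_⟩
  · rw [pull_apply, pull_apply, ph_addz, h.perz]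
  · rw [pull_apply, pull_apply, ph_gam, Ls_Lm, Ls_Lm, h.perx]

variable (β) in
/-- the contraction of the pulled back form with the vector field -/
noncomputable def et (y : X) (w : Z) (s : ℝ) (α : X × Z → X × Z →L[ℝ] X × Z →L[ℝ] ℝ)
    (p : X × Z) : X × Z →L[ℝ] ℝ :=
  (α (ph β y w s p) (Vf β y w p)).comp (Ls β y s)

theorem et_apply (y : X) (w : Z) (s : ℝ) (α : X × Z → X × Z →L[ℝ] X × Z →L[ℝ] ℝ)
    (p u : X × Z) : et β y w s α p u = α (ph β y w s p) (Vf β y w p) (Ls β y s u) := rfl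

theorem contDiff_et {n : WithTop ℕ∞} {α : X × Z → X × Z →L[ℝ] X × Z →L[ℝ] ℝ}
    (hα : ContDiff ℝ n α) (y : X) (w : Z) (s : ℝ) : ContDiff ℝ n (et β y w s α) := by
  rw [contDiff_clm_apply_iff]
  intro u
  simp only [et_apply]
  exact ((hα.comp (contDiff_ph y w s)).clm_apply (contDiff_Vf y w)).clm_apply contDiff_const

theorem Inv2.et {α : X × Z → X × Z →L[ℝ] X × Z →L[ℝ] ℝ} (h : Inv2 bX bZ β α)
    (y : X) (w : Z) (s : ℝ) : Inv1 bX bZ β (et β y w s α) := by
  refine ⟨fun j p u => ?_, fun j p u => ?_⟩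
  · rw [et_apply, et_apply, ph_addz, h.perz]
    rfl
  · rw [et_apply, et_apply, ph_gam, Ls_Lm, Vf_gam, h.perx]

/-- the derivative of the primitive -/
theorem fderiv_et {α : X × Z → X × Z →L[ℝ] X × Z →L[ℝ] ℝ}
    (hα : ContDiff ℝ 1 α) (y : X) (w : Z) (s : ℝ) (p u v : X × Z) :
    fderiv ℝ (et β y w s α) p u v
      = fderiv ℝ α (ph β y w s p) (Ls β y s u) (Vf β y w p) (Ls β y s v)
        + α (ph β y w s p) (An β y u) (Ls β y s v) := by
  have h0 : fderiv ℝ (fun q => et β y w s α q v) p u = fderiv ℝ (et β y w s α) p u v := by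
    have h1 := ((contDiff_et (β := β) hα y w s).differentiable (by simp) p).hasFDerivAt.clm_apply
      (hasFDerivAt_const v p)
    rw [h1.fderiv]
    simp
  rw [← h0]
  simp only [et_apply]
  have h1 : HasFDerivAt α (fderiv ℝ α (ph β y w s p)) (ph β y w s p) :=
    (hα.differentiable (by simp) _).hasFDerivAt
  have h2 := HasFDerivAt.comp (g := α) (f := ph β y w s) p h1 (hasFDerivAt_ph (β := β) y w s p)
  have h3 := (h2.clm_apply (hasFDerivAt_Vf (β := β) y w p)).clm_apply
    (hasFDerivAt_const (Ls β y s v) p)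
  have h4 : fderiv ℝ (fun q => α (ph β y w s q) (Vf β y w q) (Ls β y s v)) p = _ := h3.fderiv
  rw [h4]
  simp [add_comm]

/-- the derivative of the pull back in the parameter -/
theorem hasDerivAt_pull {α : X × Z → X × Z →L[ℝ] X × Z →L[ℝ] ℝ}
    (hα : ContDiff ℝ 1 α) (hcl : IsCl α) (halt : ∀ p u, α p u u = 0)
    (y : X) (w : Z) (s : ℝ) (p u v : X × Z) :
    HasDerivAt (fun r => pull β y w r α p u v) (dEta (et β y w s α) p u v) s := by
  have hd := (hα.differentiable (by simp) (ph β y w s p)).hasFDerivAt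
  have h1 : HasDerivAt (fun r => ph β y w r p) (Vf β y w p) s := by
    have h := ((hasDerivAt_id s).smul_const (Vf β y w p)).const_add p
    simp only [id_eq, one_smul] at h
    refine h.congr_of_eventuallyEq (Filter.Eventually.of_forall fun r => ?_)
    exact ph_eq y w r p
  have h2 : ∀ u, HasDerivAt (fun r => Ls β y r u) (An β y u) s := by
    intro u
    have h := ((hasDerivAt_id s).smul_const (An β y u)).const_add u
    simp only [id_eq, one_smul] at h
    refine h.congr_of_eventuallyEq (Filter.Eventually.of_forall fun r => ?_)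
    exact Ls_eq y r u
  have h3 := hd.comp_hasDerivAt s h1
  have h4 := (h3.clm_apply (h2 u)).clm_apply (h2 v)
  have h5 : HasDerivAt (fun r => pull β y w r α p u v)
      (fderiv ℝ α (ph β y w s p) (Vf β y w p) (Ls β y s u) (Ls β y s v)
        + α (ph β y w s p) (An β y u) (Ls β y s v)
        + α (ph β y w s p) (Ls β y s u) (An β y v)) s := by
    refine h4.congr_deriv ?_
    simp
  refine h5.congr_deriv ?_
  rw [dEta_apply, fderiv_et hα, fderiv_et hα]
  have h6 := hcl (ph β y w s p) (Vf β y w p) (Ls β y s u) (Ls β y s v)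
  have hanti : ∀ q a b, α q a b = - α q b a := by
    intro q a b
    have h7 := halt q (a + b)
    simp only [map_add, _root_.add_apply, halt, zero_add, add_zero] at h7
    linarith
  have hanti2 : ∀ q a b c, fderiv ℝ α q a b c = - fderiv ℝ α q a c b := by
    intro q a b c
    rw [← fderiv_apply2 (hα.differentiable (by simp) q),
      ← fderiv_apply2 (hα.differentiable (by simp) q)]
    have h8 : (fun q => α q b c) = fun q => - α q c b := funext fun q => hanti q b c
    rw [h8, fderiv_fun_neg]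
    rfl
  rw [hanti2 _ (Ls β y s u) (Ls β y s v) (Vf β y w p)] at h6
  rw [hanti _ (An β y v) (Ls β y s u)]
  linarith

/-- **Right translations do not change the mean.** -/
theorem mean_pull (r : κ ⊕ l ≃ ι × Fin 2) (γ : ι → X × Z → X × Z →L[ℝ] X × Z →L[ℝ] ℝ)
    (m₀ : ι) (hγ : ∀ m, m ≠ m₀ → ContDiff ℝ 1 (γ m))
    (hγcl : ∀ m, m ≠ m₀ → IsCl (γ m)) (hγinv : ∀ m, m ≠ m₀ → Inv2 bX bZ β (γ m))
    {α : X × Z → X × Z →L[ℝ] X × Z →L[ℝ] ℝ}
    (hα : ContDiff ℝ 1 α) (hcl : IsCl α) (halt : ∀ p u, α p u u = 0) (hinv : Inv2 bX bZ β α)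
    (y : X) (w : Z) :
    mean bX bZ (fun p => pf (eB bX bZ r) (update (fun m => toB (γ m p)) m₀
      (toB (pull β y w 1 α p))))
      = mean bX bZ (fun p => pf (eB bX bZ r) (update (fun m => toB (γ m p)) m₀ (toB (α p)))) := by
  set e := eB bX bZ r with he
  set R : Perm (ι × Fin 2) → X × Z → ℝ := fun σ p =>
    ∏ m ∈ univ.erase m₀, γ m p (e (σ (m, 0))) (e (σ (m, 1))) with hR
  have hRc : ∀ σ, Continuous (R σ) := fun σ => by
    refine continuous_finsetProd _ fun m hm => ?_
    exact (contDiff_apply2 (hγ m (Finset.ne_of_mem_erase hm)) _ _).continuous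
  -- the mean of the difference
  have hcs : ∀ s : ℝ, Continuous (fun p => pf e (update (fun m => toB (γ m p)) m₀
      (toB (pull β y w s α p)))) := by
    intro s
    simp only [pf_update]
    refine continuous_finsetSum _ fun σ _ => continuous_const.mul (Continuous.mul ?_ (hRc σ))
    exact (contDiff_apply2 (contDiff_pull hα y w s) _ _).continuous
  have h0 : pull β y w 0 α = α := by
    funext p
    refine ContinuousLinearMap.ext fun u => ContinuousLinearMap.ext fun v => ?_
    rw [pull_apply, ph_eq, Ls_eq, Ls_eq]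
    simp
  have hcα : Continuous (fun p => pf e (update (fun m => toB (γ m p)) m₀ (toB (α p)))) := by
    have := hcs 0
    rwa [h0] at this
  rw [← sub_eq_zero, ← mean_sub (hcs 1) hcα]
  have hda : ∀ (u v p : X × Z) (s : ℝ), dEta (et β y w s α) p u v
      = fderiv ℝ α (ph β y w s p) (Ls β y s u) (Vf β y w p) (Ls β y s v)
        + α (ph β y w s p) (An β y u) (Ls β y s v)
        - (fderiv ℝ α (ph β y w s p) (Ls β y s v) (Vf β y w p) (Ls β y s u)
        + α (ph β y w s p) (An β y v) (Ls β y s u)) := by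
    intro u v p s
    rw [dEta_apply, fderiv_et hα, fderiv_et hα]
  have hcd : ∀ u v : X × Z, Continuous (fun q : (X × Z) × ℝ =>
      dEta (et β y w q.2 α) q.1 u v) := by
    intro u v
    simp only [hda]
    have c1 : Continuous (fun q : (X × Z) × ℝ => ph β y w q.2 q.1) := by
      have : (fun q : (X × Z) × ℝ => ph β y w q.2 q.1)
          = fun q => q.1 + q.2 • Vf β y w q.1 := funext fun q => ph_eq y w q.2 q.1
      rw [this]
      have c2 : Continuous (Vf β y w) := (contDiff_Vf (n := 1) y w).continuous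
      fun_prop
    have c3 : Continuous (fderiv ℝ α) := hα.continuous_fderiv (by simp)
    have c4 : ∀ u : X × Z, Continuous (fun q : (X × Z) × ℝ => Ls β y q.2 u) := by
      intro u
      simp only [Ls_eq]
      fun_prop
    have c5 : Continuous (fun q : (X × Z) × ℝ => Vf β y w q.1) :=
      (contDiff_Vf (n := 1) y w).continuous.comp continuous_fst
    have c6 : Continuous α := hα.continuous
    refine (Continuous.add ?_ ?_).sub (Continuous.add ?_ ?_)
    · exact (((c3.comp c1).clm_apply (c4 u)).clm_apply c5).clm_apply (c4 v)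
    · exact ((c6.comp c1).clm_apply continuous_const).clm_apply (c4 v)
    · exact (((c3.comp c1).clm_apply (c4 v)).clm_apply c5).clm_apply (c4 u)
    · exact ((c6.comp c1).clm_apply continuous_const).clm_apply (c4 u)
  obtain ⟨K, hK⟩ : ∃ K : (X × Z) × ℝ → ℝ, ∀ q, K q = pf e (update (fun m => toB (γ m q.1)) m₀
      (dEta (et β y w q.2 α) q.1)) := ⟨_, fun _ => rfl⟩
  have hcK : Continuous K := by
    have h1 : K = fun q => ∑ σ : Perm (ι × Fin 2), ((Perm.sign σ : ℤ) : ℝ) *
      (dEta (et β y w q.2 α) q.1 (e (σ (m₀, 0))) (e (σ (m₀, 1))) * R σ q.1) := by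
      funext q
      rw [hK, pf_update]
      rfl
    rw [h1]
    refine continuous_finsetSum _ fun σ _ => continuous_const.mul (Continuous.mul ?_ ?_)
    · exact hcd _ _
    · exact (hRc σ).comp continuous_fst
  obtain ⟨P, hP⟩ : ∃ P : X × Z → ℝ → ℝ, ∀ p s, P p s = pf e (update (fun m => toB (γ m p)) m₀
      (toB (pull β y w s α p))) := ⟨_, fun _ _ => rfl⟩
  have hder : ∀ (p : X × Z) (s : ℝ), HasDerivAt (P p) (K (p, s)) s := by
    intro p s
    have h1 : P p = fun s => ∑ σ : Perm (ι × Fin 2), ((Perm.sign σ : ℤ) : ℝ) *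
      (pull β y w s α p (e (σ (m₀, 0))) (e (σ (m₀, 1))) * R σ p) := by
      funext s
      rw [hP, pf_update]
      rfl
    have h2 : K (p, s) = ∑ σ : Perm (ι × Fin 2), ((Perm.sign σ : ℤ) : ℝ) *
      (dEta (et β y w s α) p (e (σ (m₀, 0))) (e (σ (m₀, 1))) * R σ p) := by
      rw [hK, pf_update]
      rfl
    rw [h1, h2]
    refine HasDerivAt.fun_sum fun σ _ => HasDerivAt.const_mul _ (HasDerivAt.mul_const ?_ _)
    exact hasDerivAt_pull hα hcl halt y w s p _ _
  have hftc : ∀ p, P p 1 - P p 0 = ∫ s in (0 : ℝ)..1, K (p, s) := by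
    intro p
    have hci : Continuous (fun s : ℝ => K (p, s)) := hcK.comp (by fun_prop)
    rw [intervalIntegral.integral_eq_sub_of_hasDerivAt (fun s _ => hder p s)
      (hci.intervalIntegrable _ _)]
  have hP1 : ∀ p, pf e (update (fun m => toB (γ m p)) m₀ (toB (pull β y w 1 α p))) = P p 1 :=
    fun p => (hP p 1).symm
  have hP0 : ∀ p, pf e (update (fun m => toB (γ m p)) m₀ (toB (α p))) = P p 0 := by
    intro p
    rw [hP, h0]
  simp only [hP1, hP0, hftc]
  rw [mean_interval (bX := bX) (bZ := bZ) (f := fun p s => K (p, s)) hcK 0 1 zero_le_one]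
  have h10 : ∀ s : ℝ, mean bX bZ (fun p => K (p, s)) = 0 := by
    intro s
    have h11 : (fun p => K (p, s)) = fun p => pf e (update (fun m => toB (γ m p)) m₀
      (dEta (et β y w s α) p)) := funext fun p => hK (p, s)
    rw [h11]
    exact mean_stokes r γ m₀ (et β y w s α) hγ hγcl hγinv (contDiff_et hα y w s) (hinv.et y w s)
  simp only [h10]
  simp

end

end Pool.Agent.Y519.AS
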