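import Mathlib

/-!
# Quadratic functions that are constant on a lattice
-/

open Module Function Finset

namespace Pool.Agent.Y519.AS

variable {X : Type*} [AddCommGroup X] [Module ℝ X]

/-- the function is quadratic on every line -/
def IsQ (q : X → ℝ) : Prop :=
  ∀ t b, ∃ A B D : ℝ, ∀ s : ℝ, q (t + s • b) = A + B * s + D * s ^ 2

theorem IsQ.sum {ι : Type*} (s : Finset ι) (c : ι → ℝ) {q : ι → X → ℝ} (h : ∀ i ∈ s, IsQ (q i)) :
    IsQ (fun t => ∑ i ∈ s, c i * q i t) := by
  classical
  intro t b
  induction s using Finset.induction_on with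
  | empty => exact ⟨0, 0, 0, fun s => by simp⟩
  | insert a s ha ih =>
    obtain ⟨A, B, D, h1⟩ := ih (fun i hi => h i (Finset.mem_insert_of_mem hi))
    obtain ⟨A', B', D', h2⟩ := h a (Finset.mem_insert_self a s) t b
    refine ⟨A + c a * A', B + c a * B', D + c a * D', fun r => ?_⟩
    have h1' := h1 r
    simp only at h1' ⊢
    rw [Finset.sum_insert ha, h1', h2]
    ring

theorem quad_line {A B D C : ℝ} (h : ∀ n : ℤ, A + B * (n : ℝ) + D * (n : ℝ) ^ 2 = C) (s : ℝ) :
    A + B * s + D * s ^ 2 = C := by
  have h0 := h 0
  have h1 := h 1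
  have h2 := h (-1)
  push_cast at h0 h1 h2
  have hB : B = 0 := by linarith
  have hD : D = 0 := by linarith
  rw [hB, hD]
  linarith

/-- a function which is quadratic on lines and constant on a translated lattice is constant -/
theorem quad_const {κ : Type*} [Fintype κ] (b : Basis κ ℝ X) {q : X → ℝ} (hq : IsQ q) (C : ℝ)
    (y : X) (h : ∀ c : κ → ℤ, q (y + ∑ j, (c j : ℝ) • b j) = C) (t : X) : q t = C := by
  classical
  have key : ∀ s : Finset κ, ∀ c : κ → ℝ, (∀ j, j ∉ s → ∃ n : ℤ, c j = n) →
      q (y + ∑ j, c j • b j) = C := by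
    intro s
    induction s using Finset.induction_on with
    | empty =>
      intro c hc
      choose n hn using fun j => hc j (Finset.notMem_empty j)
      have h1 := h n
      simp only [← hn] at h1
      exact h1
    | insert a s ha ih =>
      intro c hc
      have hline : ∀ r : ℝ, y + ∑ j, (update c a r) j • b j
          = (y + ∑ j, (update c a 0) j • b j) + r • b a := by
        intro r
        rw [← Finset.add_sum_erase _ _ (Finset.mem_univ a),
          ← Finset.add_sum_erase _ (fun j => (update c a 0) j • b j) (Finset.mem_univ a)]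
        have h2 : ∑ j ∈ univ.erase a, (update c a r) j • b j
            = ∑ j ∈ univ.erase a, (update c a 0) j • b j := by
          refine Finset.sum_congr rfl fun j hj => ?_
          rw [update_of_ne (Finset.ne_of_mem_erase hj), update_of_ne (Finset.ne_of_mem_erase hj)]
        rw [h2, update_self, update_self, zero_smul, zero_add]
        abel
      obtain ⟨A, B, D, hABD⟩ := hq (y + ∑ j, (update c a 0) j • b j) (b a)
      have h3 : ∀ n : ℤ, A + B * (n : ℝ) + D * (n : ℝ) ^ 2 = C := by
        intro n
        rw [← hABD, ← hline]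
        refine ih _ fun j hj => ?_
        by_cases hja : j = a
        · exact ⟨n, by rw [hja, update_self]⟩
        · rw [update_of_ne hja]
          exact hc j (fun h => (Finset.mem_insert.1 h).elim hja hj)
      have h4 := quad_line h3 (c a)
      rw [← hABD, ← hline, update_eq_self] at h4
      exact h4
  have h5 := key Finset.univ (b.repr (t - y)) (fun j hj => absurd (Finset.mem_univ j) hj)
  rw [b.sum_repr] at h5
  rwa [add_sub_cancel] at h5

end Pool.Agent.Y519.AS
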