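import Mathlib
import Pool.Agent.Y519.AS.Homot
import Pool.Agent.Y519.AS.Quad

/-!
# Replacing an invariant closed form by its average
-/

open MeasureTheory Set Module Function Equiv Finset

set_option linter.unusedSectionVars false
set_option maxSynthPendingDepth 3

namespace Pool.Agent.Y519.AS

section
variable {X Z : Type*} [NormedAddCommGroup X] [NormedSpace ℝ X] [MeasurableSpace X] [BorelSpace X]
  [FiniteDimensional ℝ X] [NormedAddCommGroup Z] [NormedSpace ℝ Z] [MeasurableSpace Z]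
  [BorelSpace Z] [FiniteDimensional ℝ Z]
  {κ l : Type*} [Fintype κ] [Fintype l] {bX : Basis κ ℝ X} {bZ : Basis l ℝ Z}
  {β : X →L[ℝ] X →L[ℝ] Z}
  {ι : Type*} [Fintype ι] [DecidableEq ι]

variable (β) in
/-- the coefficients in the left invariant frame -/
noncomputable def co (α : X × Z → X × Z →L[ℝ] X × Z →L[ℝ] ℝ) (p u v : X × Z) : ℝ :=
  α p (Lm (β p.1) u) (Lm (β p.1) v)

variable (β) in
/-- the adjoint action -/
noncomputable def Ad (y : X) : X × Z →L[ℝ] X × Z := Lm (β.flip y - β y)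

theorem Ad_apply (y : X) (u : X × Z) : Ad β y u = (u.1, u.2 + (β u.1 y - β y u.1)) := rfl

variable (β) in
/-- the nilpotent part of the adjoint action -/
noncomputable def Nl (b : X) (u : X × Z) : X × Z := (0, β u.1 b - β b u.1)

theorem Ad_add_smul (t b : X) (s : ℝ) (u : X × Z) :
    Ad β (t + s • b) u = Ad β t u + s • Nl β b u := by
  rw [Ad_apply, Ad_apply, Nl]
  refine Prod.ext ?_ ?_
  · simp
  · simp only [map_add, map_smul, _root_.add_apply, _root_.smul_apply, Prod.snd_add,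
      Prod.smul_snd, smul_sub]
    abel

theorem co_pull (α : X × Z → X × Z →L[ℝ] X × Z →L[ℝ] ℝ) (y : X) (w : Z) (p u v : X × Z) :
    co β (pull β y w 1 α) p u v
      = co β α (p.1 + y, p.2 + (w + β p.1 y)) (Ad β y u) (Ad β y v) := by
  unfold co
  rw [pull_apply]
  have h1 : ph β y w 1 p = (p.1 + y, p.2 + (w + β p.1 y)) := by
    simp [ph, add_assoc]
  have h2 : ∀ u : X × Z, Ls β y 1 (Lm (β p.1) u) = Lm (β (p.1 + y)) (Ad β y u) := by
    intro u
    rw [Ls_apply, Ad_apply]
    refine Prod.ext rfl ?_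
    simp only [Lm_apply, one_smul, map_add, _root_.add_apply]
    abel
  rw [h1, h2, h2]

theorem co_add_left (α : X × Z → X × Z →L[ℝ] X × Z →L[ℝ] ℝ) (p u u' v : X × Z) :
    co β α p (u + u') v = co β α p u v + co β α p u' v := by
  simp only [co, map_add, _root_.add_apply]

theorem co_add_right (α : X × Z → X × Z →L[ℝ] X × Z →L[ℝ] ℝ) (p u v v' : X × Z) :
    co β α p u (v + v') = co β α p u v + co β α p u v' := by
  simp only [co, map_add]

theorem co_smul_left (α : X × Z → X × Z →L[ℝ] X × Z →L[ℝ] ℝ) (p : X × Z) (c : ℝ) (u v : X × Z) :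
    co β α p (c • u) v = c * co β α p u v := by
  simp only [co, map_smul, _root_.smul_apply, smul_eq_mul]

theorem co_smul_right (α : X × Z → X × Z →L[ℝ] X × Z →L[ℝ] ℝ) (p : X × Z) (c : ℝ) (u v : X × Z) :
    co β α p u (c • v) = c * co β α p u v := by
  simp only [co, map_smul, smul_eq_mul]

theorem continuous_Lm (u : X × Z) : Continuous (fun p : X × Z => Lm (β p.1) u) := by
  simp only [Lm_apply]
  have h : Continuous (fun p : X × Z => β p.1 u.1) := by fun_prop
  fun_prop

theorem continuous_co {α : X × Z → X × Z →L[ℝ] X × Z →L[ℝ] ℝ} (hα : Continuous α) (u v : X × Z) :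
    Continuous (fun p => co β α p u v) :=
  (hα.clm_apply (continuous_Lm u)).clm_apply (continuous_Lm v)

theorem invF_co {α : X × Z → X × Z →L[ℝ] X × Z →L[ℝ] ℝ} (h : Inv2 bX bZ β α) (u v : X × Z) :
    InvF bX bZ β (fun p => co β α p u v) := by
  refine ⟨fun j p => ?_, fun j p => ?_⟩
  · exact h.perz j p _ _
  · show co β α (p.1 + bX j, p.2 + β (bX j) p.1) u v = co β α p u v
    unfold co
    have h2 : ∀ u : X × Z, Lm (β (p.1 + bX j)) u = Lm (β (bX j)) (Lm (β p.1) u) := by
      intro u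
      refine Prod.ext rfl ?_
      simp only [Lm_apply, map_add, _root_.add_apply]
      abel
    simp only [h2]
    exact h.perx j p _ _

variable (β) in
/-- the average over the fibres -/
noncomputable def Ab (bZ : Basis l ℝ Z) (α : X × Z → X × Z →L[ℝ] X × Z →L[ℝ] ℝ) (x : X)
    (u v : X × Z) : ℝ := avg bZ (fun z => co β α (x, z) u v)

theorem continuous_Ab {α : X × Z → X × Z →L[ℝ] X × Z →L[ℝ] ℝ} (hα : Continuous α)
    (u v : X × Z) : Continuous (fun x => Ab β bZ α x u v) :=
  cont_inner (continuous_co hα u v)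

theorem Ab_add_left {α : X × Z → X × Z →L[ℝ] X × Z →L[ℝ] ℝ} (hα : Continuous α) (x : X)
    (u u' v : X × Z) : Ab β bZ α x (u + u') v = Ab β bZ α x u v + Ab β bZ α x u' v := by
  unfold Ab
  simp only [co_add_left]
  exact avg_add bZ (cont_slice (continuous_co hα u v) x) (cont_slice (continuous_co hα u' v) x)

theorem Ab_add_right {α : X × Z → X × Z →L[ℝ] X × Z →L[ℝ] ℝ} (hα : Continuous α) (x : X)
    (u v v' : X × Z) : Ab β bZ α x u (v + v') = Ab β bZ α x u v + Ab β bZ α x u v' := by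
  unfold Ab
  simp only [co_add_right]
  exact avg_add bZ (cont_slice (continuous_co hα u v) x) (cont_slice (continuous_co hα u v') x)

theorem Ab_smul_left (α : X × Z → X × Z →L[ℝ] X × Z →L[ℝ] ℝ) (x : X)
    (c : ℝ) (u v : X × Z) : Ab β bZ α x (c • u) v = c * Ab β bZ α x u v := by
  unfold Ab
  simp only [co_smul_left]
  exact avg_mul bZ c _

theorem Ab_smul_right (α : X × Z → X × Z →L[ℝ] X × Z →L[ℝ] ℝ) (x : X)
    (c : ℝ) (u v : X × Z) : Ab β bZ α x u (c • v) = c * Ab β bZ α x u v := by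
  unfold Ab
  simp only [co_smul_right]
  exact avg_mul bZ c _

theorem Ab_per {α : X × Z → X × Z →L[ℝ] X × Z →L[ℝ] ℝ} (h : Inv2 bX bZ β α) (u v : X × Z) :
    Per bX (fun x => Ab β bZ α x u v) := (invF_co h u v).inner_per

/-- lattice translations do not change the fibre averages -/
theorem Ab_lattice {α : X × Z → X × Z →L[ℝ] X × Z →L[ℝ] ℝ} (h : Inv2 bX bZ β α) (u v : X × Z)
    (x : X) (c : κ → ℤ) : Ab β bZ α (x + ∑ j, (c j : ℝ) • bX j) u v = Ab β bZ α x u v := by
  classical
  have h1 := Ab_per h u v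
  have hone : ∀ j (n : ℤ) x, Ab β bZ α (x + (n : ℝ) • bX j) u v = Ab β bZ α x u v := by
    intro j n
    induction n using Int.induction_on with
    | zero => intro x; simp
    | succ n ih =>
      intro x
      have h2 : x + (((n : ℤ) + 1 : ℤ) : ℝ) • bX j = (x + bX j) + ((n : ℤ) : ℝ) • bX j := by
        push_cast
        rw [add_smul, one_smul]
        abel
      rw [h2, ih]
      exact h1 j x
    | pred n ih =>
      intro x
      have h2 : x + ((-(n : ℤ) - 1 : ℤ) : ℝ) • bX j = (x - bX j) + ((-(n : ℤ) : ℤ) : ℝ) • bX j := by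
        push_cast
        rw [sub_smul, one_smul]
        abel
      rw [h2, ih]
      have h3 := h1 j (x - bX j)
      simp only [sub_add_cancel] at h3
      exact h3.symm
  have hall : ∀ s : Finset κ, ∀ x, Ab β bZ α (x + ∑ j ∈ s, (c j : ℝ) • bX j) u v
      = Ab β bZ α x u v := by
    intro s
    induction s using Finset.induction_on with
    | empty => intro x; simp
    | insert a s ha ih =>
      intro x
      rw [Finset.sum_insert ha, ← add_assoc, ih, hone]
  exact hall Finset.univ x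

theorem mean_quad {A B C D : X × Z → ℝ} (hA : Continuous A) (hB : Continuous B)
    (hC : Continuous C) (hD : Continuous D) (s : ℝ) :
    mean bX bZ (fun p => A p + s * (B p + C p) + s ^ 2 * D p)
      = mean bX bZ A + (mean bX bZ B + mean bX bZ C) * s + mean bX bZ D * s ^ 2 := by
  have h1 : Continuous (fun p => B p + C p) := hB.add hC
  have h2 : Continuous (fun p => s * (B p + C p)) := continuous_const.mul h1
  have h3 : Continuous (fun p => s ^ 2 * D p) := continuous_const.mul hD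
  have h4 : Continuous (fun p => A p + s * (B p + C p)) := hA.add h2
  rw [mean_add h4 h3, mean_add hA h2, mean_mul, mean_mul, mean_add hB hC]
  ring

/-- one slot of the mean, in terms of the coefficients -/
theorem mean_slot (r : κ ⊕ l ≃ ι × Fin 2) (γ : ι → X × Z → X × Z →L[ℝ] X × Z →L[ℝ] ℝ)
    (m₀ : ι) (α : X × Z → X × Z →L[ℝ] X × Z →L[ℝ] ℝ) (p : X × Z) :
    pf (eB bX bZ r) (update (fun m => toB (γ m p)) m₀ (toB (α p)))
      = ∑ σ : Perm (ι × Fin 2), ((Perm.sign σ : ℤ) : ℝ) *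
        (co β α p (eB bX bZ r (σ (m₀, 0))) (eB bX bZ r (σ (m₀, 1))) *
          ∏ m ∈ univ.erase m₀, co β (γ m) p (eB bX bZ r (σ (m, 0))) (eB bX bZ r (σ (m, 1)))) := by
  rw [← pf_eB_Lm r (β p.1)]
  unfold pf
  refine Finset.sum_congr rfl fun σ _ => ?_
  congr 1
  rw [← Finset.mul_prod_erase _ _ (Finset.mem_univ m₀)]
  congr 1
  · rw [LinearMap.compl₁₂_apply, update_self]
    rfl
  · refine Finset.prod_congr rfl fun m hm => ?_
    rw [LinearMap.compl₁₂_apply, update_of_ne (Finset.ne_of_mem_erase hm)]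
    rfl

/-- **The averaging theorem, one slot.** -/
theorem mean_slot_average (r : κ ⊕ l ≃ ι × Fin 2)
    (γ : ι → X × Z → X × Z →L[ℝ] X × Z →L[ℝ] ℝ)
    (m₀ : ι) (hγ : ∀ m, m ≠ m₀ → ContDiff ℝ 1 (γ m))
    (hγcl : ∀ m, m ≠ m₀ → IsCl (γ m)) (hγinv : ∀ m, m ≠ m₀ → Inv2 bX bZ β (γ m))
    {α : X × Z → X × Z →L[ℝ] X × Z →L[ℝ] ℝ}
    (hα : ContDiff ℝ 1 α) (hcl : IsCl α) (halt : ∀ p u, α p u u = 0) (hinv : Inv2 bX bZ β α) :
    mean bX bZ (fun p => pf (eB bX bZ r) (update (fun m => toB (γ m p)) m₀ (toB (α p))))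
      = ∑ σ : Perm (ι × Fin 2), ((Perm.sign σ : ℤ) : ℝ) *
        (mean bX bZ (fun p => co β α p (eB bX bZ r (σ (m₀, 0))) (eB bX bZ r (σ (m₀, 1)))) *
          mean bX bZ (fun p => ∏ m ∈ univ.erase m₀,
            co β (γ m) p (eB bX bZ r (σ (m, 0))) (eB bX bZ r (σ (m, 1))))) := by
  set e := eB bX bZ r with he
  obtain ⟨R, hR⟩ : ∃ R : Perm (ι × Fin 2) → X × Z → ℝ, ∀ σ p, R σ p =
    ∏ m ∈ univ.erase m₀, co β (γ m) p (e (σ (m, 0))) (e (σ (m, 1))) := ⟨_, fun _ _ => rfl⟩
  have hRc : ∀ σ, Continuous (R σ) := fun σ => by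
    have h1 : R σ = fun p => ∏ m ∈ univ.erase m₀, co β (γ m) p (e (σ (m, 0))) (e (σ (m, 1))) :=
      funext fun p => hR σ p
    rw [h1]
    refine continuous_finsetProd _ fun m hm => ?_
    exact continuous_co (hγ m (Finset.ne_of_mem_erase hm)).continuous _ _
  obtain ⟨F, hF⟩ : ∃ F : ℝ, F = mean bX bZ (fun p => pf e (update (fun m => toB (γ m p)) m₀
    (toB (α p)))) := ⟨_, rfl⟩
  simp only [← hR]
  rw [← hF]
  have hcα := hα.continuous
  -- Step 1
  have s1 : ∀ (y : X) (w : Z), ∑ σ : Perm (ι × Fin 2), ((Perm.sign σ : ℤ) : ℝ) *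
      mean bX bZ (fun p => co β α (p.1 + y, p.2 + (w + β p.1 y)) (Ad β y (e (σ (m₀, 0))))
        (Ad β y (e (σ (m₀, 1)))) * R σ p) = F := by
    intro y w
    have h1 := mean_pull r γ m₀ hγ hγcl hγinv hα hcl halt hinv y w
    rw [← he, ← hF] at h1
    rw [← h1]
    have h2 : (fun p => pf e (update (fun m => toB (γ m p)) m₀ (toB (pull β y w 1 α p))))
        = fun p => ∑ σ : Perm (ι × Fin 2), ((Perm.sign σ : ℤ) : ℝ) *
          (co β α (p.1 + y, p.2 + (w + β p.1 y)) (Ad β y (e (σ (m₀, 0))))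
        (Ad β y (e (σ (m₀, 1)))) * R σ p) := by
      funext p
      rw [he, mean_slot (β := β)]
      refine Finset.sum_congr rfl fun σ _ => ?_
      rw [co_pull, hR]
    rw [h2, mean_sum]
    · refine Finset.sum_congr rfl fun σ _ => ?_
      rw [mean_mul]
    · intro σ _
      refine continuous_const.mul (Continuous.mul ?_ (hRc σ))
      have h3 := continuous_co (β := β) hcα (Ad β y (e (σ (m₀, 0)))) (Ad β y (e (σ (m₀, 1))))
      exact h3.comp (by fun_prop)
  -- Step 2: average over the central translations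
  have s2 : ∀ y : X, ∑ σ : Perm (ι × Fin 2), ((Perm.sign σ : ℤ) : ℝ) *
      mean bX bZ (fun p => Ab β bZ α (p.1 + y) (Ad β y (e (σ (m₀, 0))))
        (Ad β y (e (σ (m₀, 1)))) * R σ p) = F := by
    intro y
    have h1 : avg bZ (fun w => ∑ σ : Perm (ι × Fin 2), ((Perm.sign σ : ℤ) : ℝ) *
      mean bX bZ (fun p => co β α (p.1 + y, p.2 + (w + β p.1 y)) (Ad β y (e (σ (m₀, 0))))
        (Ad β y (e (σ (m₀, 1)))) * R σ p)) = F := by
      simp only [s1 y]
      exact avg_const bZ F
    rw [← h1]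
    have hcc : ∀ σ, Continuous (uncurry fun (p : X × Z) (w : Z) =>
        co β α (p.1 + y, p.2 + (w + β p.1 y)) (Ad β y (e (σ (m₀, 0))))
        (Ad β y (e (σ (m₀, 1)))) * R σ p) := by
      intro σ
      have h3 := continuous_co (β := β) hcα (Ad β y (e (σ (m₀, 0)))) (Ad β y (e (σ (m₀, 1))))
      have h4 : Continuous (fun q : (X × Z) × Z =>
          co β α (q.1.1 + y, q.1.2 + (q.2 + β q.1.1 y)) (Ad β y (e (σ (m₀, 0))))
          (Ad β y (e (σ (m₀, 1)))) * R σ q.1) :=
        (h3.comp (by fun_prop)).mul ((hRc σ).comp (by fun_prop))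
      exact h4
    rw [avg_sum]
    · refine Finset.sum_congr rfl fun σ _ => ?_
      rw [avg_mul, ← mean_avg bZ (hcc σ)]
      congr 2
      funext p
      have h5 : (fun w => co β α (p.1 + y, p.2 + (w + β p.1 y)) (Ad β y (e (σ (m₀, 0))))
          (Ad β y (e (σ (m₀, 1)))) * R σ p)
          = fun w => R σ p * co β α (p.1 + y, w + (p.2 + β p.1 y)) (Ad β y (e (σ (m₀, 0))))
          (Ad β y (e (σ (m₀, 1)))) := by
        funext w
        rw [mul_comm, show p.2 + (w + β p.1 y) = w + (p.2 + β p.1 y) by abel]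
      rw [h5, avg_mul, mul_comm]
      congr 1
      exact (avg_translate bZ ((invF_co hinv _ _).perZ (p.1 + y)) (p.2 + β p.1 y)).symm
    · intro σ _
      refine continuous_const.mul ?_
      unfold mean
      have h6 : Continuous (uncurry fun (w : Z) (x : X) => avg bZ (fun z =>
          co β α (x + y, z + (w + β x y)) (Ad β y (e (σ (m₀, 0))))
          (Ad β y (e (σ (m₀, 1)))) * R σ (x, z))) := by
        have h7 : Continuous (uncurry fun (q : Z × X) (z : Z) =>
          co β α (q.2 + y, z + (q.1 + β q.2 y)) (Ad β y (e (σ (m₀, 0))))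
          (Ad β y (e (σ (m₀, 1)))) * R σ (q.2, z)) := by
          have h8 : Continuous (fun q : (Z × X) × Z => ((q.1.2, q.2), q.1.1)) := by fun_prop
          exact (hcc σ).comp h8
        exact continuous_avg bZ h7
      exact continuous_avg bX h6
  -- Step 3: the polynomial trick
  have s3 : ∀ y : X, ∑ σ : Perm (ι × Fin 2), ((Perm.sign σ : ℤ) : ℝ) *
      mean bX bZ (fun p => Ab β bZ α (p.1 + y) (e (σ (m₀, 0))) (e (σ (m₀, 1))) * R σ p) = F := by
    intro y
    have hcA : ∀ σ u v, Continuous (fun p : X × Z => Ab β bZ α (p.1 + y) u v * R σ p) := by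
      intro σ u v
      exact ((continuous_Ab hcα u v).comp (by fun_prop)).mul (hRc σ)
    have hQ : IsQ (fun t => ∑ σ : Perm (ι × Fin 2), ((Perm.sign σ : ℤ) : ℝ) *
      mean bX bZ (fun p => Ab β bZ α (p.1 + y) (Ad β t (e (σ (m₀, 0))))
        (Ad β t (e (σ (m₀, 1)))) * R σ p)) := by
      refine IsQ.sum _ _ fun σ _ => ?_
      intro t b
      set u := e (σ (m₀, 0)) with hu
      set v := e (σ (m₀, 1)) with hv
      refine ⟨mean bX bZ (fun p => Ab β bZ α (p.1 + y) (Ad β t u) (Ad β t v) * R σ p),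
        mean bX bZ (fun p => Ab β bZ α (p.1 + y) (Nl β b u) (Ad β t v) * R σ p)
        + mean bX bZ (fun p => Ab β bZ α (p.1 + y) (Ad β t u) (Nl β b v) * R σ p),
        mean bX bZ (fun p => Ab β bZ α (p.1 + y) (Nl β b u) (Nl β b v) * R σ p), fun s => ?_⟩
      rw [← mean_quad (hcA σ (Ad β t u) (Ad β t v)) (hcA σ (Nl β b u) (Ad β t v))
        (hcA σ (Ad β t u) (Nl β b v)) (hcA σ (Nl β b u) (Nl β b v)) s]
      show mean bX bZ _ = mean bX bZ _
      congr 1
      funext p
      rw [Ad_add_smul, Ad_add_smul, Ab_add_left hcα, Ab_add_right hcα, Ab_add_right hcα,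
        Ab_smul_left, Ab_smul_left, Ab_smul_right, Ab_smul_right]
      ring
    have h1 := quad_const bX hQ F y (fun c => by
      rw [← s2 (y + ∑ j, (c j : ℝ) • bX j)]
      refine Finset.sum_congr rfl fun σ _ => ?_
      congr 2
      funext p
      rw [← add_assoc, Ab_lattice hinv]) 0
    have hA0 : ∀ u : X × Z, Ad β 0 u = u := by
      intro u
      rw [Ad_apply]
      simp
    simp only [hA0] at h1
    exact h1
  -- Step 4: average over the base
  have h1 : avg bX (fun y => ∑ σ : Perm (ι × Fin 2), ((Perm.sign σ : ℤ) : ℝ) *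
      mean bX bZ (fun p => Ab β bZ α (p.1 + y) (e (σ (m₀, 0))) (e (σ (m₀, 1))) * R σ p)) = F := by
    simp only [s3]
    exact avg_const bX F
  rw [← h1]
  have hcc : ∀ σ, Continuous (uncurry fun (p : X × Z) (y : X) =>
      Ab β bZ α (p.1 + y) (e (σ (m₀, 0))) (e (σ (m₀, 1))) * R σ p) := by
    intro σ
    have h4 : Continuous (fun q : (X × Z) × X =>
        Ab β bZ α (q.1.1 + q.2) (e (σ (m₀, 0))) (e (σ (m₀, 1))) * R σ q.1) :=
      ((continuous_Ab hcα _ _).comp (by fun_prop)).mul ((hRc σ).comp (by fun_prop))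
    exact h4
  rw [avg_sum]
  · refine Finset.sum_congr rfl fun σ _ => ?_
    rw [avg_mul, ← mean_avg bX (hcc σ)]
    congr 1
    have h5 : ∀ p : X × Z, avg bX (fun y => Ab β bZ α (p.1 + y) (e (σ (m₀, 0))) (e (σ (m₀, 1)))
        * R σ p) = mean bX bZ (fun p => co β α p (e (σ (m₀, 0))) (e (σ (m₀, 1)))) * R σ p := by
      intro p
      have h6 : (fun y => Ab β bZ α (p.1 + y) (e (σ (m₀, 0))) (e (σ (m₀, 1))) * R σ p)
          = fun y => R σ p * Ab β bZ α (y + p.1) (e (σ (m₀, 0))) (e (σ (m₀, 1))) := by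
        funext y
        rw [mul_comm, add_comm p.1 y]
      rw [h6, avg_mul, mul_comm]
      congr 1
      exact avg_translate bX (Ab_per hinv _ _) p.1
    simp only [h5]
    exact mean_mul _ _
  · intro σ _
    refine continuous_const.mul ?_
    unfold mean
    have h6 : Continuous (uncurry fun (y : X) (x : X) => avg bZ (fun z =>
        Ab β bZ α (x + y) (e (σ (m₀, 0))) (e (σ (m₀, 1))) * R σ (x, z))) := by
      have h7 : Continuous (uncurry fun (q : X × X) (z : Z) =>
        Ab β bZ α (q.2 + q.1) (e (σ (m₀, 0))) (e (σ (m₀, 1))) * R σ (q.2, z)) := by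
        have h8 : Continuous (fun q : (X × X) × Z => ((q.1.2, q.2), q.1.1)) := by fun_prop
        exact (hcc σ).comp h8
      exact continuous_avg bZ h7
    exact continuous_avg bX h6

end

end Pool.Agent.Y519.AS
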