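import Mathlib
import Pool.Agent.Y519.AS.Aver

/-!
# The averaging theorem
-/

open MeasureTheory Set Module Function Equiv Finset

set_option linter.unusedSectionVars false
set_option maxSynthPendingDepth 3

namespace Pool.Agent.Y519.AS

section
variable {X Z : Type*} [NormedAddCommGroup X] [NormedSpace ℝ X] [MeasurableSpace X] [BorelSpace X]
  [FiniteDimensional ℝ X] [NormedAddCommGroup Z] [NormedSpace ℝ Z] [MeasurableSpace Z]
  [BorelSpace Z] [FiniteDimensional ℝ Z]
  {κ l : Type*} [Fintype κ] [Fintype l] {bX : Basis κ ℝ X} {bZ : Basis l ℝ Z}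
  {β : X →L[ℝ] X →L[ℝ] Z}
  {ι : Type*} [Fintype ι] [DecidableEq ι]

theorem exists_Bb {α : X × Z → X × Z →L[ℝ] X × Z →L[ℝ] ℝ} (hα : Continuous α) :
    ∃ B : X × Z →L[ℝ] X × Z →L[ℝ] ℝ, ∀ u v, B u v = mean bX bZ (fun p => co β α p u v) := by
  let f : (X × Z) →ₗ[ℝ] (X × Z) →ₗ[ℝ] ℝ := LinearMap.mk₂ ℝ
    (fun u v => mean bX bZ (fun p => co β α p u v))
    (by
      intro u u' v
      simp only [co_add_left]
      exact mean_add (continuous_co hα _ _) (continuous_co hα _ _))
    (by
      intro c u v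
      simp only [co_smul_left, smul_eq_mul]
      exact mean_mul _ _)
    (by
      intro u v v'
      simp only [co_add_right]
      exact mean_add (continuous_co hα _ _) (continuous_co hα _ _))
    (by
      intro c u v
      simp only [co_smul_right, smul_eq_mul]
      exact mean_mul _ _)
  refine ⟨LinearMap.toContinuousLinearMap
    ((LinearMap.toContinuousLinearMap : ((X × Z) →ₗ[ℝ] ℝ) ≃ₗ[ℝ] ((X × Z) →L[ℝ] ℝ)).toLinearMap ∘ₗ f),
    fun u v => rfl⟩

/-- the closedness condition for a left invariant two-form -/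
def CylB (β : X →L[ℝ] X →L[ℝ] Z) (B : X × Z →L[ℝ] X × Z →L[ℝ] ℝ) : Prop :=
  ∀ a b c : X × Z, B (0, β a.1 b.1 - β b.1 a.1) c + B (0, β b.1 c.1 - β c.1 b.1) a
    + B (0, β c.1 a.1 - β a.1 c.1) b = 0

theorem contDiff_LmB {n : WithTop ℕ∞} (u : X × Z) : ContDiff ℝ n (fun p : X × Z => Lm (β p.1) u) := by
  have h1 : ContDiff ℝ n (fun p : X × Z => β p.1 u.1) :=
    (((β.flip u.1).comp (ContinuousLinearMap.fst ℝ X Z)).contDiff)
  exact contDiff_const.prodMk (contDiff_const.add h1)

theorem hasFDerivAt_LmB (u p : X × Z) : HasFDerivAt (fun p : X × Z => Lm (β p.1) u)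
    ((0 : X × Z →L[ℝ] X).prod ((β.flip u.1).comp (ContinuousLinearMap.fst ℝ X Z))) p := by
  refine HasFDerivAt.prodMk (hasFDerivAt_const u.1 p) ?_
  exact (((β.flip u.1).comp (ContinuousLinearMap.fst ℝ X Z)).hasFDerivAt).const_add u.2

theorem contDiff_co {n : WithTop ℕ∞} {α : X × Z → X × Z →L[ℝ] X × Z →L[ℝ] ℝ}
    (hα : ContDiff ℝ n α) (u v : X × Z) : ContDiff ℝ n (fun p => co β α p u v) :=
  (hα.clm_apply (contDiff_LmB u)).clm_apply (contDiff_LmB v)

theorem fderiv_co {α : X × Z → X × Z →L[ℝ] X × Z →L[ℝ] ℝ} (hα : ContDiff ℝ 1 α)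
    (p b c v : X × Z) : fderiv ℝ (fun q => co β α q b c) p v
      = fderiv ℝ α p v (Lm (β p.1) b) (Lm (β p.1) c)
        + α p (0, β v.1 b.1) (Lm (β p.1) c) + α p (Lm (β p.1) b) (0, β v.1 c.1) := by
  have h1 : HasFDerivAt α (fderiv ℝ α p) p := (hα.differentiable (by simp) _).hasFDerivAt
  have h3 := (h1.clm_apply (hasFDerivAt_LmB (β := β) b p)).clm_apply
    (hasFDerivAt_LmB (β := β) c p)
  have h4 : fderiv ℝ (fun q => co β α q b c) p = _ := h3.fderiv
  rw [h4]
  simp [add_comm]

theorem mean_add3 {A B C : X × Z → ℝ} (hA : Continuous A) (hB : Continuous B)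
    (hC : Continuous C) :
    mean bX bZ (fun p => A p + B p + C p) = mean bX bZ A + mean bX bZ B + mean bX bZ C := by
  have h1 : Continuous (fun p => A p + B p) := hA.add hB
  rw [mean_add h1 hC, mean_add hA hB]

/-- the average of a closed invariant form is a closed left invariant form -/
theorem CylB_average {α : X × Z → X × Z →L[ℝ] X × Z →L[ℝ] ℝ}
    (hα : ContDiff ℝ 1 α) (hcl : IsCl α) (halt : ∀ p u, α p u u = 0) (hinv : Inv2 bX bZ β α)
    {B : X × Z →L[ℝ] X × Z →L[ℝ] ℝ}
    (hB : ∀ u v, B u v = mean bX bZ (fun p => co β α p u v)) : CylB β B := by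
  intro a b c
  have hanti : ∀ q a b, α q a b = - α q b a := by
    intro q a b
    have h7 := halt q (a + b)
    simp only [map_add, _root_.add_apply, halt, zero_add, add_zero] at h7
    linarith
  have hC : ∀ b c, ContDiff ℝ 1 (fun q => co β α q b c) := fun b c => contDiff_co hα b c
  have hzero : ∀ a b c : X × Z, mean bX bZ (fun p => fderiv ℝ (fun q => co β α q b c) p
      (Lm (β p.1) a)) = 0 := by
    intro a b c
    have hcf := (hC b c).continuous_fderiv (by simp)
    have h1 : (fun p : X × Z => fderiv ℝ (fun q => co β α q b c) p (Lm (β p.1) a))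
        = fun p => fderiv ℝ (fun q => co β α q b c) p (a.1, 0)
          + fderiv ℝ (fun q => co β α q b c) p (0, a.2 + β p.1 a.1) := by
      funext p
      rw [← map_add]
      congr 1
      refine Prod.ext ?_ ?_
      · simp
      · simp
    rw [h1, mean_add]
    · rw [mean_dx (hC b c) (invF_co hinv b c) a.1,
        mean_dz (hC b c) (invF_co hinv b c).perz (fun x => a.2 + β x a.1), add_zero]
    · exact hcf.clm_apply continuous_const
    · refine hcf.clm_apply ?_
      have h : Continuous (fun p : X × Z => β p.1 a.1) := by fun_prop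
      fun_prop
  have hL0 : ∀ (p : X × Z) (w : Z), Lm (β p.1) ((0, w) : X × Z) = (0, w) := by
    intro p w
    simp
  have hpt : ∀ p, fderiv ℝ (fun q => co β α q b c) p (Lm (β p.1) a)
      + fderiv ℝ (fun q => co β α q c a) p (Lm (β p.1) b)
      + fderiv ℝ (fun q => co β α q a b) p (Lm (β p.1) c)
      = co β α p (0, β a.1 b.1 - β b.1 a.1) c + co β α p (0, β b.1 c.1 - β c.1 b.1) a
        + co β α p (0, β c.1 a.1 - β a.1 c.1) b := by
    intro p
    rw [fderiv_co hα, fderiv_co hα, fderiv_co hα]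
    unfold co
    rw [hL0, hL0, hL0]
    have hs : ∀ (w w' : Z) (v : X × Z), α p (0, w - w') v = α p (0, w) v - α p (0, w') v := by
      intro w w' v
      have h5 : ((0, w - w') : X × Z) = (0, w) - (0, w') := by simp
      rw [h5, map_sub]
      rfl
    rw [hs, hs, hs]
    have h6 := hcl p (Lm (β p.1) a) (Lm (β p.1) b) (Lm (β p.1) c)
    have ha : (Lm (β p.1) a).1 = a.1 := rfl
    have hb : (Lm (β p.1) b).1 = b.1 := rfl
    have hc : (Lm (β p.1) c).1 = c.1 := rfl
    rw [ha, hb, hc]
    rw [hanti p (Lm (β p.1) b) (0, β a.1 c.1), hanti p (Lm (β p.1) c) (0, β b.1 a.1),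
      hanti p (Lm (β p.1) a) (0, β c.1 b.1)]
    linarith
  have hcc : ∀ u v, Continuous (fun p => co β α p u v) := fun u v => (hC u v).continuous
  have hcd : ∀ a b c : X × Z, Continuous (fun p => fderiv ℝ (fun q => co β α q b c) p
      (Lm (β p.1) a)) := by
    intro a b c
    exact ((hC b c).continuous_fderiv (by simp)).clm_apply (continuous_Lm a)
  rw [hB, hB, hB, ← mean_add3 (hcc _ _) (hcc _ _) (hcc _ _)]
  simp only [← hpt]
  rw [mean_add3 (hcd _ _ _) (hcd _ _ _) (hcd _ _ _), hzero, hzero, hzero]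
  simp

variable (β) in
/-- the left invariant form with coefficients `B` -/
noncomputable def lift (B : X × Z →L[ℝ] X × Z →L[ℝ] ℝ) (p : X × Z) :
    X × Z →L[ℝ] X × Z →L[ℝ] ℝ := B.bilinearComp (Lm (-β p.1)) (Lm (-β p.1))

theorem lift_apply (B : X × Z →L[ℝ] X × Z →L[ℝ] ℝ) (p u v : X × Z) :
    lift β B p u v = B (Lm (-β p.1) u) (Lm (-β p.1) v) := rfl

theorem Lm_neg_Lm (N : X →L[ℝ] Z) (u : X × Z) : Lm (-N) (Lm N u) = u := by
  refine Prod.ext rfl ?_
  simp

theorem co_lift (B : X × Z →L[ℝ] X × Z →L[ℝ] ℝ) (p u v : X × Z) :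
    co β (lift β B) p u v = B u v := by
  unfold co
  rw [lift_apply, Lm_neg_Lm, Lm_neg_Lm]

theorem hasFDerivAt_Lmn (u p : X × Z) : HasFDerivAt (fun p : X × Z => Lm (-β p.1) u)
    (-((0 : X × Z →L[ℝ] X).prod ((β.flip u.1).comp (ContinuousLinearMap.fst ℝ X Z)))) p := by
  have h1 : (fun p : X × Z => Lm (-β p.1) u) = fun p => (u.1, u.2 - β p.1 u.1) := by
    funext p
    simp [sub_eq_add_neg]
  rw [h1]
  have h2 : -((0 : X × Z →L[ℝ] X).prod ((β.flip u.1).comp (ContinuousLinearMap.fst ℝ X Z)))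
      = (0 : X × Z →L[ℝ] X).prod (-((β.flip u.1).comp (ContinuousLinearMap.fst ℝ X Z))) := by
    refine ContinuousLinearMap.ext fun v => ?_
    refine Prod.ext ?_ ?_
    · simp
    · simp
  rw [h2]
  refine HasFDerivAt.prodMk (hasFDerivAt_const u.1 p) ?_
  exact (((β.flip u.1).comp (ContinuousLinearMap.fst ℝ X Z)).hasFDerivAt).const_sub u.2

theorem contDiff_Lmn {n : WithTop ℕ∞} (u : X × Z) :
    ContDiff ℝ n (fun p : X × Z => Lm (-β p.1) u) := by
  have h0 : (fun p : X × Z => Lm (-β p.1) u) = fun p => (u.1, u.2 - β p.1 u.1) := by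
    funext p
    simp [sub_eq_add_neg]
  rw [h0]
  have h1 : ContDiff ℝ n (fun p : X × Z => β p.1 u.1) :=
    (((β.flip u.1).comp (ContinuousLinearMap.fst ℝ X Z)).contDiff)
  exact contDiff_const.prodMk (contDiff_const.sub h1)

theorem contDiff_lift {n : WithTop ℕ∞} (B : X × Z →L[ℝ] X × Z →L[ℝ] ℝ) :
    ContDiff ℝ n (lift β B) := by
  refine contDiff_form fun u v => ?_
  simp only [lift_apply]
  exact (B.contDiff.comp (contDiff_Lmn u)).clm_apply (contDiff_Lmn v)

theorem fderiv_lift (B : X × Z →L[ℝ] X × Z →L[ℝ] ℝ) (p a b c : X × Z) :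
    fderiv ℝ (lift β B) p a b c = -B (0, β a.1 b.1) (Lm (-β p.1) c)
      - B (Lm (-β p.1) b) (0, β a.1 c.1) := by
  rw [← fderiv_apply2 ((contDiff_lift (n := 1) B).differentiable (by simp) p)]
  simp only [lift_apply]
  have h1 := (B.hasFDerivAt (x := Lm (-β p.1) b)).comp p (hasFDerivAt_Lmn (β := β) b p)
  have h2 := h1.clm_apply (hasFDerivAt_Lmn (β := β) c p)
  have h4 : fderiv ℝ (fun q => B (Lm (-β q.1) b) (Lm (-β q.1) c)) p = _ := h2.fderiv
  rw [h4]
  have e1 : ((0, -β a.1 b.1) : X × Z) = -(0, β a.1 b.1) := by simp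
  have e2 : ((0, -β a.1 c.1) : X × Z) = -(0, β a.1 c.1) := by simp
  simp
  rw [sub_eq_add_neg, add_comm]

theorem IsCl_lift {B : X × Z →L[ℝ] X × Z →L[ℝ] ℝ} (hB : CylB β B) (halt : ∀ u, B u u = 0) :
    IsCl (lift β B) := by
  intro p a b c
  have hanti : ∀ a b, B a b = - B b a := by
    intro a b
    have h7 := halt (a + b)
    simp only [map_add, _root_.add_apply, halt, zero_add, add_zero] at h7
    linarith
  rw [fderiv_lift, fderiv_lift, fderiv_lift]
  have h := hB (Lm (-β p.1) a) (Lm (-β p.1) b) (Lm (-β p.1) c)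
  have ha : (Lm (-β p.1) a).1 = a.1 := rfl
  have hb : (Lm (-β p.1) b).1 = b.1 := rfl
  have hc : (Lm (-β p.1) c).1 = c.1 := rfl
  rw [ha, hb, hc] at h
  have hs : ∀ (w w' : Z) (v : X × Z), B (0, w - w') v = B (0, w) v - B (0, w') v := by
    intro w w' v
    have h5 : ((0, w - w') : X × Z) = (0, w) - (0, w') := by simp
    rw [h5, map_sub]
    rfl
  rw [hs, hs, hs] at h
  rw [hanti (Lm (-β p.1) b) (0, β a.1 c.1), hanti (Lm (-β p.1) c) (0, β b.1 a.1),
    hanti (Lm (-β p.1) a) (0, β c.1 b.1)]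
  linarith

theorem Inv2_lift (B : X × Z →L[ℝ] X × Z →L[ℝ] ℝ) : Inv2 bX bZ β (lift β B) := by
  refine ⟨fun j p u v => rfl, fun j p u v => ?_⟩
  rw [lift_apply, lift_apply]
  have h2 : ∀ u : X × Z, Lm (-β (p.1 + bX j)) (Lm (β (bX j)) u) = Lm (-β p.1) u := by
    intro u
    refine Prod.ext rfl ?_
    simp only [Lm_apply, map_add, _root_.add_apply, _root_.neg_apply, neg_add]
    abel
  rw [h2, h2]

/-- **The averaging theorem.** -/
theorem mean_all (r : κ ⊕ l ≃ ι × Fin 2) {α : X × Z → X × Z →L[ℝ] X × Z →L[ℝ] ℝ}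
    (hα : ContDiff ℝ 1 α) (hcl : IsCl α) (halt : ∀ p u, α p u u = 0) (hinv : Inv2 bX bZ β α)
    {B : X × Z →L[ℝ] X × Z →L[ℝ] ℝ}
    (hB : ∀ u v, B u v = mean bX bZ (fun p => co β α p u v)) :
    mean bX bZ (fun p => pf (eB bX bZ r) (fun _ => toB (α p)))
      = pf (eB bX bZ r) (fun _ => toB B) := by
  have hBalt : ∀ u, B u u = 0 := by
    intro u
    rw [hB]
    have : (fun p => co β α p u u) = fun _ => 0 := funext fun p => halt p _
    rw [this]
    exact mean_const 0
  have hBcyl := CylB_average hα hcl halt hinv hB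
  have hl1 : ContDiff ℝ 1 (lift β B) := contDiff_lift B
  have hl2 : IsCl (lift β B) := IsCl_lift hBcyl hBalt
  have hl3 : Inv2 bX bZ β (lift β B) := Inv2_lift B
  have hl4 : ∀ p u, lift β B p u u = 0 := fun p u => hBalt _
  have key : ∀ s : Finset ι, mean bX bZ (fun p => pf (eB bX bZ r)
      (fun m => toB ((if m ∈ s then lift β B else α) p)))
      = mean bX bZ (fun p => pf (eB bX bZ r) (fun _ => toB (α p))) := by
    intro s
    induction s using Finset.induction_on with
    | empty => simp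
    | insert a s ha ih =>
      rw [← ih]
      set γ : ι → X × Z → X × Z →L[ℝ] X × Z →L[ℝ] ℝ := fun m => if m ∈ s then lift β B else α
        with hγ
      have g1 : ∀ m, m ≠ a → ContDiff ℝ 1 (γ m) := by
        intro m _
        by_cases h : m ∈ s
        · simpa [hγ, h] using hl1
        · simpa [hγ, h] using hα
      have g2 : ∀ m, m ≠ a → IsCl (γ m) := by
        intro m _
        by_cases h : m ∈ s
        · simpa [hγ, h] using hl2
        · simpa [hγ, h] using hcl
      have g3 : ∀ m, m ≠ a → Inv2 bX bZ β (γ m) := by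
        intro m _
        by_cases h : m ∈ s
        · simpa [hγ, h] using hl3
        · simpa [hγ, h] using hinv
      have e1 := mean_slot_average r γ a g1 g2 g3 hα hcl halt hinv
      have e2 := mean_slot_average r γ a g1 g2 g3 hl1 hl2 hl4 hl3
      have e3 : ∀ p, (fun m => toB (γ m p)) = update (fun m => toB (γ m p)) a (toB (α p)) := by
        intro p
        have : γ a = α := by simp [hγ, ha]
        rw [← this, update_eq_self]
      have e4 : ∀ p, (fun m => toB ((if m ∈ insert a s then lift β B else α) p))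
          = update (fun m => toB (γ m p)) a (toB (lift β B p)) := by
        intro p
        funext m
        by_cases hm : m = a
        · subst hm
          simp
        · rw [update_of_ne hm]
          simp [hγ, hm]
      have e5 : (fun p => pf (eB bX bZ r) (fun m => toB ((if m ∈ insert a s then lift β B else α) p)))
          = fun p => pf (eB bX bZ r) (update (fun m => toB (γ m p)) a (toB (lift β B p))) :=
        funext fun p => by rw [e4]
      have e6 : (fun p => pf (eB bX bZ r) (fun m => toB (γ m p)))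
          = fun p => pf (eB bX bZ r) (update (fun m => toB (γ m p)) a (toB (α p))) :=
        funext fun p => by rw [← e3]
      rw [e5, e6, e1, e2]
      refine Finset.sum_congr rfl fun σ _ => ?_
      simp only [co_lift, mean_const, ← hB]
  have h1 := key Finset.univ
  rw [← h1]
  have h2 : ∀ p, pf (eB bX bZ r) (fun m => toB ((if m ∈ (Finset.univ : Finset ι)
      then lift β B else α) p)) = pf (eB bX bZ r) (fun _ => toB B) := by
    intro p
    simp only [Finset.mem_univ, if_true]
    rw [← pf_eB_Lm r (-β p.1) (fun _ => toB B)]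
    rfl
  simp only [h2]
  exact mean_const _

end

end Pool.Agent.Y519.AS
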