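import Mathlib
import Pool.Agent.Y519.AS.CLin
import Pool.Agent.Y519.AS.Avg2

/-!
# The sign of the top power of a closed left invariant two-form
-/

open Module Function Filter Topology

set_option linter.unusedSectionVars false
set_option maxSynthPendingDepth 3

namespace Pool.Agent.Y519.AS

theorem exists_betL : ∃ b : C3 →L[ℝ] C3 →L[ℝ] C3, ∀ x y, b x y = bet x y := by
  let f : C3 →ₗ[ℝ] C3 →ₗ[ℝ] C3 := LinearMap.mk₂ ℝ bet
    (by intro x x' y; ext i; fin_cases i <;> simp [bet] <;> ring)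
    (by intro c x y; ext i; fin_cases i <;> simp [bet] <;> ring)
    (by intro x y y'; ext i; fin_cases i <;> simp [bet] <;> ring)
    (by intro c x y; ext i; fin_cases i <;> simp [bet] <;> ring)
  refine ⟨LinearMap.toContinuousLinearMap
    ((LinearMap.toContinuousLinearMap : (C3 →ₗ[ℝ] C3) ≃ₗ[ℝ] (C3 →L[ℝ] C3)).toLinearMap ∘ₗ f),
    fun u v => rfl⟩

/-- the cocycle as a continuous bilinear map -/
noncomputable def betL : C3 →L[ℝ] C3 →L[ℝ] C3 := exists_betL.choose

@[simp] theorem betL_apply (x y : C3) : betL x y = bet x y := exists_betL.choose_spec x y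

/-- the two-form given by an endomorphism -/
noncomputable def Om (h : C3 →ₗ[ℝ] C3) : (C3 × C3) →ₗ[ℝ] (C3 × C3) →ₗ[ℝ] ℝ :=
  dot.compl₁₂ (LinearMap.snd ℝ C3 C3) (h ∘ₗ LinearMap.fst ℝ C3 C3)
    - (dot.compl₁₂ (LinearMap.snd ℝ C3 C3) (h ∘ₗ LinearMap.fst ℝ C3 C3)).flip

theorem Om_apply (h : C3 →ₗ[ℝ] C3) (u v : C3 × C3) :
    Om h u v = dot u.2 (h v.1) - dot v.2 (h u.1) := rfl

variable {ι : Type*} [Fintype ι] [DecidableEq ι]

theorem pf_Om (e : Basis (ι × Fin 2) ℝ (C3 × C3)) (h : C3 →ₗ[ℝ] C3) :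
    pf e (fun _ => Om h) = LinearMap.det h * pf e (fun _ => Om LinearMap.id) := by
  have h1 : (fun _ : ι => Om h) = fun _ => (Om LinearMap.id).compl₁₂
      (LinearMap.prodMap h LinearMap.id) (LinearMap.prodMap h LinearMap.id) := by
    funext _
    rfl
  rw [h1, pf_comp, LinearMap.det_prodMap, LinearMap.det_id, mul_one]

theorem det_real_nonneg (h : C3 →ₗ[ℂ] C3) : 0 ≤ LinearMap.det (h.restrictScalars ℝ) := by
  rw [LinearMap.det_restrictScalars, Algebra.norm_complex_apply]
  exact Complex.normSq_nonneg _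

theorem finrank_C3 : finrank ℝ C3 = 6 := by
  rw [finrank_pi_fintype]
  simp

/-- only the mixed part of the form matters -/
theorem pf_scale (hι : Fintype.card ι = 6) (e : Basis (ι × Fin 2) ℝ (C3 × C3))
    (B C D : (C3 × C3) →ₗ[ℝ] (C3 × C3) →ₗ[ℝ] ℝ)
    (hB : ∀ (t : ℝ) (u v : C3 × C3), B (t • u.1, u.2) (t • v.1, v.2) = t * (C u v + t * D u v)) :
    pf e (fun _ => B) = pf e (fun _ => C) := by
  have key : ∀ t : ℝ, t ≠ 0 → pf e (fun _ => C + t • D) = pf e (fun _ => B) := by
    intro t ht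
    have h1 : (fun _ : ι => B.compl₁₂ (LinearMap.prodMap (t • LinearMap.id) LinearMap.id)
        (LinearMap.prodMap (t • LinearMap.id) LinearMap.id)) = fun _ => t • (C + t • D) := by
      funext _
      refine LinearMap.ext fun u => LinearMap.ext fun v => ?_
      rw [LinearMap.compl₁₂_apply]
      exact hB t u v
    have h2 := pf_comp e (LinearMap.prodMap (t • LinearMap.id) LinearMap.id) (fun _ => B)
    rw [h1, LinearMap.det_prodMap, LinearMap.det_id, mul_one, LinearMap.det_smul,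
      LinearMap.det_id, mul_one, finrank_C3] at h2
    have h3 : pf e (fun _ : ι => t • (C + t • D)) = t ^ 6 * pf e (fun _ => C + t • D) := by
      rw [← pfM_apply, ← pfM_apply]
      have h4 := (pfM e).map_smul_univ (fun _ : ι => t) (fun _ => C + t • D)
      rw [h4]
      simp [hι]
    rw [h3] at h2
    exact mul_left_cancel₀ (pow_ne_zero 6 ht) h2
  have hcont : Continuous (fun t : ℝ => pf e (fun _ => C + t • D)) := by
    unfold pf
    refine continuous_finsetSum _ fun σ _ => continuous_const.mul ?_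
    refine continuous_finsetProd _ fun m _ => ?_
    simp only [LinearMap.add_apply, LinearMap.smul_apply, smul_eq_mul]
    fun_prop
  have h1 : Tendsto (fun t : ℝ => pf e (fun _ => C + t • D)) (𝓝[≠] 0)
      (𝓝 (pf e (fun _ => C + (0 : ℝ) • D))) := (hcont.tendsto 0).mono_left nhdsWithin_le_nhds
  have h2 : Tendsto (fun t : ℝ => pf e (fun _ => C + t • D)) (𝓝[≠] 0)
      (𝓝 (pf e (fun _ => B))) := by
    refine tendsto_const_nhds.congr' ?_
    filter_upwards [self_mem_nhdsWithin] with t ht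
    exact (key t ht).symm
  have h3 := tendsto_nhds_unique h1 h2
  rw [zero_smul, add_zero] at h3
  exact h3.symm

/-- **The sign theorem.** -/
theorem sign_theorem (hι : Fintype.card ι = 6) (e : Basis (ι × Fin 2) ℝ (C3 × C3))
    (B : C3 × C3 →L[ℝ] C3 × C3 →L[ℝ] ℝ) (hB : CylB betL B) (halt : ∀ u, B u u = 0) :
    0 ≤ pf e (fun _ => toB B) * pf e (fun _ => Om LinearMap.id) := by
  have hanti : ∀ a b, B a b = - B b a := by
    intro a b
    have h7 := halt (a + b)
    simp only [map_add, _root_.add_apply, halt, zero_add, add_zero] at h7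
    linarith
  have hcr : ∀ a b : C3, betL a b - betL b a = cr a b := fun a b => by
    rw [betL_apply, betL_apply]
    rfl
  have hB' : ∀ a b c : C3 × C3, B (0, cr a.1 b.1) c + B (0, cr b.1 c.1) a
      + B (0, cr c.1 a.1) b = 0 := by
    intro a b c
    have h := hB a b c
    simp only [hcr] at h
    exact h
  have hcr0 : ∀ a : C3, cr a 0 = 0 := by
    intro a
    rw [cr_eq]
    ext i
    fin_cases i <;> simp
  have hcr0' : ∀ a : C3, cr 0 a = 0 := by
    intro a
    rw [cr_eq]
    ext i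
    fin_cases i <;> simp
  have hz0 : ∀ v : C3 × C3, B ((0, 0) : C3 × C3) v = 0 := by
    intro v
    have h : ((0, 0) : C3 × C3) = 0 := rfl
    rw [h, map_zero]
    rfl
  -- the central part vanishes
  have hzz : ∀ (a b : C3) (z : C3), B (0, cr a b) (0, z) = 0 := by
    intro a b z
    have h := hB' (a, 0) (b, 0) (0, z)
    simp only [hcr0, hcr0', hz0, add_zero] at h
    exact h
  have hZZ : ∀ z z' : C3, B (0, z) (0, z') = 0 := by
    intro z z'
    have h0 : ∀ s, Ev 0 s = cr (Ev 1 s) (Ev 2 1) := fun s => by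
      rw [cr_eq]; unfold Ev; ext i; fin_cases i <;> simp
    have h1 : ∀ s, Ev 1 s = cr (Ev 2 s) (Ev 0 1) := fun s => by
      rw [cr_eq]; unfold Ev; ext i; fin_cases i <;> simp
    have h2 : ∀ s, Ev 2 s = cr (Ev 0 s) (Ev 1 1) := fun s => by
      rw [cr_eq]; unfold Ev; ext i; fin_cases i <;> simp
    have h3 : ((0, z) : C3 × C3) = (0, cr (Ev 1 (z 0)) (Ev 2 1)) + (0, cr (Ev 2 (z 1)) (Ev 0 1))
        + (0, cr (Ev 0 (z 2)) (Ev 1 1)) := by
      rw [← h0, ← h1, ← h2]
      refine Prod.ext ?_ ?_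
      · simp
      · exact sum_Ev z
    rw [h3]
    simp only [map_add, _root_.add_apply, hzz, add_zero]
  -- the mixed part
  let A : C3 →ₗ[ℝ] C3 →ₗ[ℝ] ℝ := (toB B).compl₁₂ (LinearMap.inr ℝ C3 C3) (LinearMap.inl ℝ C3 C3)
  have hA : ∀ z x, A z x = B (0, z) (x, 0) := fun z x => rfl
  have hT : ∀ a b c : C3, A (cr a b) c + A (cr b c) a + A (cr c a) b = 0 := by
    intro a b c
    rw [hA, hA, hA]
    exact hB' (a, 0) (b, 0) (c, 0)
  obtain ⟨h, hh⟩ := exists_complex hT
  let D : (C3 × C3) →ₗ[ℝ] (C3 × C3) →ₗ[ℝ] ℝ := (toB B).compl₁₂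
    (LinearMap.inl ℝ C3 C3 ∘ₗ LinearMap.fst ℝ C3 C3) (LinearMap.inl ℝ C3 C3 ∘ₗ LinearMap.fst ℝ C3 C3)
  have hD : ∀ u v, D u v = B (u.1, 0) (v.1, 0) := fun u v => rfl
  have hsplit : ∀ (x z x' z' : C3), B (x, z) (x', z')
      = dot z (h x') - dot z' (h x) + B (x, 0) (x', 0) := by
    intro x z x' z'
    have e1 : ((x, z) : C3 × C3) = (x, 0) + (0, z) := by simp
    have e2 : ((x', z') : C3 × C3) = (x', 0) + (0, z') := by simp
    rw [e1, e2]
    simp only [map_add, _root_.add_apply, hZZ]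
    rw [hanti (x, 0) (0, z'), ← hA, ← hA, hh, hh]
    ring
  have h1 : pf e (fun _ => toB B) = pf e (fun _ => Om (h.restrictScalars ℝ)) := by
    refine pf_scale hι e (toB B) (Om (h.restrictScalars ℝ)) D fun t u v => ?_
    rw [toB_apply, hsplit, Om_apply, hD]
    have e3 : ∀ x : C3, h (t • x) = t • h x := fun x => by
      have := (h.restrictScalars ℝ).map_smul t x
      exact this
    have e4 : ((t • u.1, 0) : C3 × C3) = t • (u.1, 0) := by simp
    have e5 : ((t • v.1, 0) : C3 × C3) = t • (v.1, 0) := by simp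
    rw [e3, e3, e4, e5]
    simp only [map_smul, _root_.smul_apply, smul_eq_mul, LinearMap.coe_restrictScalars]
    ring
  rw [h1, pf_Om, mul_assoc]
  exact mul_nonneg (det_real_nonneg h) (mul_self_nonneg _)

/-- the standard form is nondegenerate -/
theorem Om_nondeg {h : C3 →ₗ[ℝ] C3} (hinj : Function.Injective h) (u : C3 × C3)
    (hu : ∀ v, Om h u v = 0) : u = 0 := by
  have hsurj : Function.Surjective h := LinearMap.surjective_of_injective hinj
  have hdot : ∀ z : C3, (∀ x, dot z x = 0) → z = 0 := by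
    intro z hz
    ext i
    have h1 := hz (Ev i (starRingEnd ℂ (z i)))
    rw [dot_apply] at h1
    have h2 : z i * starRingEnd ℂ (z i) = (Complex.normSq (z i) : ℂ) := Complex.mul_conj _
    have h3 : (Complex.normSq (z i)) = 0 := by
      have h4 : (z 0 * Ev i ((starRingEnd ℂ) (z i)) 0 + z 1 * Ev i ((starRingEnd ℂ) (z i)) 1
          + z 2 * Ev i ((starRingEnd ℂ) (z i)) 2) = z i * starRingEnd ℂ (z i) := by
        unfold Ev
        fin_cases i <;> simp
      rw [h4, h2, Complex.ofReal_re] at h1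
      exact h1
    exact Complex.normSq_eq_zero.1 h3
  have hsymm : ∀ z x : C3, dot z x = dot x z := by
    intro z x
    rw [dot_apply, dot_apply]
    congr 1
    ring
  have h1 : u.2 = 0 := by
    refine hdot _ fun x => ?_
    obtain ⟨y, rfl⟩ := hsurj x
    have h2 := hu (y, 0)
    rw [Om_apply] at h2
    simpa using h2
  have h2 : h u.1 = 0 := by
    refine hdot _ fun x => ?_
    have h3 := hu (0, x)
    rw [Om_apply] at h3
    simp only [map_zero, zero_sub, neg_eq_zero] at h3
    rw [hsymm]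
    exact h3
  have h3 : u.1 = 0 := hinj (by rw [h2, map_zero])
  exact Prod.ext h3 h1

theorem Om_alt (h : C3 →ₗ[ℝ] C3) (u : C3 × C3) : Om h u u = 0 := by
  rw [Om_apply, sub_self]

end Pool.Agent.Y519.AS
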