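import Mathlib
import Pool.Agent.Y519.AS.Gam
import Pool.Agent.Y519.AS.Defs
import Pool.Agent.Y519.AS.Sign

/-!
# Two-forms on the nilmanifold and invariant two-forms on `ℂ³ × ℂ³`
-/

set_option maxSynthPendingDepth 3

open scoped Manifold ContDiff Topology
open Set Filter Module
open Pool.Agent.Helper831

namespace Pool.Agent.Y519.AS

/-- the model space -/
abbrev E12 : Type := C3 × C3

/-- a bilinear map as a continuous one -/
noncomputable def toCB (F : E12 →ₗ[ℝ] E12 →ₗ[ℝ] ℝ) : E12 →L[ℝ] E12 →L[ℝ] ℝ :=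
  LinearMap.toContinuousLinearMap
    ((LinearMap.toContinuousLinearMap : (E12 →ₗ[ℝ] ℝ) ≃ₗ[ℝ] (E12 →L[ℝ] ℝ)).toLinearMap ∘ₗ F)

@[simp] theorem toCB_apply (F : E12 →ₗ[ℝ] E12 →ₗ[ℝ] ℝ) (u v : E12) : toCB F u v = F u v := rfl

theorem toB_toCB (F : E12 →ₗ[ℝ] E12 →ₗ[ℝ] ℝ) : toB (toCB F) = F := rfl

/-- the derivative of the action -/
noncomputable def Dg (g : Gam) : E12 →L[ℝ] E12 := Lm (betL (Gam.toC g.a))

theorem Dg_apply (g : Gam) (u : E12) : Dg g u = (u.1, u.2 + bet (Gam.toC g.a) u.1) := by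
  simp [Dg]

theorem hasFDerivAt_smul (g : Gam) (y : E12) : HasFDerivAt (fun z : E12 => g • z) (Dg g) y := by
  have h1 : (fun z : E12 => g • z) = fun z => Dg g z + (Gam.toC g.a, Gam.toC g.b) := by
    funext z
    rw [Gam.smul_def, Dg_apply]
    refine Prod.ext rfl ?_
    show z.2 + Gam.toC g.b + bet (Gam.toC g.a) z.1 = z.2 + bet (Gam.toC g.a) z.1 + Gam.toC g.b
    abel
  rw [h1]
  exact (Dg g).hasFDerivAt.add_const _

theorem fderiv_smul' (g : Gam) (y : E12) : fderiv ℝ (fun z : E12 => g • z) y = Dg g :=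
  (hasFDerivAt_smul g y).fderiv

theorem Dg_mul (g h : Gam) (u : E12) : Dg (g * h) u = Dg g (Dg h u) := by
  rw [Dg_apply, Dg_apply, Dg_apply, Gam.mul_a, Gam.toC_add, Gam.bet_add_left]
  refine Prod.ext rfl ?_
  show u.2 + (bet (Gam.toC g.a) u.1 + bet (Gam.toC h.a) u.1)
    = u.2 + bet (Gam.toC h.a) u.1 + bet (Gam.toC g.a) u.1
  abel

theorem Dg_surj (g : Gam) : Function.Surjective (Dg g) := by
  intro u
  refine ⟨Dg g⁻¹ u, ?_⟩
  rw [← Dg_mul, mul_inv_cancel, Dg_apply, Gam.one_a, Gam.toC_zero, Gam.bet_zero_left]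
  simp

theorem Dg_inj (g : Gam) : Function.Injective (Dg g) := by
  intro u v h
  have h1 := congrArg (Dg g⁻¹) h
  rw [← Dg_mul, ← Dg_mul, inv_mul_cancel, Dg_apply, Dg_apply, Gam.one_a, Gam.toC_zero,
    Gam.bet_zero_left, Gam.bet_zero_left] at h1
  simpa using h1

section
variable (τ : TwoForm E12 Nil12)

/-- the form as a function to a fixed space -/
noncomputable def Wf (x : Nil12) : E12 →ₗ[ℝ] E12 →ₗ[ℝ] ℝ := τ.form x

/-- the derivative of the projection -/
noncomputable def dprC (y : E12) : E12 →L[ℝ] E12 :=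
  mfderiv 𝓘(ℝ, E12) 𝓘(ℝ, E12) (proj Gam : E12 → Nil12) y

/-- the derivative of the projection, as a linear map -/
noncomputable def dpr (y : E12) : E12 →ₗ[ℝ] E12 := (dprC y).toLinearMap

/-- the pull back of the form to the universal cover -/
noncomputable def pb (y u v : E12) : ℝ := Wf τ (proj Gam y) (dpr y u) (dpr y v)

/-- the pull back of the form to the universal cover, as a continuous form -/
noncomputable def pbF (y : E12) : E12 →L[ℝ] E12 →L[ℝ] ℝ :=
  toCB ((Wf τ (proj Gam y)).compl₁₂ (dpr y) (dpr y))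

theorem pbF_apply (y u v : E12) : pbF τ y u v = pb τ y u v := rfl

theorem coeff_eq {e : OpenPartialHomeomorph Nil12 E12} (he : e ∈ atlas E12 Nil12) (y u v : E12) :
    τ.coeff e y u v = pb τ y u v := by
  have h1 : (e.symm : E12 → Nil12) = proj Gam := by
    ext1 z
    exact symm_eq_proj he z
  unfold TwoForm.coeff coordVec
  rw [h1]
  rfl

theorem exists_delta (y : E12) : ∃ δ : Gam,
    (∀ᶠ z in 𝓝 y, chartAt E12 (proj Gam y : Nil12) (proj Gam z) = δ • z) ∧
      ∀ u, dpr y u = Dg δ u := by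
  obtain ⟨δ, hδ⟩ := chart_proj (chart_mem_atlas E12 (proj Gam y : Nil12))
    (mem_chart_source E12 (proj Gam y : Nil12))
  refine ⟨δ, hδ, fun u => ?_⟩
  have h1 := mfderiv_proj hδ u
  rw [fderiv_smul'] at h1
  exact h1

theorem pb_alt (y u : E12) : pb τ y u u = 0 := τ.alt _ _

theorem pb_inv (g : Gam) (y u v : E12) : pb τ (g • y) (Dg g u) (Dg g v) = pb τ y u v := by
  obtain ⟨δ, h1, h2⟩ := exists_delta y
  obtain ⟨δ', h1', h2'⟩ := exists_delta (g • y)
  have h3 : (proj Gam (g • y) : Nil12) = proj Gam y := proj_smul g y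
  have h4 : δ = δ' * g := by
    have e1 := h1.self_of_nhds
    have e2 := h1'.self_of_nhds
    rw [h3, e1, ← mul_smul] at e2
    exact IsCancelSMul.right_cancel _ _ _ e2
  unfold pb
  rw [h2, h2, h2', h2', h3, ← Dg_mul, ← Dg_mul, h4]

theorem pb_chart (y : E12) : ∃ δ : Gam, δ • y ∈ (chartAt E12 (proj Gam y : Nil12)).target := by
  obtain ⟨δ, h1, _⟩ := exists_delta y
  refine ⟨δ, ?_⟩
  rw [← h1.self_of_nhds]
  exact (chartAt E12 (proj Gam y : Nil12)).map_source (mem_chart_source E12 _)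

theorem contDiff_pbF (hs : τ.IsSmooth) : ContDiff ℝ ∞ (pbF τ) := by
  refine contDiff_form fun u v => ?_
  simp only [pbF_apply]
  rw [contDiff_iff_contDiffAt]
  intro y
  obtain ⟨δ, hδ⟩ := pb_chart y
  set e := chartAt E12 (proj Gam y : Nil12) with he
  have hea : e ∈ atlas E12 Nil12 := chart_mem_atlas E12 _
  have h1 : (fun z => pb τ z u v) = fun z => pb τ (δ • z) (Dg δ u) (Dg δ v) := by
    funext z
    exact (pb_inv τ δ z u v).symm
  rw [h1]
  have h2 : ContDiffAt ℝ ∞ (fun q => pb τ q (Dg δ u) (Dg δ v)) (δ • y) := by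
    have h3 := (hs e hea (Dg δ u) (Dg δ v)).contDiffAt (e.open_target.mem_nhds hδ)
    simp only [coeff_eq τ hea] at h3
    exact h3
  have h4 : ContDiffAt ℝ ∞ (fun z : E12 => δ • z) y := (SmoothConst.smooth δ).contDiffAt
  exact ContDiffAt.comp (g := fun q => pb τ q (Dg δ u) (Dg δ v)) (f := fun z : E12 => δ • z) y h2 h4

theorem isCl_pbF (hs : τ.IsSmooth) (hc : τ.IsClosedForm) : IsCl (pbF τ) := by
  have hC := contDiff_pbF τ hs
  have hd : Differentiable ℝ (pbF τ) := hC.differentiable (by simp)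
  intro y a b c
  obtain ⟨δ, hδ⟩ := pb_chart y
  set e := chartAt E12 (proj Gam y : Nil12) with he
  have hea : e ∈ atlas E12 Nil12 := chart_mem_atlas E12 _
  have h1 : ∀ a b c : E12, fderiv ℝ (pbF τ) (δ • y) a b c + fderiv ℝ (pbF τ) (δ • y) b c a
      + fderiv ℝ (pbF τ) (δ • y) c a b = 0 := by
    intro a b c
    have h2 := hc e hea (δ • y) hδ a b c
    rw [← fderiv_apply2 (hd _), ← fderiv_apply2 (hd _), ← fderiv_apply2 (hd _)]
    simp only [pbF_apply, ← coeff_eq τ hea]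
    exact h2
  have h3 : ∀ a b c : E12, fderiv ℝ (pbF τ) y a b c
      = fderiv ℝ (pbF τ) (δ • y) (Dg δ a) (Dg δ b) (Dg δ c) := by
    intro a b c
    rw [← fderiv_apply2 (hd _)]
    have h4 : (fun q => pbF τ q b c) = (fun q => pbF τ q (Dg δ b) (Dg δ c)) ∘ fun z => δ • z := by
      funext z
      exact (pb_inv τ δ z b c).symm
    obtain ⟨L, h5, h6⟩ := hasFDerivAt_apply2 (hd (δ • y)) (Dg δ b) (Dg δ c)
    rw [h4, (h5.comp y (hasFDerivAt_smul δ y)).fderiv, ContinuousLinearMap.comp_apply, h6]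
  rw [h3, h3, h3]
  exact h1 _ _ _

theorem pb_nondeg (hn : τ.IsNondegenerate) (y u : E12) (h : ∀ v, pb τ y u v = 0) : u = 0 := by
  obtain ⟨δ, _, h2⟩ := exists_delta y
  have h3 : Dg δ u = 0 := by
    refine hn (proj Gam y) (Dg δ u) fun w => ?_
    obtain ⟨v, hv⟩ := Dg_surj δ w
    have h4 := h v
    unfold pb at h4
    rw [h2, h2] at h4
    rw [← hv]
    exact h4
  exact Dg_inj δ (by rw [h3, map_zero])

end

/-- The 2-form on the quotient induced by an invariant one. -/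
noncomputable def quotTwo (A : E12 → E12 →L[ℝ] E12 →L[ℝ] ℝ) (halt : ∀ p u, A p u u = 0) :
    TwoForm E12 Nil12 where
  form := fun x => toB (A (chartAt E12 x x))
  alt := fun _ v => halt _ v

theorem quotTwo_coeff (A : E12 → E12 →L[ℝ] E12 →L[ℝ] ℝ) (halt : ∀ p u, A p u u = 0)
    (hinv : ∀ g p u v, A (g • p) (Dg g u) (Dg g v) = A p u v)
    {e : OpenPartialHomeomorph Nil12 E12} (he : e ∈ atlas E12 Nil12) (y u w : E12) :
    (quotTwo A halt).coeff e y u w = A y u w := by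
  obtain ⟨δ, h1, h2⟩ := coordVec_quot he y
  have h3 : (A (chartAt E12 (e.symm y) (e.symm y)) (coordVec e y u : E12)
      (coordVec e y w : E12) : ℝ) = A y u w := by
    rw [h1, h2, h2, fderiv_smul', hinv]
  exact h3

theorem quotTwo_smooth (A : E12 → E12 →L[ℝ] E12 →L[ℝ] ℝ) (halt : ∀ p u, A p u u = 0)
    (hinv : ∀ g p u v, A (g • p) (Dg g u) (Dg g v) = A p u v) (hA : ContDiff ℝ ∞ A) :
    (quotTwo A halt).IsSmooth := by
  intro e he u w
  simp only [quotTwo_coeff A halt hinv he]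
  exact ((hA.clm_apply contDiff_const).clm_apply contDiff_const).contDiffOn

theorem quotTwo_closed (A : E12 → E12 →L[ℝ] E12 →L[ℝ] ℝ) (halt : ∀ p u, A p u u = 0)
    (hinv : ∀ g p u v, A (g • p) (Dg g u) (Dg g v) = A p u v) (hA : ContDiff ℝ ∞ A)
    (hcl : IsCl A) : (quotTwo A halt).IsClosedForm := by
  intro e he y _ a b c
  simp only [quotTwo_coeff A halt hinv he]
  have hd := hA.differentiable (by simp) y
  rw [fderiv_apply2 hd, fderiv_apply2 hd, fderiv_apply2 hd]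
  exact hcl y a b c

theorem quotTwo_nondeg (A : E12 → E12 →L[ℝ] E12 →L[ℝ] ℝ) (halt : ∀ p u, A p u u = 0)
    (hnd : ∀ p u, (∀ v, A p u v = 0) → u = 0) : (quotTwo A halt).IsNondegenerate :=
  fun _ v h => hnd _ v h

theorem lift_inv (B : E12 →L[ℝ] E12 →L[ℝ] ℝ) (g : Gam) (p u v : E12) :
    lift betL B (g • p) (Dg g u) (Dg g v) = lift betL B p u v := by
  rw [lift_apply, lift_apply]
  have h : ∀ u : E12, Lm (-betL (g • p).1) (Dg g u) = Lm (-betL p.1) u := by
    intro u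
    rw [Gam.smul_def, Dg_apply]
    refine Prod.ext rfl ?_
    simp only [Lm_apply, map_add, _root_.add_apply, _root_.neg_apply, betL_apply, neg_add]
    abel
  rw [h, h]

theorem lift_nondeg {B : E12 →L[ℝ] E12 →L[ℝ] ℝ} (hB : ∀ u, (∀ v, B u v = 0) → u = 0)
    (p u : E12) (h : ∀ v, lift betL B p u v = 0) : u = 0 := by
  have h1 : Lm (-betL p.1) u = 0 := by
    refine hB _ fun v => ?_
    have h2 := h (Lm (betL p.1) v)
    rw [lift_apply, Lm_neg_Lm] at h2
    exact h2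
  have h3 : Lm (betL p.1) (Lm (-betL p.1) u) = u := by
    refine Prod.ext rfl ?_
    simp
  rw [← h3, h1, map_zero]

end Pool.Agent.Y519.AS
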