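import Mathlib
import Pool.Agent.Y519.AS.Forms

/-!
# Closed two-forms on the nilmanifold have a top power of constant sign
-/

set_option maxSynthPendingDepth 3

open scoped Manifold ContDiff Topology
open Set Filter Module
open Pool.Agent.Helper831

namespace Pool.Agent.Y519.AS

/-- the index set of the real basis of `ℂ³` -/
abbrev K6 : Type := (_ : Fin 3) × Fin 2

/-- the real basis of `ℂ³` -/
noncomputable def bC : Basis K6 ℝ C3 := Pi.basis (fun _ => Complex.basisOneI)

theorem bC_lattice (j : K6) : ∃ g : Fin 3 → GaussianInt, Gam.toC g = bC j := by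
  obtain ⟨i, k⟩ := j
  refine ⟨Pi.single i (if k = 0 then 1 else ⟨0, 1⟩), ?_⟩
  have h1 : bC ⟨i, k⟩ = Pi.single i (Complex.basisOneI k) := Pi.basis_apply _ _
  rw [h1]
  funext m
  unfold Gam.toC
  by_cases hm : m = i
  · subst hm
    rw [Pi.single_eq_same, Pi.single_eq_same]
    fin_cases k
    · simp
    · simp [GaussianInt.toComplex_def']
  · rw [Pi.single_eq_of_ne hm, Pi.single_eq_of_ne hm]
    exact GaussianInt.toComplex_zero

theorem exists_r : Nonempty (K6 ⊕ K6 ≃ Fin 6 × Fin 2) := by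
  refine ⟨Fintype.equivOfCardEq ?_⟩
  simp

/-- an enumeration of the basis -/
noncomputable def rr : K6 ⊕ K6 ≃ Fin 6 × Fin 2 := exists_r.some

/-- the basis of the model space -/
noncomputable def e12 : Basis (Fin 6 × Fin 2) ℝ E12 := eB bC bC rr

theorem inv2_pbF (τ : TwoForm E12 Nil12) : Inv2 bC bC betL (pbF τ) := by
  refine ⟨fun j p u v => ?_, fun j p u v => ?_⟩
  · obtain ⟨g, hg⟩ := bC_lattice j
    have h := pb_inv τ ⟨0, g⟩ p u v
    rw [Dg_apply, Dg_apply, Gam.smul_def] at h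
    simp only [Gam.toC_zero, Gam.bet_zero_left, add_zero, hg] at h
    exact h
  · obtain ⟨g, hg⟩ := bC_lattice j
    have h := pb_inv τ ⟨g, 0⟩ p u v
    rw [Dg_apply, Dg_apply, Gam.smul_def] at h
    simp only [Gam.toC_zero, add_zero, hg] at h
    rw [pbF_apply, pbF_apply, ← h, Lm_apply, Lm_apply, betL_apply, betL_apply, betL_apply]

theorem pf_Dg (g : Gam) (B : Fin 6 → E12 →ₗ[ℝ] E12 →ₗ[ℝ] ℝ) :
    pf e12 (fun m => (B m).compl₁₂ (Dg g : E12 →ₗ[ℝ] E12) (Dg g : E12 →ₗ[ℝ] E12)) = pf e12 B :=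
  pf_eB_Lm rr _ B

theorem pf_pbF_smul (τ : TwoForm E12 Nil12) (g : Gam) (y : E12) :
    pf e12 (fun _ => toB (pbF τ (g • y))) = pf e12 (fun _ => toB (pbF τ y)) := by
  rw [← pf_Dg g]
  congr 1
  funext _
  refine LinearMap.ext fun u => LinearMap.ext fun v => ?_
  exact pb_inv τ g y u v

theorem pf_lift (B : E12 →L[ℝ] E12 →L[ℝ] ℝ) (y : E12) :
    pf e12 (fun _ => toB (lift betL B y)) = pf e12 (fun _ => toB B) :=
  pf_eB_Lm rr (-betL y.1) (fun _ => toB B)

/-- the reference sign -/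
noncomputable def sgn : ℝ := pf e12 (fun _ => Om LinearMap.id)

theorem sgn_ne : sgn ≠ 0 :=
  pf_ne_zero e12 (Om LinearMap.id) (fun v => Om_alt _ v)
    (fun u hu => Om_nondeg (h := LinearMap.id) Function.injective_id u hu)

theorem continuous_pf {τ : TwoForm E12 Nil12} (hs : τ.IsSmooth) :
    Continuous (fun p => pf e12 (fun _ => toB (pbF τ p))) := by
  unfold pf
  refine continuous_finsetSum _ fun σ _ => continuous_const.mul ?_
  refine continuous_finsetProd _ fun m _ => ?_
  have h := (contDiff_pbF τ hs).continuous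
  exact (h.clm_apply continuous_const).clm_apply continuous_const

/-- **Closed two-forms.** The sign of the top power of a closed two-form on the nilmanifold is not
everywhere opposite to the reference sign. -/
theorem not_all_neg (τ : TwoForm E12 Nil12) (hs : τ.IsSmooth) (hc : τ.IsClosedForm) :
    ¬ ∀ p, pf e12 (fun _ => toB (pbF τ p)) * sgn < 0 := by
  intro hneg
  have hC := contDiff_pbF τ hs
  have hC1 : ContDiff ℝ 1 (pbF τ) := hC.of_le (by simp)
  have hcl := isCl_pbF τ hs hc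
  have hinv := inv2_pbF τ
  obtain ⟨B, hB⟩ := exists_Bb (bX := bC) (bZ := bC) (β := betL) hC1.continuous
  have halt : ∀ p u, pbF τ p u u = 0 := fun p u => pb_alt τ p u
  have h1 := mean_all (bX := bC) (bZ := bC) (β := betL) rr hC1 hcl halt hinv hB
  have hBalt : ∀ u, B u u = 0 := by
    intro u
    rw [hB]
    have : (fun p => co betL (pbF τ) p u u) = fun _ => 0 := funext fun p => halt p _
    rw [this]
    exact mean_const 0
  have h2 := sign_theorem (ι := Fin 6) (by simp) e12 B (CylB_average hC1 hcl halt hinv hB) hBalt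
  have hcont := continuous_pf hs
  have h3 : 0 < mean bC bC (fun p => (-sgn) * pf e12 (fun _ => toB (pbF τ p))) := by
    refine mean_pos (continuous_const.mul hcont) fun p => ?_
    have := hneg p
    linarith
  rw [mean_mul] at h3
  have h4 : mean bC bC (fun p => pf e12 (fun _ => toB (pbF τ p))) = pf e12 (fun _ => toB B) := h1
  rw [h4] at h3
  have h5 : 0 ≤ pf e12 (fun _ => toB B) * sgn := h2
  linarith

/-- a reflection -/
noncomputable def refl : E12 →ₗ[ℝ] E12 :=
  Matrix.toLin e12 e12 (Matrix.diagonal fun i => if i = (0, 0) then (-1 : ℝ) else 1)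

theorem det_refl : LinearMap.det refl = -1 := by
  unfold refl
  rw [LinearMap.det_toLin, Matrix.det_diagonal, Finset.prod_ite_eq']
  simp

theorem refl_refl (u : E12) : refl (refl u) = u := by
  have h : refl ∘ₗ refl = LinearMap.id := by
    unfold refl
    rw [← Matrix.toLin_mul, Matrix.diagonal_mul_diagonal]
    have h2 : (fun i : Fin 6 × Fin 2 => (if i = (0, 0) then (-1 : ℝ) else 1) *
        (if i = (0, 0) then (-1 : ℝ) else 1)) = fun _ => 1 := by
      funext i
      by_cases hi : i = (0, 0)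
      · simp [hi]
      · simp [hi]
    rw [h2, Matrix.diagonal_one, Matrix.toLin_one]
  exact congrArg (fun f : E12 →ₗ[ℝ] E12 => f u) h

/-- the bilinear form of the opposite orientation -/
noncomputable def B1 : E12 →L[ℝ] E12 →L[ℝ] ℝ := toCB ((Om LinearMap.id).compl₁₂ refl refl)

theorem B1_apply (u v : E12) : B1 u v = Om LinearMap.id (refl u) (refl v) := by
  unfold B1
  rw [toCB_apply, LinearMap.compl₁₂_apply]

theorem B1_alt (u : E12) : B1 u u = 0 := by
  rw [B1_apply]
  exact Om_alt _ _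

theorem lift_alt {B : E12 →L[ℝ] E12 →L[ℝ] ℝ} (hB : ∀ u, B u u = 0) (p u : E12) :
    lift betL B p u u = 0 := hB _

theorem B1_nondeg (u : E12) (h : ∀ v, B1 u v = 0) : u = 0 := by
  have h1 : refl u = 0 := by
    refine Om_nondeg (h := LinearMap.id) Function.injective_id _ fun v => ?_
    have h2 := h (refl v)
    rw [B1_apply, refl_refl] at h2
    exact h2
  rw [← refl_refl u, h1, map_zero]

theorem pf_B1 : pf e12 (fun _ => toB B1) = - sgn := by
  have h := pf_comp e12 refl (fun _ => Om LinearMap.id)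
  rw [det_refl] at h
  unfold B1 sgn
  rw [toB_toCB, h]
  ring

/-- the almost symplectic structure -/
noncomputable def tau0 : TwoForm E12 Nil12 := quotTwo (lift betL B1) (lift_alt B1_alt)

theorem tau0_smooth : tau0.IsSmooth :=
  quotTwo_smooth (lift betL B1) (lift_alt B1_alt) (fun g p u v => lift_inv B1 g p u v) (contDiff_lift B1)

theorem tau0_nondeg : tau0.IsNondegenerate :=
  quotTwo_nondeg (lift betL B1) (lift_alt B1_alt) (fun p u h => lift_nondeg B1_nondeg p u h)

theorem pbF_tau0 (y : E12) : pbF tau0 y = lift betL B1 y := by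
  refine ContinuousLinearMap.ext fun u => ContinuousLinearMap.ext fun v => ?_
  rw [pbF_apply, ← coeff_eq tau0 (chart_mem_atlas E12 (proj Gam y : Nil12))]
  exact quotTwo_coeff (lift betL B1) (lift_alt B1_alt) (fun g p u v => lift_inv B1 g p u v)
    (chart_mem_atlas E12 (proj Gam y : Nil12)) y u v

/-- the linear map `(x₁, x₂, x₃) ↦ (x₁, x₂, -2 x₃)` -/
noncomputable def h0 : C3 →ₗ[ℝ] C3 where
  toFun x := ![x 0, x 1, -2 * x 2]
  map_add' x y := by
    funext i
    fin_cases i <;> simp <;> ring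
  map_smul' c x := by
    funext i
    fin_cases i <;> simp <;> ring

theorem h0_apply (x : C3) : h0 x = ![x 0, x 1, -2 * x 2] := rfl

theorem h0_inj : Function.Injective h0 := by
  intro x y h
  rw [h0_apply, h0_apply] at h
  have e0 := congrFun h 0
  have e1 := congrFun h 1
  have e2 := congrFun h 2
  simp at e0 e1 e2
  funext i
  fin_cases i
  · exact e0
  · exact e1
  · exact e2

/-- the bilinear form of a symplectic form -/
noncomputable def B2 : E12 →L[ℝ] E12 →L[ℝ] ℝ := toCB (Om h0)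

theorem B2_apply (u v : E12) : B2 u v = dot u.2 (h0 v.1) - dot v.2 (h0 u.1) := by
  unfold B2
  rw [toCB_apply, Om_apply]

theorem B2_closed : CylB betL B2 := by
  intro a b c
  have hcr : ∀ a b : C3, betL a b - betL b a = cr a b := fun a b => by
    rw [betL_apply, betL_apply]
    rfl
  rw [hcr, hcr, hcr, B2_apply, B2_apply, B2_apply]
  simp only [map_zero, sub_zero]
  rw [dot_apply, dot_apply, dot_apply, h0_apply, h0_apply, h0_apply, cr_eq, cr_eq, cr_eq,
    ← Complex.add_re, ← Complex.add_re]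
  simp only [Matrix.cons_val_zero, Matrix.cons_val_one, Matrix.cons_val]
  have h : (a.1 1 * b.1 2 - b.1 1 * a.1 2) * c.1 0 + (a.1 2 * b.1 0 - b.1 2 * a.1 0) * c.1 1 +
        (a.1 0 * b.1 1 - b.1 0 * a.1 1) * (-2 * c.1 2) +
      ((b.1 1 * c.1 2 - c.1 1 * b.1 2) * a.1 0 + (b.1 2 * c.1 0 - c.1 2 * b.1 0) * a.1 1 +
        (b.1 0 * c.1 1 - c.1 0 * b.1 1) * (-2 * a.1 2)) +
      ((c.1 1 * a.1 2 - a.1 1 * c.1 2) * b.1 0 + (c.1 2 * a.1 0 - a.1 2 * c.1 0) * b.1 1 +
        (c.1 0 * a.1 1 - a.1 0 * c.1 1) * (-2 * b.1 2)) = 0 := by ring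
  rw [h]
  exact Complex.zero_re

theorem B2_alt (u : E12) : B2 u u = 0 := by
  unfold B2
  rw [toCB_apply]
  exact Om_alt _ _

theorem B2_nondeg (u : E12) (h : ∀ v, B2 u v = 0) : u = 0 := by
  refine Om_nondeg h0_inj u fun v => ?_
  have h1 := h v
  unfold B2 at h1
  rwa [toCB_apply] at h1

/-- the symplectic form -/
noncomputable def tau2 : TwoForm E12 Nil12 := quotTwo (lift betL B2) (lift_alt B2_alt)

theorem tau2_symplectic : tau2.IsSymplectic :=
  ⟨quotTwo_smooth (lift betL B2) (lift_alt B2_alt) (fun g p u v => lift_inv B2 g p u v)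
      (contDiff_lift B2),
    quotTwo_closed (lift betL B2) (lift_alt B2_alt) (fun g p u v => lift_inv B2 g p u v)
      (contDiff_lift B2) (IsCl_lift B2_closed B2_alt),
    quotTwo_nondeg (lift betL B2) (lift_alt B2_alt) (fun p u h => lift_nondeg B2_nondeg p u h)⟩

/-- the sign of the top power does not change along a path of nondegenerate forms -/
theorem sign_path (τ : ℝ → TwoForm E12 Nil12)
    (hn : ∀ t ∈ Icc (0 : ℝ) 1, (τ t).IsNondegenerate)
    (hcont : ∀ e ∈ atlas E12 Nil12, ∀ u w : E12,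
      ContinuousOn (fun q : ℝ × E12 => (τ q.1).coeff e q.2 u w) (Icc (0 : ℝ) 1 ×ˢ e.target))
    (y : E12) : 0 < pf e12 (fun _ => toB (pbF (τ 0) y)) * pf e12 (fun _ => toB (pbF (τ 1) y)) := by
  obtain ⟨δ, hδ⟩ := pb_chart y
  rw [← pf_pbF_smul (τ 0) δ y, ← pf_pbF_smul (τ 1) δ y]
  set e := chartAt E12 (proj Gam y : Nil12) with he
  have hea : e ∈ atlas E12 Nil12 := chart_mem_atlas E12 _
  obtain ⟨f, hf⟩ : ∃ f : ℝ → ℝ, ∀ t, f t = pf e12 (fun _ => toB (pbF (τ t) (δ • y))) :=
    ⟨_, fun _ => rfl⟩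
  rw [← hf, ← hf]
  have hfc : ContinuousOn f (Icc (0 : ℝ) 1) := by
    have h1 : f = fun t => ∑ σ : Equiv.Perm (Fin 6 × Fin 2), ((Equiv.Perm.sign σ : ℤ) : ℝ) *
        ∏ m : Fin 6, (τ t).coeff e (δ • y) (e12 (σ (m, 0))) (e12 (σ (m, 1))) := by
      funext t
      rw [hf]
      unfold pf
      simp only [coeff_eq (τ t) hea]
      rfl
    rw [h1]
    refine continuousOn_finsetSum _ fun σ _ => continuousOn_const.mul ?_
    refine continuousOn_finsetProd _ fun m _ => ?_
    have h2 := hcont e hea (e12 (σ (m, 0))) (e12 (σ (m, 1)))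
    have h3 : ContinuousOn (fun t : ℝ => ((t, δ • y) : ℝ × E12)) (Icc (0 : ℝ) 1) := by fun_prop
    exact h2.comp h3 fun t ht => ⟨ht, hδ⟩
  have hfn : ∀ t ∈ Icc (0 : ℝ) 1, f t ≠ 0 := by
    intro t ht
    rw [hf]
    exact pf_ne_zero e12 _ (fun v => pb_alt (τ t) _ v)
      (fun u hu => pb_nondeg (τ t) (hn t ht) (δ • y) u hu)
  have h00 : (0 : ℝ) ∈ Icc (0 : ℝ) 1 := ⟨le_refl _, zero_le_one⟩
  have h11 : (1 : ℝ) ∈ Icc (0 : ℝ) 1 := ⟨zero_le_one, le_refl _⟩
  by_contra hcon
  push Not at hcon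
  have hf0 := hfn 0 h00
  have hf1 := hfn 1 h11
  have hne : f 0 * f 1 < 0 := lt_of_le_of_ne hcon (mul_ne_zero hf0 hf1)
  have hz : ∃ t ∈ Icc (0 : ℝ) 1, f t = 0 := by
    rcases mul_neg_iff.1 hne with ⟨ha, hb⟩ | ⟨ha, hb⟩
    · have := intermediate_value_Icc' (zero_le_one' ℝ) hfc
      obtain ⟨t, ht, h⟩ := this ⟨hb.le, ha.le⟩
      exact ⟨t, ht, h⟩
    · have := intermediate_value_Icc (zero_le_one' ℝ) hfc
      obtain ⟨t, ht, h⟩ := this ⟨ha.le, hb.le⟩
      exact ⟨t, ht, h⟩
  obtain ⟨t, ht, h⟩ := hz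
  exact hfn t ht h

/-- no closed nondegenerate form is homotopic to `tau0` -/
theorem tau0_not_homotopic (τ₁ : TwoForm E12 Nil12) (hs : τ₁.IsSymplectic) :
    ¬ TwoForm.Homotopic tau0 τ₁ := by
  rintro ⟨τ, h0, h1, hn, hcont⟩
  refine not_all_neg τ₁ hs.1 hs.2.1 fun p => ?_
  have h2 := sign_path τ hn hcont p
  rw [h0, h1, pbF_tau0, pf_lift, pf_B1] at h2
  have h3 := sgn_ne
  nlinarith [h2]

end Pool.Agent.Y519.AS
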